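import Pool.Agent.Y336.BW.Geo

/-!
# A representation of the matroid of a system of quadrangles gives plane data
-/

set_option autoImplicit false

namespace Pool.Agent.Y336.BW

section

variable {Λ : Type*} [DecidableEq Λ]

/-- Plane data without injectivity for the opposite sides of a quadrangle. -/
structure WGeo (S : Sys Λ) (K : ℕ) (pt : Λ → ℚ × ℚ) (off : ℕ → ℕ → ℚ × ℚ) : Prop where
  hp : pt S.p = (1, 0)
  hq : pt S.q = (0, 1)
  side : ∀ k < K, ∀ i < 4, ∀ j < 4, i ≠ j →
    ∃ c : ℚ, c ≠ 0 ∧ off k j = off k i + c • pt (S.lab k i j)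
  far : ∀ k < K, ∀ k' < K, k ≠ k' → ∀ i < 4, ∀ j < 4, ∀ i' < 4, ∀ j' < 4, i ≠ j → i' ≠ j' →
    S.lab k i j ≠ S.lab k' i' j' → dt (pt (S.lab k i j)) (pt (S.lab k' i' j')) ≠ 0
  near : ∀ k < K, ∀ i < 4, ∀ j < 4, ∀ l < 4, i ≠ j → i ≠ l → j ≠ l →
    dt (pt (S.lab k i j)) (pt (S.lab k i l)) ≠ 0
  np : ∀ k < K, ∀ i < 4, ∀ j < 4, i ≠ j → S.lab k i j ≠ S.p → (pt (S.lab k i j)).2 ≠ 0
  nq : ∀ k < K, ∀ i < 4, ∀ j < 4, i ≠ j → S.lab k i j ≠ S.q → (pt (S.lab k i j)).1 ≠ 0

/-- the vertex `i` of the quadrangle `k` -/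
def el {K : ℕ} (k i : ℕ) (hk : k < K) (hi : i < 4) : Fin (2 + 4 * K) := ⟨2 + 4 * k + i, by omega⟩

section lamlemmas

variable {K : ℕ} (S : Sys Λ) {k k' i j : ℕ} (hk : k < K) (hk' : k' < K) (hi : i < 4) (hj : j < 4)

omit [DecidableEq Λ] in
theorem blk_el : blk (el k i hk hi) = k := by
  simp only [blk, el]; omega

omit [DecidableEq Λ] in
theorem vtx_el : vtx (el k i hk hi) = i := by
  simp only [vtx, el]; omega

omit [DecidableEq Λ] in
theorem two_le_el : 2 ≤ (el k i hk hi : ℕ) := by
  simp only [el]; omega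

omit [DecidableEq Λ] in
theorem el_ne (hij : i ≠ j) : (el k i hk hi : ℕ) ≠ el k j hk hj := by
  simp only [el]; omega

omit [DecidableEq Λ] in
theorem lam_el (hij : i ≠ j) : lam S (el k i hk hi) (el k j hk hj) = some (S.lab k i j) := by
  rw [lam_off S (two_le_el _ _) (two_le_el _ _) (el_ne hk hi hj hij) (by rw [blk_el, blk_el]),
    blk_el, vtx_el, vtx_el]

omit [DecidableEq Λ] in
theorem lam_el_self : lam S (el k i hk hi) (el k i hk hi) = none :=
  lam_self_of_two_le S (two_le_el _ _)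

omit [DecidableEq Λ] in
theorem lam_el_far (hkk : k ≠ k') : lam S (el k i hk hi) (el k' j hk' hj) = none := by
  unfold lam
  rw [if_neg (by simp only [el]; omega), if_neg]
  rintro ⟨-, -, h⟩
  rw [blk_el, blk_el] at h
  exact hkk h

omit [DecidableEq Λ] in
theorem lam_el_small {e : ℕ} (he : e < 2) : lam S (el k i hk hi) e = none := by
  unfold lam
  rw [if_neg (by simp only [el]; omega), if_neg]
  rintro ⟨-, h, -⟩
  omega

omit [DecidableEq Λ] in
theorem lam_small_el {e : ℕ} (he : e < 2) : lam S e (el k i hk hi) = none := by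
  rw [lam_symm, lam_el_small S hk hi he]

end lamlemmas

/-- the points of the line -/
def e0 {K : ℕ} : Fin (2 + 4 * K) := ⟨0, by omega⟩
def e1 {K : ℕ} : Fin (2 + 4 * K) := ⟨1, by omega⟩

variable {S : Sys Λ} {K : ℕ} {V : Type*} [AddCommGroup V] [Module ℚ V]
  {v : Fin (2 + 4 * K) → V}

/-- the vectors `v` represent the matroid, in terms of spans -/
def SRep (S : Sys Λ) (v : Fin (2 + 4 * K) → V) : Prop :=
  ∀ (X : Finset (Fin (2 + 4 * K))) (e : Fin (2 + 4 * K)),
    v e ∈ Submodule.span ℚ (v '' (X : Set _)) ↔ rk S (insert e X) = rk S X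

section

variable (h : SRep S v)
include h

theorem SRep.mem {X : Finset (Fin (2 + 4 * K))} {e : Fin (2 + 4 * K)}
    (h1 : 2 ≤ (e : ℕ) → blk e ∈ touched X)
    (h2 : 2 ≤ (labsOf S X).card ∨ labsOf S (insert e X) ⊆ labsOf S X) :
    v e ∈ Submodule.span ℚ (v '' (X : Set _)) := by
  rw [h]
  have hT : touched (insert e X) = touched X := by
    rw [touched_insert]
    split_ifs with h3
    · exact Finset.insert_eq_of_mem (h1 h3)
    · rfl
  unfold rk
  rw [hT]
  have h3 := Finset.card_le_card (labsOf_mono S (Finset.subset_insert e X))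
  rcases h2 with h2 | h2
  · omega
  · have := Finset.card_le_card h2
    omega

theorem SRep.not_mem {X : Finset (Fin (2 + 4 * K))} {e : Fin (2 + 4 * K)}
    (h1 : (2 ≤ (e : ℕ) ∧ blk e ∉ touched X) ∨
      ((∃ l₀, ∀ l ∈ labsOf S X, l = l₀) ∧ ∃ l ∈ labsOf S (insert e X), l ∉ labsOf S X)) :
    v e ∉ Submodule.span ℚ (v '' (X : Set _)) := by
  rw [h]
  rcases h1 with ⟨h1, h2⟩ | ⟨⟨l₀, h1⟩, l, hl, hlX⟩
  · unfold rk
    rw [touched_insert, if_pos h1, Finset.card_insert_of_notMem h2, labsOf_insert_new S h1 h2]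
    omega
  · have h2 := Finset.card_le_card (touched_mono (Finset.subset_insert e X))
    have h3 : (labsOf S X).card ≤ 1 := by
      rw [Finset.card_le_one]
      intro a ha b hb
      rw [h1 a ha, h1 b hb]
    have h4 : labsOf S X ⊂ labsOf S (insert e X) :=
      (Finset.ssubset_iff_of_subset (labsOf_mono S (Finset.subset_insert e X))).2 ⟨l, hl, hlX⟩
    have h5 := Finset.card_lt_card h4
    unfold rk
    omega

variable {k k' i j l i' j' : ℕ} (hk : k < K) (hk' : k' < K) (hi : i < 4) (hj : j < 4) (hl : l < 4)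
  (hi' : i' < 4) (hj' : j' < 4)

theorem SRep.f1 : v (el k i hk hi) ∈
    Submodule.span ℚ (v '' (({e0, e1, el k 0 hk (by norm_num)} : Finset (Fin (2 + 4 * K))) :
      Set (Fin (2 + 4 * K)))) := by
  apply h.mem
  · intro _
    rw [blk_el]
    exact mem_touched.2 ⟨el k 0 hk (by norm_num), by simp, two_le_el _ _, blk_el _ _⟩
  · left
    apply Finset.one_lt_card.2
    refine ⟨S.p, (mem_labsOf S).2 ⟨e0, by simp, e0, by simp, by simp [lam, e0]⟩, S.q,
      (mem_labsOf S).2 ⟨e1, by simp, e1, by simp, by simp [lam, e1]⟩, S.ne⟩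

theorem SRep.f2 : v (el k i hk hi) ∉
    Submodule.span ℚ (v '' (({e0, e1} : Finset (Fin (2 + 4 * K))) : Set (Fin (2 + 4 * K)))) := by
  apply h.not_mem
  left
  refine ⟨two_le_el _ _, ?_⟩
  rw [mem_touched]
  rintro ⟨e, he, h2, -⟩
  simp only [Finset.mem_insert, Finset.mem_singleton] at he
  rcases he with rfl | rfl <;> simp [e0, e1] at h2

theorem SRep.f3 (X : Finset (Fin (2 + 4 * K))) (hX : ∀ e ∈ X, 2 ≤ (e : ℕ) → blk e ≠ k) :
    v (el k i hk hi) ∉ Submodule.span ℚ (v '' (X : Set _)) := by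
  apply h.not_mem
  left
  refine ⟨two_le_el _ _, ?_⟩
  rw [mem_touched, blk_el]
  rintro ⟨e, he, h2, h3⟩
  exact hX e he h2 h3

/-- a transversal with one point of the line -/
theorem SRep.f4 (X : Finset (Fin (2 + 4 * K))) (hX : ∀ e ∈ X, e = e1 ∨ (2 ≤ (e : ℕ) ∧ vtx e = 0)) :
    v e0 ∉ Submodule.span ℚ (v '' (X : Set _)) := by
  have hlab : ∀ l ∈ labsOf S X, l = S.q := by
    intro l hl
    obtain ⟨e, he, f, hf, h1⟩ := (mem_labsOf S).1 hl
    by_cases hef : (e : ℕ) = f
    · rw [← hef] at h1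
      rcases hX e he with rfl | h2
      · simp [lam, e1] at h1
        exact h1.symm
      · rw [lam_self_of_two_le S h2.1] at h1
        exact absurd h1 (by simp)
    · exfalso
      obtain ⟨h2, h3, h4, -⟩ := lam_eq_some_off S hef h1
      rcases hX e he with rfl | h5
      · simp [e1] at h2
      · rcases hX f hf with rfl | h6
        · simp [e1] at h3
        · exact hef (ext_bv h2 h3 h4 (h5.2.trans h6.2.symm))
  apply h.not_mem
  right
  refine ⟨⟨_, hlab⟩, S.p, (mem_labsOf_insert S).2 (Or.inr (Or.inl (by simp [lam, e0]))), ?_⟩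
  intro h1
  exact S.ne (hlab _ h1)

theorem SRep.f5 (X : Finset (Fin (2 + 4 * K))) (hX : ∀ e ∈ X, e = e0 ∨ (2 ≤ (e : ℕ) ∧ vtx e = 0)) :
    v e1 ∉ Submodule.span ℚ (v '' (X : Set _)) := by
  have hlab : ∀ l ∈ labsOf S X, l = S.p := by
    intro l hl
    obtain ⟨e, he, f, hf, h1⟩ := (mem_labsOf S).1 hl
    by_cases hef : (e : ℕ) = f
    · rw [← hef] at h1
      rcases hX e he with rfl | h2
      · simp [lam, e0] at h1
        exact h1.symm
      · rw [lam_self_of_two_le S h2.1] at h1
        exact absurd h1 (by simp)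
    · exfalso
      obtain ⟨h2, h3, h4, -⟩ := lam_eq_some_off S hef h1
      rcases hX e he with rfl | h5
      · simp [e0] at h2
      · rcases hX f hf with rfl | h6
        · simp [e0] at h3
        · exact hef (ext_bv h2 h3 h4 (h5.2.trans h6.2.symm))
  apply h.not_mem
  right
  refine ⟨⟨_, hlab⟩, S.q, (mem_labsOf_insert S).2 (Or.inr (Or.inl (by simp [lam, e1]))), ?_⟩
  intro h1
  exact S.ne (hlab _ h1).symm

/-- a side through the point `p` -/
theorem SRep.f6 (hij : i ≠ j) (hlab : S.lab k i j = S.p) : v (el k j hk hj) ∈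
    Submodule.span ℚ (v '' (({el k i hk hi, e0} : Finset (Fin (2 + 4 * K))) :
      Set (Fin (2 + 4 * K)))) := by
  apply h.mem
  · intro _
    rw [blk_el]
    exact mem_touched.2 ⟨el k i hk hi, by simp, two_le_el _ _, blk_el _ _⟩
  · right
    intro l hl
    rw [mem_labsOf_insert] at hl
    rcases hl with hl | hl | ⟨f, hf, hl⟩
    · exact hl
    · rw [lam_el_self] at hl
      exact absurd hl (by simp)
    · simp only [Finset.mem_insert, Finset.mem_singleton] at hf
      rcases hf with rfl | rfl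
      · rw [lam_el S hk hj hi hij.symm, S.symm, hlab] at hl
        simp only [Option.some.injEq] at hl
        rw [← hl]
        exact (mem_labsOf S).2 ⟨e0, by simp, e0, by simp, by simp [lam, e0]⟩
      · rw [lam_el_small S hk hj (by simp [e0])] at hl
        exact absurd hl (by simp)

theorem SRep.f6' (hij : i ≠ j) (hlab : S.lab k i j = S.q) : v (el k j hk hj) ∈
    Submodule.span ℚ (v '' (({el k i hk hi, e1} : Finset (Fin (2 + 4 * K))) :
      Set (Fin (2 + 4 * K)))) := by
  apply h.mem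
  · intro _
    rw [blk_el]
    exact mem_touched.2 ⟨el k i hk hi, by simp, two_le_el _ _, blk_el _ _⟩
  · right
    intro l hl
    rw [mem_labsOf_insert] at hl
    rcases hl with hl | hl | ⟨f, hf, hl⟩
    · exact hl
    · rw [lam_el_self] at hl
      exact absurd hl (by simp)
    · simp only [Finset.mem_insert, Finset.mem_singleton] at hf
      rcases hf with rfl | rfl
      · rw [lam_el S hk hj hi hij.symm, S.symm, hlab] at hl
        simp only [Option.some.injEq] at hl
        rw [← hl]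
        exact (mem_labsOf S).2 ⟨e1, by simp, e1, by simp, by simp [lam, e1]⟩
      · rw [lam_el_small S hk hj (by simp [e1])] at hl
        exact absurd hl (by simp)

/-- two sides of different quadrangles with the same label -/
theorem SRep.f7 (hkk : k ≠ k') (hij : i ≠ j) (hij' : i' ≠ j')
    (hlab : S.lab k i j = S.lab k' i' j') : v (el k' j' hk' hj') ∈
    Submodule.span ℚ (v '' (({el k' i' hk' hi', el k i hk hi, el k j hk hj} :
      Finset (Fin (2 + 4 * K))) : Set (Fin (2 + 4 * K)))) := by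
  apply h.mem
  · intro _
    rw [blk_el]
    exact mem_touched.2 ⟨el k' i' hk' hi', by simp, two_le_el _ _, blk_el _ _⟩
  · right
    intro l hl
    rw [mem_labsOf_insert] at hl
    rcases hl with hl | hl | ⟨f, hf, hl⟩
    · exact hl
    · rw [lam_el_self] at hl
      exact absurd hl (by simp)
    · simp only [Finset.mem_insert, Finset.mem_singleton] at hf
      rcases hf with rfl | rfl | rfl
      · rw [lam_el S hk' hj' hi' hij'.symm, S.symm, ← hlab] at hl
        simp only [Option.some.injEq] at hl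
        rw [← hl]
        exact (mem_labsOf S).2 ⟨el k i hk hi, by simp, el k j hk hj, by simp, lam_el S hk hi hj hij⟩
      · rw [lam_el_far S hk' hk hj' hi hkk.symm] at hl
        exact absurd hl (by simp)
      · rw [lam_el_far S hk' hk hj' hj hkk.symm] at hl
        exact absurd hl (by simp)

/-- labels of three elements, two of them in one quadrangle -/
theorem labs_three (hkk : k ≠ k') (hij : i ≠ j) :
    ∀ l ∈ labsOf S (({el k' i' hk' hi', el k i hk hi, el k j hk hj} :
      Finset (Fin (2 + 4 * K)))), l = S.lab k i j := by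
  intro l hl
  obtain ⟨e, he, f, hf, h1⟩ := (mem_labsOf S).1 hl
  simp only [Finset.mem_insert, Finset.mem_singleton] at he hf
  rcases he with rfl | rfl | rfl <;> rcases hf with rfl | rfl | rfl
  · rw [lam_el_self] at h1; exact absurd h1 (by simp)
  · rw [lam_el_far S hk' hk hi' hi hkk.symm] at h1; exact absurd h1 (by simp)
  · rw [lam_el_far S hk' hk hi' hj hkk.symm] at h1; exact absurd h1 (by simp)
  · rw [lam_el_far S hk hk' hi hi' hkk] at h1; exact absurd h1 (by simp)
  · rw [lam_el_self] at h1; exact absurd h1 (by simp)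
  · rw [lam_el S hk hi hj hij] at h1
    simpa using h1.symm
  · rw [lam_el_far S hk hk' hj hi' hkk] at h1; exact absurd h1 (by simp)
  · rw [lam_el S hk hj hi hij.symm, S.symm] at h1
    simpa using h1.symm
  · rw [lam_el_self] at h1; exact absurd h1 (by simp)

theorem SRep.f8 (hkk : k ≠ k') (hij : i ≠ j) (hij' : i' ≠ j')
    (hlab : S.lab k i j ≠ S.lab k' i' j') : v (el k' j' hk' hj') ∉
    Submodule.span ℚ (v '' (({el k' i' hk' hi', el k i hk hi, el k j hk hj} :
      Finset (Fin (2 + 4 * K))) : Set (Fin (2 + 4 * K)))) := by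
  apply h.not_mem
  right
  refine ⟨⟨_, labs_three h hk hk' hi hj hi' hkk hij⟩, S.lab k' i' j', ?_, ?_⟩
  · rw [mem_labsOf_insert]
    exact Or.inr (Or.inr ⟨el k' i' hk' hi', by simp, by rw [lam_el S hk' hj' hi' hij'.symm, S.symm]⟩)
  · intro h1
    exact hlab (labs_three h hk hk' hi hj hi' hkk hij _ h1).symm

theorem labs_two (hij : i ≠ j) :
    ∀ l ∈ labsOf S (({el k i hk hi, el k j hk hj} : Finset (Fin (2 + 4 * K)))),
      l = S.lab k i j := by
  intro l hl
  obtain ⟨e, he, f, hf, h1⟩ := (mem_labsOf S).1 hl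
  simp only [Finset.mem_insert, Finset.mem_singleton] at he hf
  rcases he with rfl | rfl <;> rcases hf with rfl | rfl
  · rw [lam_el_self] at h1; exact absurd h1 (by simp)
  · rw [lam_el S hk hi hj hij] at h1
    simpa using h1.symm
  · rw [lam_el S hk hj hi hij.symm, S.symm] at h1
    simpa using h1.symm
  · rw [lam_el_self] at h1; exact absurd h1 (by simp)

theorem SRep.f9 (hij : i ≠ j) (hil : i ≠ l) (hjl : j ≠ l) : v (el k l hk hl) ∉
    Submodule.span ℚ (v '' (({el k i hk hi, el k j hk hj} :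
      Finset (Fin (2 + 4 * K))) : Set (Fin (2 + 4 * K)))) := by
  apply h.not_mem
  right
  refine ⟨⟨_, labs_two h hk hi hj hij⟩, S.lab k i l, ?_, ?_⟩
  · rw [mem_labsOf_insert]
    exact Or.inr (Or.inr ⟨el k i hk hi, by simp, by rw [lam_el S hk hl hi hil.symm, S.symm]⟩)
  · intro h1
    exact S.adj k i l j hi hl hj hil hij hjl.symm (labs_two h hk hi hj hij _ h1)

theorem SRep.f10 (hij : i ≠ j) : v (el k j hk hj) ∉
    Submodule.span ℚ (v '' (({el k i hk hi} : Finset (Fin (2 + 4 * K))) :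
      Set (Fin (2 + 4 * K)))) := by
  have h0 : ∀ l, l ∉ labsOf S (({el k i hk hi} : Finset (Fin (2 + 4 * K)))) := by
    intro l hl
    obtain ⟨e, he, f, hf, h1⟩ := (mem_labsOf S).1 hl
    simp only [Finset.mem_singleton] at he hf
    subst he hf
    rw [lam_el_self] at h1
    exact absurd h1 (by simp)
  apply h.not_mem
  right
  refine ⟨⟨S.p, fun l hl => absurd hl (h0 l)⟩, S.lab k i j, ?_, h0 _⟩
  rw [mem_labsOf_insert]
  exact Or.inr (Or.inr ⟨el k i hk hi, by simp, by rw [lam_el S hk hj hi hij.symm, S.symm]⟩)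

theorem SRep.f11 (hij : i ≠ j) (hlab : S.lab k i j ≠ S.p) : v (el k j hk hj) ∉
    Submodule.span ℚ (v '' (({el k i hk hi, e0} : Finset (Fin (2 + 4 * K))) :
      Set (Fin (2 + 4 * K)))) := by
  have h0 : ∀ l ∈ labsOf S (({el k i hk hi, e0} : Finset (Fin (2 + 4 * K)))), l = S.p := by
    intro l hl
    obtain ⟨e, he, f, hf, h1⟩ := (mem_labsOf S).1 hl
    simp only [Finset.mem_insert, Finset.mem_singleton] at he hf
    rcases he with rfl | rfl <;> rcases hf with rfl | rfl
    · rw [lam_el_self] at h1; exact absurd h1 (by simp)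
    · rw [lam_el_small S hk hi (by simp [e0])] at h1; exact absurd h1 (by simp)
    · rw [lam_small_el S hk hi (by simp [e0])] at h1; exact absurd h1 (by simp)
    · simp [lam, e0] at h1; exact h1.symm
  apply h.not_mem
  right
  refine ⟨⟨_, h0⟩, S.lab k i j, ?_, fun h1 => hlab (h0 _ h1)⟩
  rw [mem_labsOf_insert]
  exact Or.inr (Or.inr ⟨el k i hk hi, by simp, by rw [lam_el S hk hj hi hij.symm, S.symm]⟩)

theorem SRep.f11' (hij : i ≠ j) (hlab : S.lab k i j ≠ S.q) : v (el k j hk hj) ∉
    Submodule.span ℚ (v '' (({el k i hk hi, e1} : Finset (Fin (2 + 4 * K))) :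
      Set (Fin (2 + 4 * K)))) := by
  have h0 : ∀ l ∈ labsOf S (({el k i hk hi, e1} : Finset (Fin (2 + 4 * K)))), l = S.q := by
    intro l hl
    obtain ⟨e, he, f, hf, h1⟩ := (mem_labsOf S).1 hl
    simp only [Finset.mem_insert, Finset.mem_singleton] at he hf
    rcases he with rfl | rfl <;> rcases hf with rfl | rfl
    · rw [lam_el_self] at h1; exact absurd h1 (by simp)
    · rw [lam_el_small S hk hi (by simp [e1])] at h1; exact absurd h1 (by simp)
    · rw [lam_small_el S hk hi (by simp [e1])] at h1; exact absurd h1 (by simp)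
    · simp [lam, e1] at h1; exact h1.symm
  apply h.not_mem
  right
  refine ⟨⟨_, h0⟩, S.lab k i j, ?_, fun h1 => hlab (h0 _ h1)⟩
  rw [mem_labsOf_insert]
  exact Or.inr (Or.inr ⟨el k i hk hi, by simp, by rw [lam_el S hk hj hi hij.symm, S.symm]⟩)

end

end

end Pool.Agent.Y336.BW
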