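import Pool.Agent.Y336.BW.Back

/-!
# A representation of the matroid of a system of quadrangles gives plane data, continued
-/

set_option autoImplicit false

namespace Pool.Agent.Y336.BW

theorem exists_fn {V : Type*} [AddCommGroup V] [Module ℚ V] {A : Set V} {x : V}
    (hx : x ∉ Submodule.span ℚ A) : ∃ f : V →ₗ[ℚ] ℚ, f x = 1 ∧ ∀ a ∈ A, f a = 0 := by
  obtain ⟨f, hf, hf'⟩ := Submodule.exists_dual_map_eq_bot_of_notMem hx inferInstance
  refine ⟨(f x)⁻¹ • f, ?_, fun a ha => ?_⟩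
  · simp only [LinearMap.smul_apply, smul_eq_mul]
    exact inv_mul_cancel₀ hf
  · have h1 : f a ∈ (Submodule.span ℚ A).map f := ⟨a, Submodule.subset_span ha, rfl⟩
    rw [hf', Submodule.mem_bot] at h1
    simp [h1]

theorem par {x y : ℚ × ℚ} (hx : x ≠ 0) (h : dt x y = 0) : ∃ c : ℚ, y = c • x := by
  unfold dt at h
  by_cases h1 : x.1 = 0
  · have h2 : x.2 ≠ 0 := fun h2 => hx (Prod.ext h1 h2)
    refine ⟨y.2 / x.2, Prod.ext ?_ ?_⟩
    · rw [h1, zero_mul, zero_sub, neg_eq_zero] at h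
      have h3 := (mul_eq_zero.1 h).resolve_left h2
      simp [h1, h3]
    · simp only [Prod.smul_snd, smul_eq_mul]
      field_simp
  · refine ⟨y.1 / x.1, Prod.ext ?_ ?_⟩
    · simp only [Prod.smul_fst, smul_eq_mul]
      field_simp
    · simp only [Prod.smul_snd, smul_eq_mul]
      field_simp
      linarith

section

variable {Λ : Type*} [DecidableEq Λ] {S : Sys Λ} {K : ℕ} {V : Type*} [AddCommGroup V] [Module ℚ V]
  {v : Fin (2 + 4 * K) → V}

/-- coordinates of the vectors of the vertices -/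
structure Crd (v : Fin (2 + 4 * K) → V) (D : ℕ → V →ₗ[ℚ] ℚ) (A C : V →ₗ[ℚ] ℚ)
    (c : ℕ → ℕ → ℚ) (off : ℕ → ℕ → ℚ × ℚ) : Prop where
  A0 : A (v e0) = 1
  A1 : A (v e1) = 0
  C0 : C (v e0) = 0
  C1 : C (v e1) = 1
  Dfar : ∀ k < K, ∀ k' < K, k ≠ k' → ∀ i (hk' : k' < K) (hi : i < 4), D k (v (el k' i hk' hi)) = 0
  D0 : ∀ k < K, D k (v e0) = 0
  D1 : ∀ k < K, D k (v e1) = 0
  ne : ∀ k < K, ∀ i < 4, c k i ≠ 0
  Dc : ∀ k i (hk : k < K) (hi : i < 4), D k (v (el k i hk hi)) = c k i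
  Ac : ∀ k i (hk : k < K) (hi : i < 4), A (v (el k i hk hi)) = c k i * (off k i).1
  Cc : ∀ k i (hk : k < K) (hi : i < 4), C (v (el k i hk hi)) = c k i * (off k i).2
  eq : ∀ k i (hk : k < K) (hi : i < 4), v (el k i hk hi) =
    c k i • (v (el k 0 hk (by norm_num)) + (off k i).1 • v e0 + (off k i).2 • v e1)

theorem exists_crd (h : SRep S v) : ∃ D A C c off, Crd v D A C c off := by
  classical
  obtain ⟨A, hA, hA'⟩ := exists_fn (h.f4 (Finset.univ.filter
    (fun e : Fin (2 + 4 * K) => e = e1 ∨ (2 ≤ (e : ℕ) ∧ vtx e = 0)))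
    (fun e he => (Finset.mem_filter.1 he).2))
  obtain ⟨C, hC, hC'⟩ := exists_fn (h.f5 (Finset.univ.filter
    (fun e : Fin (2 + 4 * K) => e = e0 ∨ (2 ≤ (e : ℕ) ∧ vtx e = 0)))
    (fun e he => (Finset.mem_filter.1 he).2))
  have hD : ∀ k, ∃ f : V →ₗ[ℚ] ℚ, ∀ hk : k < K, f (v (el k 0 hk (by norm_num))) = 1 ∧
      ∀ e : Fin (2 + 4 * K), (2 ≤ (e : ℕ) → blk e ≠ k) → f (v e) = 0 := by
    intro k
    by_cases hk : k < K
    · obtain ⟨f, hf, hf'⟩ := exists_fn (h.f3 hk (by norm_num : 0 < 4) (Finset.univ.filter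
        (fun e : Fin (2 + 4 * K) => 2 ≤ (e : ℕ) → blk e ≠ k))
        (fun e he => (Finset.mem_filter.1 he).2))
      refine ⟨f, fun _ => ⟨hf, fun e he => hf' _ ⟨e, by simpa using he, rfl⟩⟩⟩
    · exact ⟨0, fun hk' => absurd hk' hk⟩
  choose D hD using hD
  have A1 : A (v e1) = 0 := hA' _ ⟨e1, by simp, rfl⟩
  have C0 : C (v e0) = 0 := hC' _ ⟨e0, by simp, rfl⟩
  have D0 : ∀ k < K, D k (v e0) = 0 := fun k hk => (hD k hk).2 _ (by simp [e0])
  have D1 : ∀ k < K, D k (v e1) = 0 := fun k hk => (hD k hk).2 _ (by simp [e1])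
  have Ak : ∀ k (hk : k < K), A (v (el k 0 hk (by norm_num))) = 0 := fun k hk =>
    hA' _ ⟨el k 0 hk (by norm_num), by
      simp only [Finset.coe_filter, Finset.mem_univ, true_and, Set.mem_ofPred_eq]
      exact Or.inr ⟨two_le_el _ _, vtx_el _ _⟩, rfl⟩
  have Ck : ∀ k (hk : k < K), C (v (el k 0 hk (by norm_num))) = 0 := fun k hk =>
    hC' _ ⟨el k 0 hk (by norm_num), by
      simp only [Finset.coe_filter, Finset.mem_univ, true_and, Set.mem_ofPred_eq]
      exact Or.inr ⟨two_le_el _ _, vtx_el _ _⟩, rfl⟩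
  -- decomposition
  have hdec : ∀ k i (hk : k < K) (hi : i < 4), v (el k i hk hi) =
      A (v (el k i hk hi)) • v e0 + C (v (el k i hk hi)) • v e1 +
        D k (v (el k i hk hi)) • v (el k 0 hk (by norm_num)) := by
    intro k i hk hi
    have h1 := h.f1 hk hi
    rw [Finset.coe_insert, Finset.coe_insert, Finset.coe_singleton, Set.image_insert_eq,
      Set.image_pair, Submodule.mem_span_triple] at h1
    obtain ⟨a, b, d, h1⟩ := h1
    have hA2 := congrArg A h1
    have hC2 := congrArg C h1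
    have hD2 := congrArg (D k) h1
    simp only [map_add, map_smul, smul_eq_mul, hA, A1, Ak k hk, mul_one, mul_zero, add_zero] at hA2
    simp only [map_add, map_smul, smul_eq_mul, hC, C0, Ck k hk, mul_one, mul_zero, add_zero,
      zero_add] at hC2
    simp only [map_add, map_smul, smul_eq_mul, D0 k hk, D1 k hk, (hD k hk).1, mul_one, mul_zero,
      add_zero, zero_add] at hD2
    rw [← hA2, ← hC2, ← hD2, h1]
  have hne : ∀ k i (hk : k < K) (hi : i < 4), D k (v (el k i hk hi)) ≠ 0 := by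
    intro k i hk hi h0
    apply h.f2 hk hi
    rw [hdec k i hk hi, h0, zero_smul, add_zero]
    refine Submodule.add_mem _ (Submodule.smul_mem _ _ (Submodule.subset_span ⟨e0, by simp, rfl⟩))
      (Submodule.smul_mem _ _ (Submodule.subset_span ⟨e1, by simp, rfl⟩))
  let w : ℕ → ℕ → V := fun k i => if hh : k < K ∧ i < 4 then v (el k i hh.1 hh.2) else 0
  have hw : ∀ k i (hk : k < K) (hi : i < 4), w k i = v (el k i hk hi) := by
    intro k i hk hi
    simp only [w, dif_pos (And.intro hk hi)]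
  refine ⟨D, A, C, fun k i => D k (w k i), fun k i => (A (w k i) / D k (w k i),
    C (w k i) / D k (w k i)), hA, A1, C0, hC, ?_, D0, D1, ?_, ?_, ?_, ?_, ?_⟩
  · intro k hk k' _ hkk i hk' hi
    refine (hD k hk).2 _ fun _ => ?_
    rw [blk_el]
    exact hkk.symm
  · intro k hk i hi
    simp only [hw k i hk hi]
    exact hne k i hk hi
  · intro k i hk hi
    simp only [hw k i hk hi]
  · intro k i hk hi
    have := hne k i hk hi
    simp only [hw k i hk hi]
    field_simp
  · intro k i hk hi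
    have := hne k i hk hi
    simp only [hw k i hk hi]
    field_simp
  · intro k i hk hi
    have hn := hne k i hk hi
    simp only [hw k i hk hi]
    conv_lhs => rw [hdec k i hk hi]
    rw [smul_add, smul_add, smul_smul, smul_smul, mul_div_cancel₀ _ hn, mul_div_cancel₀ _ hn]
    abel

section

variable {D : ℕ → V →ₗ[ℚ] ℚ} {A C : V →ₗ[ℚ] ℚ} {c : ℕ → ℕ → ℚ} {off : ℕ → ℕ → ℚ × ℚ}
  (h : SRep S v) (W : Crd v D A C c off) {k k' i j l i' j' : ℕ} (hk : k < K) (hk' : k' < K)
  (hi : i < 4) (hj : j < 4) (hl : l < 4) (hi' : i' < 4) (hj' : j' < 4)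
include h W

/-- normalised vector -/
theorem Crd.nrm : (c k i)⁻¹ • v (el k i hk hi) =
    v (el k 0 hk (by norm_num)) + (off k i).1 • v e0 + (off k i).2 • v e1 := by
  rw [W.eq k i hk hi, smul_smul, inv_mul_cancel₀ (W.ne k hk i hi), one_smul]

/-- from plane coordinates to vectors -/
theorem Crd.lift {z : ℚ × ℚ} (hz : off k j = off k i + z) :
    v (el k j hk hj) = c k j • ((c k i)⁻¹ • v (el k i hk hi) + (z.1 • v e0 + z.2 • v e1)) := by
  rw [W.nrm h hk hi, W.eq k j hk hj, hz]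
  congr 1
  simp only [Prod.fst_add, Prod.snd_add, add_smul]
  abel

include hk hi hj in
theorem Crd.off_ne (hij : i ≠ j) : off k j - off k i ≠ 0 := by
  intro h0
  apply h.f10 hk hi hj hij
  rw [W.lift h hk hi hj (z := 0) (by rw [add_zero]; exact sub_eq_zero.1 h0)]
  simp only [Prod.fst_zero, Prod.snd_zero, zero_smul, add_zero]
  exact Submodule.smul_mem _ _ (Submodule.smul_mem _ _ (Submodule.subset_span
    ⟨el k i hk hi, by simp, rfl⟩))

include hk hi hj in
theorem Crd.side_p (hij : i ≠ j) (hlab : S.lab k i j = S.p) : (off k j).2 = (off k i).2 := by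
  have h1 := h.f6 hk hi hj hij hlab
  rw [Finset.coe_insert, Finset.coe_singleton, Set.image_pair, Submodule.mem_span_pair] at h1
  obtain ⟨a, b, h1⟩ := h1
  have hC2 := congrArg C h1
  have hD2 := congrArg (D k) h1
  simp only [map_add, map_smul, smul_eq_mul, W.C0, W.Cc, mul_zero, add_zero] at hC2
  simp only [map_add, map_smul, smul_eq_mul, W.D0 k hk, W.Dc, mul_zero, add_zero] at hD2
  have h2 := W.ne k hk j hj
  rw [← hD2, mul_assoc] at hC2
  have ha : a ≠ 0 := fun h0 => h2 (by rw [← hD2, h0, zero_mul])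
  have h3 := mul_left_cancel₀ ha hC2
  exact (mul_left_cancel₀ (W.ne k hk i hi) h3).symm

include hk hi hj in
theorem Crd.side_q (hij : i ≠ j) (hlab : S.lab k i j = S.q) : (off k j).1 = (off k i).1 := by
  have h1 := h.f6' hk hi hj hij hlab
  rw [Finset.coe_insert, Finset.coe_singleton, Set.image_pair, Submodule.mem_span_pair] at h1
  obtain ⟨a, b, h1⟩ := h1
  have hA2 := congrArg A h1
  have hD2 := congrArg (D k) h1
  simp only [map_add, map_smul, smul_eq_mul, W.A1, W.Ac, mul_zero, add_zero] at hA2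
  simp only [map_add, map_smul, smul_eq_mul, W.D1 k hk, W.Dc, mul_zero, add_zero] at hD2
  have h2 := W.ne k hk j hj
  rw [← hD2, mul_assoc] at hA2
  have ha : a ≠ 0 := fun h0 => h2 (by rw [← hD2, h0, zero_mul])
  have h3 := mul_left_cancel₀ ha hA2
  exact (mul_left_cancel₀ (W.ne k hk i hi) h3).symm

include hk hk' hi hj hi' hj' in
theorem Crd.side_far (hkk : k ≠ k') (hij : i ≠ j) (hij' : i' ≠ j')
    (hlab : S.lab k i j = S.lab k' i' j') :
    ∃ t : ℚ, off k' j' - off k' i' = t • (off k j - off k i) := by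
  have h1 := h.f7 hk hk' hi hj hi' hj' hkk hij hij' hlab
  rw [Finset.coe_insert, Finset.coe_insert, Finset.coe_singleton, Set.image_insert_eq,
    Set.image_pair, Submodule.mem_span_triple] at h1
  obtain ⟨a, b, d, h1⟩ := h1
  have hA2 := congrArg A h1
  have hC2 := congrArg C h1
  have hD2 := congrArg (D k) h1
  have hD3 := congrArg (D k') h1
  simp only [map_add, map_smul, smul_eq_mul, W.Ac] at hA2
  simp only [map_add, map_smul, smul_eq_mul, W.Cc] at hC2
  simp only [map_add, map_smul, smul_eq_mul, W.Dc, W.Dfar k hk k' hk' hkk, mul_zero,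
    zero_add] at hD2
  simp only [map_add, map_smul, smul_eq_mul, W.Dc, W.Dfar k' hk' k hk hkk.symm, mul_zero,
    add_zero] at hD3
  have h2 := W.ne k' hk' j' hj'
  have h5 : b * c k i = - (d * c k j) := by linarith
  refine ⟨d * c k j / c k' j', Prod.ext ?_ ?_⟩
  · simp only [Prod.fst_sub, Prod.smul_fst, smul_eq_mul]
    rw [div_mul_eq_mul_div, eq_div_iff h2]
    have e1 : c k' j' * (off k' j').1 = a * c k' i' * (off k' i').1 + b * c k i * (off k i).1 +
        d * c k j * (off k j).1 := by linarith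
    rw [hD3, h5] at e1
    linear_combination e1
  · simp only [Prod.snd_sub, Prod.smul_snd, smul_eq_mul]
    rw [div_mul_eq_mul_div, eq_div_iff h2]
    have e1 : c k' j' * (off k' j').2 = a * c k' i' * (off k' i').2 + b * c k i * (off k i).2 +
        d * c k j * (off k j).2 := by linarith
    rw [hD3, h5] at e1
    linear_combination e1

/-- the vector of the line of the difference of two vertices -/
theorem Crd.diff : (off k j - off k i).1 • v e0 + (off k j - off k i).2 • v e1 =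
    (c k j)⁻¹ • v (el k j hk hj) - (c k i)⁻¹ • v (el k i hk hi) := by
  rw [W.nrm h hk hi, W.nrm h hk hj]
  simp only [Prod.fst_sub, Prod.snd_sub, sub_smul]
  abel

include hk hk' hi hj hi' hj' in
theorem Crd.far (hkk : k ≠ k') (hij : i ≠ j) (hij' : i' ≠ j')
    (hlab : S.lab k i j ≠ S.lab k' i' j') :
    dt (off k j - off k i) (off k' j' - off k' i') ≠ 0 := by
  intro h0
  obtain ⟨t, ht⟩ := par (W.off_ne h hk hi hj hij) h0
  apply h.f8 hk hk' hi hj hi' hj' hkk hij hij' hlab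
  rw [W.lift h hk' hi' hj' (z := t • (off k j - off k i)) (by rw [← ht]; abel)]
  refine Submodule.smul_mem _ _ (Submodule.add_mem _ (Submodule.smul_mem _ _
    (Submodule.subset_span ⟨el k' i' hk' hi', by simp, rfl⟩)) ?_)
  have h2 : (t • (off k j - off k i)).1 • v e0 + (t • (off k j - off k i)).2 • v e1 =
      t • ((c k j)⁻¹ • v (el k j hk hj) - (c k i)⁻¹ • v (el k i hk hi)) := by
    rw [← W.diff h hk hi hj]
    simp only [Prod.smul_fst, Prod.smul_snd, smul_eq_mul, smul_add, smul_smul]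
  rw [h2]
  exact Submodule.smul_mem _ _ (Submodule.sub_mem _
    (Submodule.smul_mem _ _ (Submodule.subset_span ⟨el k j hk hj, by simp, rfl⟩))
    (Submodule.smul_mem _ _ (Submodule.subset_span ⟨el k i hk hi, by simp, rfl⟩)))

include hk hi hj hl in
theorem Crd.near (hij : i ≠ j) (hil : i ≠ l) (hjl : j ≠ l) :
    dt (off k j - off k i) (off k l - off k i) ≠ 0 := by
  intro h0
  obtain ⟨t, ht⟩ := par (W.off_ne h hk hi hj hij) h0
  apply h.f9 hk hi hj hl hij hil hjl
  rw [W.lift h hk hi hl (z := t • (off k j - off k i)) (by rw [← ht]; abel)]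
  refine Submodule.smul_mem _ _ (Submodule.add_mem _ (Submodule.smul_mem _ _
    (Submodule.subset_span ⟨el k i hk hi, by simp, rfl⟩)) ?_)
  have h2 : (t • (off k j - off k i)).1 • v e0 + (t • (off k j - off k i)).2 • v e1 =
      t • ((c k j)⁻¹ • v (el k j hk hj) - (c k i)⁻¹ • v (el k i hk hi)) := by
    rw [← W.diff h hk hi hj]
    simp only [Prod.smul_fst, Prod.smul_snd, smul_eq_mul, smul_add, smul_smul]
  rw [h2]
  exact Submodule.smul_mem _ _ (Submodule.sub_mem _
    (Submodule.smul_mem _ _ (Submodule.subset_span ⟨el k j hk hj, by simp, rfl⟩))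
    (Submodule.smul_mem _ _ (Submodule.subset_span ⟨el k i hk hi, by simp, rfl⟩)))

include hk hi hj in
theorem Crd.ne_p (hij : i ≠ j) (hlab : S.lab k i j ≠ S.p) : (off k j - off k i).2 ≠ 0 := by
  intro h0
  apply h.f11 hk hi hj hij hlab
  rw [W.lift h hk hi hj (z := off k j - off k i) (by abel), h0, zero_smul, add_zero]
  exact Submodule.smul_mem _ _ (Submodule.add_mem _ (Submodule.smul_mem _ _
    (Submodule.subset_span ⟨el k i hk hi, by simp, rfl⟩)) (Submodule.smul_mem _ _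
    (Submodule.subset_span ⟨e0, by simp, rfl⟩)))

include hk hi hj in
theorem Crd.ne_q (hij : i ≠ j) (hlab : S.lab k i j ≠ S.q) : (off k j - off k i).1 ≠ 0 := by
  intro h0
  apply h.f11' hk hi hj hij hlab
  rw [W.lift h hk hi hj (z := off k j - off k i) (by abel), h0, zero_smul, zero_add]
  exact Submodule.smul_mem _ _ (Submodule.add_mem _ (Submodule.smul_mem _ _
    (Submodule.subset_span ⟨el k i hk hi, by simp, rfl⟩)) (Submodule.smul_mem _ _
    (Submodule.subset_span ⟨e1, by simp, rfl⟩)))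

end

theorem dt_smul_smul (a b : ℚ) (x y : ℚ × ℚ) : dt (a • x) (b • y) = a * b * dt x y := by
  simp only [dt, Prod.smul_fst, Prod.smul_snd, smul_eq_mul]
  ring

/-- The main theorem of this file. -/
theorem wgeo_of_srep (h : SRep S v)
    (hopp : ∀ k < K, ∀ i < 4, ∀ j < 4, ∀ i' < 4, ∀ j' < 4, i ≠ j → i' ≠ j' →
      S.lab k i j = S.lab k i' j' → S.lab k i j ≠ S.p → S.lab k i j ≠ S.q →
        (i = i' ∧ j = j') ∨ (i = j' ∧ j = i')) :
    ∃ pt off, WGeo S K pt off := by
  classical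
  obtain ⟨D, A, C, c, off, W⟩ := exists_crd h
  -- the points of the labels
  have hpt : ∀ l : Λ, ∃ z : ℚ × ℚ, (l = S.p → z = (1, 0)) ∧ (l = S.q → z = (0, 1)) ∧
      (l ≠ S.p → l ≠ S.q → (∃ k < K, ∃ i < 4, ∃ j < 4, i ≠ j ∧ S.lab k i j = l) →
        ∃ k < K, ∃ i < 4, ∃ j < 4, i ≠ j ∧ S.lab k i j = l ∧ z = off k j - off k i) := by
    intro l
    by_cases hp : l = S.p
    · exact ⟨(1, 0), fun _ => rfl, fun hq => absurd (hp.symm.trans hq) S.ne,
        fun hp' => absurd hp hp'⟩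
    by_cases hq : l = S.q
    · exact ⟨(0, 1), fun hp' => absurd hp' hp, fun _ => rfl, fun _ hq' => absurd hq hq'⟩
    by_cases hex : ∃ k < K, ∃ i < 4, ∃ j < 4, i ≠ j ∧ S.lab k i j = l
    · obtain ⟨k, hk, i, hi, j, hj, hij, hl⟩ := hex
      exact ⟨off k j - off k i, fun hp' => absurd hp' hp, fun hq' => absurd hq' hq,
        fun _ _ _ => ⟨k, hk, i, hi, j, hj, hij, hl, rfl⟩⟩
    · exact ⟨0, fun hp' => absurd hp' hp, fun hq' => absurd hq' hq, fun _ _ h' => absurd h' hex⟩
  choose pt hptp hptq hptl using hpt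
  have hside : ∀ k < K, ∀ i < 4, ∀ j < 4, i ≠ j →
      ∃ t : ℚ, t ≠ 0 ∧ off k j - off k i = t • pt (S.lab k i j) := by
    intro k hk i hi j hj hij
    have hne := W.off_ne h hk hi hj hij
    -- it suffices to find t
    suffices hs : ∃ t : ℚ, off k j - off k i = t • pt (S.lab k i j) by
      obtain ⟨t, ht⟩ := hs
      refine ⟨t, fun h0 => hne ?_, ht⟩
      rw [ht, h0, zero_smul]
    by_cases hp : S.lab k i j = S.p
    · rw [hptp _ hp]
      have h2 := W.side_p h hk hi hj hij hp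
      refine ⟨(off k j - off k i).1, Prod.ext (by simp) ?_⟩
      simp [h2]
    by_cases hq : S.lab k i j = S.q
    · rw [hptq _ hq]
      have h2 := W.side_q h hk hi hj hij hq
      refine ⟨(off k j - off k i).2, Prod.ext ?_ (by simp)⟩
      simp [h2]
    obtain ⟨k', hk', i', hi', j', hj', hij', hl, hz⟩ := hptl _ hp hq ⟨k, hk, i, hi, j, hj, hij, rfl⟩
    rw [hz]
    by_cases hkk : k' = k
    · subst hkk
      rcases hopp k' hk i hi j hj i' hi' j' hj' hij hij' hl.symm hp hq with ⟨rfl, rfl⟩ | ⟨rfl, rfl⟩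
      · exact ⟨1, by rw [one_smul]⟩
      · exact ⟨-1, by rw [neg_one_smul, neg_sub]⟩
    · exact W.side_far h hk' hk hi' hj' hi hj hkk hij' hij hl
  have key : ∀ k < K, ∀ i < 4, ∀ j < 4, i ≠ j → ∃ t : ℚ, t ≠ 0 ∧
      pt (S.lab k i j) = t • (off k j - off k i) := by
    intro k hk i hi j hj hij
    obtain ⟨t, ht, h1⟩ := hside k hk i hi j hj hij
    exact ⟨t⁻¹, inv_ne_zero ht, by rw [h1, smul_smul, inv_mul_cancel₀ ht, one_smul]⟩
  refine ⟨pt, off, hptp _ rfl, hptq _ rfl, ?_, ?_, ?_, ?_, ?_⟩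
  · intro k hk i hi j hj hij
    obtain ⟨t, ht, h1⟩ := hside k hk i hi j hj hij
    exact ⟨t, ht, by rw [← h1]; abel⟩
  · intro k hk k' hk' hkk i hi j hj i' hi' j' hj' hij hij' hlab
    obtain ⟨t, ht, h1⟩ := key k hk i hi j hj hij
    obtain ⟨t', ht', h1'⟩ := key k' hk' i' hi' j' hj' hij'
    rw [h1, h1', dt_smul_smul]
    exact mul_ne_zero (mul_ne_zero ht ht') (W.far h hk hk' hi hj hi' hj' hkk hij hij' hlab)
  · intro k hk i hi j hj l hl hij hil hjl
    obtain ⟨t, ht, h1⟩ := key k hk i hi j hj hij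
    obtain ⟨t', ht', h1'⟩ := key k hk i hi l hl hil
    rw [h1, h1', dt_smul_smul]
    exact mul_ne_zero (mul_ne_zero ht ht') (W.near h hk hi hj hl hij hil hjl)
  · intro k hk i hi j hj hij hlab
    obtain ⟨t, ht, h1⟩ := key k hk i hi j hj hij
    rw [h1, Prod.smul_snd, smul_eq_mul]
    exact mul_ne_zero ht (W.ne_p h hk hi hj hij hlab)
  · intro k hk i hi j hj hij hlab
    obtain ⟨t, ht, h1⟩ := key k hk i hi j hj hij
    rw [h1, Prod.smul_fst, smul_eq_mul]
    exact mul_ne_zero ht (W.ne_q h hk hi hj hij hlab)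

/-- from representations in the usual sense -/
theorem srep_of_rep {v : Fin (2 + 4 * K) → V}
    (hv : ∀ I : Set (Fin (2 + 4 * K)),
      (rkAx S (2 + 4 * K)).matroid.Indep I ↔ LinearIndepOn ℚ v I) : SRep S v :=
  (rkAx S (2 + 4 * K)).mem_span_iff ((rkAx S (2 + 4 * K)).indep_of_indep hv)

end

end Pool.Agent.Y336.BW
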