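import Pool.Agent.Y336.BW.Str
import Pool.Agent.TH588.MX.Prim

/-!
# The list of the bases of the matroid of a system of quadrangles, and its computability
-/

set_option autoImplicit false

namespace Pool.Agent.Y336.BW

open Pool.Agent.H881R2.Mat Pool.Agent.TH588.MX

/-- the label of a pair of elements, as a list -/
def lamL (G : List Gad) (e f : ℕ) : List Lb :=
  if decide (e = f) = true then
    (if decide (e = 0) = true then [lI] else if decide (e = 1) = true then [lO] else [])
  else if (decide (2 ≤ e) && (decide (2 ≤ f) && decide (blk e = blk f))) = true then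
    [labF G (blk e) (vtx e) (vtx f)] else []

def labL (G : List Gad) (X : List ℕ) : List Lb := X.flatMap (fun e => X.flatMap (fun f => lamL G e f))

def touchL (X : List ℕ) (k : ℕ) : Bool := X.any (fun x => decide (2 ≤ x) && decide (blk x = k))

/-- test for bases -/
def isB (G : List Gad) (X : List ℕ) : Bool :=
  decide (X.length = (blocks G).length + 2) &&
  (!((List.range (blocks G).length).any (fun k => !(touchL X k))) &&
   (labL G X).any (fun l => (labL G X).any (fun m => !decide (l = m))))

/-- the lists of the subsets of `0, …, n - 1` -/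
def subs : ℕ → List (List ℕ)
  | 0 => [[]]
  | n + 1 => subs n ++ (subs n).map (fun l => l ++ [n])

/-- The matroid of a system of wires: number of elements and list of the bases. -/
def binst (G : List Gad) : ℕ × List (List ℕ) :=
  (2 + 4 * (blocks G).length, (subs (2 + 4 * (blocks G).length)).filter (isB G))

/-! ### correctness -/

theorem subs_nodup {n : ℕ} {l : List ℕ} (h : l ∈ subs n) : l.Nodup ∧ ∀ x ∈ l, x < n := by
  induction n generalizing l with
  | zero =>
    simp only [subs, List.mem_singleton] at h
    subst h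
    simp
  | succ n ih =>
    simp only [subs, List.mem_append, List.mem_map] at h
    rcases h with h | ⟨l', h, rfl⟩
    · obtain ⟨h1, h2⟩ := ih h
      exact ⟨h1, fun x hx => (h2 x hx).trans (by omega)⟩
    · obtain ⟨h1, h2⟩ := ih h
      refine ⟨?_, ?_⟩
      · rw [List.nodup_append]
        refine ⟨h1, by simp, ?_⟩
        intro a ha b hb
        simp only [List.mem_singleton] at hb
        have := h2 a ha
        omega
      · intro x hx
        simp only [List.mem_append, List.mem_singleton] at hx
        rcases hx with hx | rfl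
        · have := h2 x hx
          omega
        · omega

theorem exists_subs {n : ℕ} (P : ℕ → Prop) : ∃ l ∈ subs n, ∀ x, x ∈ l ↔ x < n ∧ P x := by
  classical
  induction n with
  | zero => exact ⟨[], by simp [subs], by simp⟩
  | succ n ih =>
    obtain ⟨l, hl, h⟩ := ih
    by_cases hn : P n
    · refine ⟨l ++ [n], by simp only [subs, List.mem_append, List.mem_map]; exact Or.inr ⟨l, hl, rfl⟩,
        fun x => ?_⟩
      simp only [List.mem_append, List.mem_singleton, h]
      constructor
      · rintro (⟨h1, h2⟩ | rfl)
        · exact ⟨by omega, h2⟩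
        · exact ⟨by omega, hn⟩
      · rintro ⟨h1, h2⟩
        by_cases hx : x = n
        · exact Or.inr hx
        · exact Or.inl ⟨by omega, h2⟩
    · refine ⟨l, by simp only [subs, List.mem_append]; exact Or.inl hl, fun x => ?_⟩
      rw [h]
      constructor
      · rintro ⟨h1, h2⟩
        exact ⟨by omega, h2⟩
      · rintro ⟨h1, h2⟩
        refine ⟨?_, h2⟩
        by_contra h3
        have : x = n := by omega
        exact hn (this ▸ h2)

theorem mem_lamL {G : List Gad} (hG : Distinct G) {e f : ℕ} {m : Lb} :
    m ∈ lamL G e f ↔ lam (sys G hG) e f = some m := by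
  unfold lamL lam
  by_cases hef : e = f
  · simp only [hef, decide_true, if_true]
    by_cases h0 : f = 0
    · simp only [h0, decide_true, if_true, List.mem_singleton, Option.some.injEq]
      exact eq_comm
    · simp only [h0, decide_false, Bool.false_eq_true, if_false]
      by_cases h1 : f = 1
      · simp only [h1, decide_true, if_true, List.mem_singleton, Option.some.injEq]
        exact eq_comm
      · simp [h1]
  · simp only [hef, decide_false, Bool.false_eq_true, if_false]
    by_cases h2 : 2 ≤ e ∧ 2 ≤ f ∧ blk e = blk f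
    · rw [if_pos (by simpa using h2), if_pos h2]
      simp only [List.mem_singleton, Option.some.injEq]
      exact eq_comm
    · rw [if_neg (by simpa using h2), if_neg h2]
      simp

section

variable {G : List Gad} (hG : Distinct G)

theorem mem_labL {B : Finset (Fin (2 + 4 * (blocks G).length))} {l : List ℕ}
    (h1 : ∀ i : Fin (2 + 4 * (blocks G).length), i ∈ B ↔ (i : ℕ) ∈ l)
    (h2 : ∀ x ∈ l, x < 2 + 4 * (blocks G).length) {m : Lb} :
    m ∈ labL G l ↔ m ∈ labsOf (sys G hG) B := by
  rw [mem_labsOf]
  simp only [labL, List.mem_flatMap, mem_lamL hG]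
  constructor
  · rintro ⟨e, he, f, hf, h⟩
    exact ⟨⟨e, h2 e he⟩, (h1 _).2 he, ⟨f, h2 f hf⟩, (h1 _).2 hf, h⟩
  · rintro ⟨e, he, f, hf, h⟩
    exact ⟨e, (h1 _).1 he, f, (h1 _).1 hf, h⟩

omit hG in
theorem touchL_iff {B : Finset (Fin (2 + 4 * (blocks G).length))} {l : List ℕ}
    (h1 : ∀ i : Fin (2 + 4 * (blocks G).length), i ∈ B ↔ (i : ℕ) ∈ l)
    (h2 : ∀ x ∈ l, x < 2 + 4 * (blocks G).length) {k : ℕ} :
    touchL l k = true ↔ k ∈ touched B := by
  rw [mem_touched]
  simp only [touchL, List.any_eq_true, Bool.and_eq_true, decide_eq_true_eq]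
  constructor
  · rintro ⟨e, he, h⟩
    exact ⟨⟨e, h2 e he⟩, (h1 _).2 he, h⟩
  · rintro ⟨e, he, h⟩
    exact ⟨e, (h1 _).1 he, h⟩

theorem isB_iff {B : Finset (Fin (2 + 4 * (blocks G).length))} {l : List ℕ}
    (h1 : ∀ i : Fin (2 + 4 * (blocks G).length), i ∈ B ↔ (i : ℕ) ∈ l)
    (h2 : ∀ x ∈ l, x < 2 + 4 * (blocks G).length) (h3 : l.Nodup) :
    isB G l = true ↔ (mat (sys G hG) (blocks G).length).IsBase B := by
  have hcard : l.length = B.card := by
    classical
    rw [← List.toFinset_card_of_nodup h3, ← Finset.card_map Fin.valEmbedding]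
    congr 1
    ext x
    simp only [List.mem_toFinset, Finset.mem_map, Fin.valEmbedding_apply]
    constructor
    · intro hx
      exact ⟨⟨x, h2 x hx⟩, (h1 _).2 hx, rfl⟩
    · rintro ⟨i, hi, rfl⟩
      exact (h1 _).1 hi
  rw [mat_isBase, rk_eq_iff]
  simp only [isB, Bool.and_eq_true, decide_eq_true_eq, Bool.not_eq_true', List.any_eq_false,
    List.mem_range, List.any_eq_true, decide_eq_false_iff_not,
    Bool.not_eq_false, touchL_iff h1 h2, mem_labL hG h1 h2, hcard]

theorem bases_binst (B : Set (Fin (2 + 4 * (blocks G).length))) :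
    (mat (sys G hG) (blocks G).length).IsBase B ↔ ∃ l ∈ (binst G).2,
      ∀ i : Fin (2 + 4 * (blocks G).length), i ∈ B ↔ (i : ℕ) ∈ l := by
  obtain ⟨B, rfl⟩ := (Set.toFinite B).exists_finset_coe
  simp only [binst, List.mem_filter, Finset.mem_coe]
  constructor
  · intro hB
    obtain ⟨l, hl, h⟩ := exists_subs (n := 2 + 4 * (blocks G).length)
      (fun x => ∃ hx : x < 2 + 4 * (blocks G).length, (⟨x, hx⟩ : Fin _) ∈ B)
    obtain ⟨h3, h2⟩ := subs_nodup hl
    have h1 : ∀ i : Fin (2 + 4 * (blocks G).length), i ∈ B ↔ (i : ℕ) ∈ l := by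
      intro i
      rw [h]
      exact ⟨fun hi => ⟨i.2, i.2, hi⟩, fun ⟨_, _, hi⟩ => hi⟩
    exact ⟨l, ⟨hl, (isB_iff hG h1 h2 h3).2 hB⟩, h1⟩
  · rintro ⟨l, ⟨hl, hB⟩, h1⟩
    obtain ⟨h3, h2⟩ := subs_nodup hl
    exact (isB_iff hG h1 h2 h3).1 hB

end

/-! ### computability -/

attribute [local fun_prop] Primrec
attribute [local fun_prop] prid prconst prcomp prfst prsnd prpair pradd prmul prappend prcons
  prlength prand pror prnot preq prlt prif prifeq przipIdx

section

variable {α β : Type} [Primcodable α] [Primcodable β]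

theorem prsub {f g : α → ℕ} (hf : Primrec f) (hg : Primrec g) :
    Primrec (fun x => f x - g x) := Primrec.nat_sub.comp hf hg
theorem prdiv {f g : α → ℕ} (hf : Primrec f) (hg : Primrec g) :
    Primrec (fun x => f x / g x) := Primrec.nat_div.comp hf hg
theorem prmod {f g : α → ℕ} (hf : Primrec f) (hg : Primrec g) :
    Primrec (fun x => f x % g x) := Primrec.nat_mod.comp hf hg
theorem prle {f g : α → ℕ} (hf : Primrec f) (hg : Primrec g) :
    Primrec (fun a => decide (f a ≤ g a)) := prdecide (Primrec.nat_le.comp hf hg)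

attribute [local fun_prop] prsub prdiv prmod prle

theorem pr_blk {f : α → ℕ} (hf : Primrec f) : Primrec (fun a => blk (f a)) := by
  unfold blk; fun_prop
theorem pr_vtx {f : α → ℕ} (hf : Primrec f) : Primrec (fun a => vtx (f a)) := by
  unfold vtx; fun_prop

attribute [local fun_prop] pr_blk pr_vtx

theorem pr_lR {a : α → ℕ} (ha : Primrec a) : Primrec (fun x => lR (a x)) := by
  unfold lR; fun_prop
theorem pr_lU {a : α → ℕ} (ha : Primrec a) : Primrec (fun x => lU (a x)) := by
  unfold lU; fun_prop
theorem pr_lG {a : α → ℕ} (ha : Primrec a) : Primrec (fun x => lG (a x)) := by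
  unfold lG; fun_prop
theorem pr_lV {g a : α → ℕ} (hg : Primrec g) (ha : Primrec a) :
    Primrec (fun x => lV (g x) (a x)) := by
  unfold lV; fun_prop

attribute [local fun_prop] pr_lR pr_lU pr_lG pr_lV

theorem pr_trB {g a : α → ℕ} (hg : Primrec g) (ha : Primrec a) :
    Primrec (fun x => trB (g x) (a x)) := by
  unfold trB; fun_prop
theorem pr_mulB {g a b c : α → ℕ} (hg : Primrec g) (ha : Primrec a) (hb : Primrec b)
    (hc : Primrec c) : Primrec (fun x => mulB (g x) (a x) (b x) (c x)) := by
  unfold mulB; fun_prop
theorem pr_addB {g a b c : α → ℕ} (hg : Primrec g) (ha : Primrec a) (hb : Primrec b)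
    (hc : Primrec c) : Primrec (fun x => addB (g x) (a x) (b x) (c x)) := by
  unfold addB; fun_prop

attribute [local fun_prop] pr_trB pr_mulB pr_addB

theorem pr_gb {d : α → Gad} {g : α → ℕ} (hd : Primrec d) (hg : Primrec g) :
    Primrec (fun a => gb (d a) (g a)) := by
  unfold gb; fun_prop

theorem pr_blocks {G : α → List Gad} (hG : Primrec G) : Primrec (fun a => blocks (G a)) := by
  unfold blocks
  refine prflatMap (by fun_prop) ?_
  exact pr_gb (by fun_prop) (by fun_prop)

attribute [local fun_prop] pr_blocks

theorem pr_sideOf {b : α → Blk} {i j : α → ℕ} (hb : Primrec b) (hi : Primrec i)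
    (hj : Primrec j) : Primrec (fun a => sideOf (b a) (i a) (j a)) := by
  unfold sideOf; fun_prop

theorem pr_labF {G : α → List Gad} {k i j : α → ℕ} (hG : Primrec G) (hk : Primrec k)
    (hi : Primrec i) (hj : Primrec j) : Primrec (fun a => labF (G a) (k a) (i a) (j a)) := by
  unfold labF
  refine pr_sideOf ?_ hi hj
  exact (Primrec.list_getD dflt).comp (pr_blocks hG) hk

attribute [local fun_prop] pr_labF

theorem pr_lamL {G : α → List Gad} {i j : α → ℕ} (hG : Primrec G) (hi : Primrec i)
    (hj : Primrec j) : Primrec (fun a => lamL (G a) (i a) (j a)) := by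
  unfold lamL; fun_prop

theorem pr_labL {G : α → List Gad} {X : α → List ℕ} (hG : Primrec G) (hX : Primrec X) :
    Primrec (fun a => labL (G a) (X a)) := by
  unfold labL
  refine prflatMap hX ?_
  refine prflatMap (by fun_prop) ?_
  exact pr_lamL (by fun_prop) (by fun_prop) (by fun_prop)

attribute [local fun_prop] pr_labL

theorem pr_touchL {X : α → List ℕ} {k : α → ℕ} (hX : Primrec X) (hk : Primrec k) :
    Primrec (fun a => touchL (X a) (k a)) := by
  unfold touchL
  refine prany hX ?_
  fun_prop

attribute [local fun_prop] pr_touchL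

theorem pr_range {f : α → ℕ} (hf : Primrec f) : Primrec (fun a => List.range (f a)) :=
  Primrec.list_range.comp hf

attribute [local fun_prop] pr_range

theorem pr_isB {G : α → List Gad} {X : α → List ℕ} (hG : Primrec G) (hX : Primrec X) :
    Primrec (fun a => isB (G a) (X a)) := by
  unfold isB
  refine prand (by fun_prop) (prand (prnot (prany (by fun_prop) (by fun_prop))) ?_)
  refine prany (by fun_prop) ?_
  refine prany (by fun_prop) ?_
  fun_prop

theorem pr_filter {l : α → List β} {p : α → β → Bool} (hl : Primrec l)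
    (hp : Primrec (fun x : α × β => p x.1 x.2)) : Primrec (fun a => (l a).filter (p a)) := by
  have h : Primrec (fun a => (l a).flatMap (fun b => if p a b = true then [b] else [])) := by
    refine prflatMap hl ?_
    fun_prop
  refine h.of_eq fun a => ?_
  induction l a with
  | nil => simp
  | cons b l ih =>
    rw [List.flatMap_cons, ih]
    by_cases hb : p a b = true <;> simp [hb]

end

theorem pr_subs : Primrec subs := by
  have h : Primrec (fun n : ℕ => Nat.rec (motive := fun _ => List (List ℕ)) [[]]
      (fun n l => l ++ l.map (fun x => x ++ [n])) n) := by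
    refine Primrec.nat_rec₁ _ ?_
    have h1 : Primrec (fun x : ℕ × List (List ℕ) => x.2.flatMap (fun y => [y ++ [x.1]])) := by
      refine prflatMap (by fun_prop) ?_
      fun_prop
    refine (prappend (prsnd prid) h1).of_eq fun x => ?_
    congr 1
    induction x.2 with
    | nil => rfl
    | cons y l ih => rw [List.flatMap_cons, ih]; rfl
  refine h.of_eq fun n => ?_
  induction n with
  | zero => rfl
  | succ n ih => rw [subs, ← ih]

theorem primrec_binst : Primrec binst := by
  have h : Primrec (fun G : List Gad => 2 + 4 * (blocks G).length) :=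
    pradd (prconst 2) (prmul (prconst 4) (prlength (pr_blocks prid)))
  unfold binst
  refine prpair h (pr_filter ?_ ?_)
  · exact pr_subs.comp h
  · exact pr_isB (prfst prid) (prsnd prid)

end Pool.Agent.Y336.BW
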