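import Pool.Agent.TH588.MX.Sys

/-!
# Systems of elementary constraints for finite systems of bilinear equations
-/

set_option autoImplicit false

namespace Pool.Agent.Y336.BW

open Pool.Agent.NPC Pool.Agent.H881R2.Mat Pool.Agent.TH588.MX
open Pool.Agent.H528R2 (HoldsQ QSat)

/-- packed quadruples -/
def v4 (a b c d : ℕ) : ℕ := Nat.pair a (Nat.pair b (Nat.pair c d))
def u1 (x : ℕ) : ℕ := x.unpair.1
def u2 (x : ℕ) : ℕ := x.unpair.2.unpair.1
def u3 (x : ℕ) : ℕ := x.unpair.2.unpair.2.unpair.1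
def u4 (x : ℕ) : ℕ := x.unpair.2.unpair.2.unpair.2

@[simp] theorem u1_v4 (a b c d : ℕ) : u1 (v4 a b c d) = a := by simp [u1, v4]
@[simp] theorem u2_v4 (a b c d : ℕ) : u2 (v4 a b c d) = b := by simp [u2, v4]
@[simp] theorem u3_v4 (a b c d : ℕ) : u3 (v4 a b c d) = c := by simp [u3, v4]
@[simp] theorem u4_v4 (a b c d : ℕ) : u4 (v4 a b c d) = d := by simp [u4, v4]

/-- codes of constraints -/
abbrev Cd : Type := ℕ × ℕ × ℕ × ℕ

/-- validity of a constraint given by its code -/
def Hc (v : ℕ → ℚ) (c : Cd) : Prop :=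
  if c.1 = 0 then v c.2.1 = 1 else if c.1 = 1 then v c.2.1 + v c.2.2.1 = v c.2.2.2
  else v c.2.1 * v c.2.2.1 = v c.2.2.2

/-- the constraint with a given code -/
def dec (c : Cd) : ER.Con :=
  if c.1 = 0 then .one c.2.1 else if c.1 = 1 then .add c.2.1 c.2.2.1 c.2.2.2
  else .mul c.2.1 c.2.2.1 c.2.2.2

theorem holds_dec (v : ℕ → ℚ) (c : Cd) : HoldsQ v (dec c) ↔ Hc v c := by
  unfold dec Hc
  split_ifs <;> rfl

/-- the wires of a list of codes -/
def toWc (C : List Cd) : List Gad := C.zipIdx.flatMap (fun q => conC q.1 q.2)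

theorem conC_dec (c : Cd) (g : ℕ) : conC (dec c).code g = conC c g := by
  unfold dec conC
  split_ifs <;> simp_all [ER.Con.code]

theorem toWc_eq (C : List Cd) : toWc C = toW (C.map dec) := by
  rw [toW_code, toWc, List.map_map, List.zipIdx_map, List.flatMap_map]
  congr 1
  funext q
  exact (conC_dec q.1 q.2).symm

theorem wsat_toWc (C : List Cd) : WSat (toWc C) ↔ ∃ v : ℕ → ℚ, ∀ c ∈ C, Hc v c := by
  rw [toWc_eq, wsat_toW]
  unfold QSat
  simp only [List.mem_map, forall_exists_index, and_imp, forall_apply_eq_imp_iff₂, holds_dec]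

theorem distinct_toWc (C : List Cd) : Distinct (toWc C) := by
  rw [toWc_eq]
  exact distinct_toW _

/-! ### scalar products -/

def vO : ℕ := v4 0 0 0 0
def vZ : ℕ := v4 1 0 0 0
def vP (d j : ℕ) : ℕ := v4 6 d j 0
def vS (d j : ℕ) : ℕ := v4 7 d j 0

/-- the scalar product of the pairs in the list is equal to the variable `c` -/
def dot (d : ℕ) (P : List (ℕ × ℕ)) (c : ℕ) : List Cd :=
  (1, vS d 0, vZ, vZ) :: (1, vS d P.length, vZ, c) :: P.zipIdx.flatMap (fun q =>
    [(2, q.1.1, q.1.2, vP d q.2), (1, vS d q.2, vP d q.2, vS d (q.2 + 1))])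

/-- the value of the scalar product -/
def sm (v : ℕ → ℚ) (P : List (ℕ × ℕ)) : ℚ := (P.map (fun p => v p.1 * v p.2)).sum

theorem sm_take_succ (v : ℕ → ℚ) (P : List (ℕ × ℕ)) {j : ℕ} (hj : j < P.length) :
    sm v (P.take (j + 1)) = sm v (P.take j) + v P[j].1 * v P[j].2 := by
  unfold sm
  rw [List.take_succ_eq_append_getElem hj, List.map_append, List.sum_append]
  simp only [List.map_cons, List.map_nil, List.sum_cons, List.sum_nil, add_zero]

theorem mem_dot {d : ℕ} {P : List (ℕ × ℕ)} {c : ℕ} {x : Cd} : x ∈ dot d P c ↔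
    x = (1, vS d 0, vZ, vZ) ∨ x = (1, vS d P.length, vZ, c) ∨
      ∃ j, ∃ hj : j < P.length, x = (2, P[j].1, P[j].2, vP d j) ∨
        x = (1, vS d j, vP d j, vS d (j + 1)) := by
  simp only [dot, List.mem_cons, List.mem_flatMap, Prod.exists, List.mem_zipIdx_iff_getElem?,
    List.not_mem_nil, or_false]
  constructor
  · rintro (h | h | ⟨a, b, j, hj, h⟩)
    · exact Or.inl h
    · exact Or.inr (Or.inl h)
    · obtain ⟨hj', hj''⟩ := List.getElem?_eq_some_iff.1 hj
      refine Or.inr (Or.inr ⟨j, hj', ?_⟩)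
      rw [hj'']
      exact h
  · rintro (h | h | ⟨j, hj, h⟩)
    · exact Or.inl h
    · exact Or.inr (Or.inl h)
    · exact Or.inr (Or.inr ⟨P[j].1, P[j].2, j, List.getElem?_eq_getElem hj, h⟩)

theorem dot_sound {v : ℕ → ℚ} {d : ℕ} {P : List (ℕ × ℕ)} {c : ℕ} (hZ : v vZ = 0)
    (h : ∀ x ∈ dot d P c, Hc v x) : sm v P = v c := by
  have h0 := h (1, vS d 0, vZ, vZ) (mem_dot.2 (Or.inl rfl))
  have h1 := h (1, vS d P.length, vZ, c) (mem_dot.2 (Or.inr (Or.inl rfl)))
  simp only [Hc, one_ne_zero, if_false, if_true] at h0 h1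
  have key : ∀ j ≤ P.length, v (vS d j) = sm v (P.take j) := by
    intro j
    induction j with
    | zero =>
      intro _
      simp only [List.take_zero, sm, List.map_nil, List.sum_nil]
      linarith
    | succ j ih =>
      intro hj
      have h2 := h (2, P[j].1, P[j].2, vP d j) (mem_dot.2 (Or.inr (Or.inr ⟨j, hj, Or.inl rfl⟩)))
      have h3 := h (1, vS d j, vP d j, vS d (j + 1))
        (mem_dot.2 (Or.inr (Or.inr ⟨j, hj, Or.inr rfl⟩)))
      simp only [Hc, one_ne_zero, if_false, if_true] at h2 h3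
      rw [sm_take_succ v P hj, ← ih (by omega), ← h3]
      norm_num at h2
      rw [h2]
  have h4 := key P.length le_rfl
  rw [List.take_length] at h4
  linarith

theorem dot_complete {v : ℕ → ℚ} {d : ℕ} {P : List (ℕ × ℕ)} {c : ℕ} (hZ : v vZ = 0)
    (hP : ∀ j (hj : j < P.length), v (vP d j) = v P[j].1 * v P[j].2)
    (hS : ∀ j ≤ P.length, v (vS d j) = sm v (P.take j)) (hc : sm v P = v c) :
    ∀ x ∈ dot d P c, Hc v x := by
  intro x hx
  rcases mem_dot.1 hx with rfl | rfl | ⟨j, hj, rfl | rfl⟩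
  · simp only [Hc, one_ne_zero, if_false, if_true]
    rw [hS 0 (by omega), hZ]
    simp [sm]
  · simp only [Hc, one_ne_zero, if_false, if_true]
    rw [hS _ le_rfl, List.take_length, hZ, hc, add_zero]
  · simp only [Hc]
    norm_num
    exact (hP j hj).symm
  · simp only [Hc, one_ne_zero, if_false, if_true]
    rw [hS _ (by omega), hS _ (by omega), hP j hj, sm_take_succ v P hj]

/-! ### systems of scalar products -/

def pk (i : Cd) : ℕ := v4 i.1 i.2.1 i.2.2.1 i.2.2.2
def upk (d : ℕ) : Cd := (u1 d, u2 d, u3 d, u4 d)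

@[simp] theorem upk_pk (i : Cd) : upk (pk i) = i := by simp [upk, pk]

/-- the constraints of a system of scalar products -/
def system (items : List Cd) (P : Cd → List (ℕ × ℕ)) (cst : Cd → ℕ) : List Cd :=
  (0, vO, 0, 0) :: (1, vZ, vZ, vZ) :: items.flatMap (fun i => dot (pk i) (P i) (cst i))

theorem system_iff {items : List Cd} {P : Cd → List (ℕ × ℕ)} {cst : Cd → ℕ}
    (hP : ∀ i ∈ items, (∀ p ∈ P i, u1 p.1 ≤ 5 ∧ u1 p.2 ≤ 5) ∧ u1 (cst i) ≤ 5) :
    (∃ v : ℕ → ℚ, ∀ c ∈ system items P cst, Hc v c) ↔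
      ∃ v : ℕ → ℚ, v vO = 1 ∧ v vZ = 0 ∧ ∀ i ∈ items, sm v (P i) = v (cst i) := by
  constructor
  · rintro ⟨v, hv⟩
    have h0 := hv (0, vO, 0, 0) (by simp [system])
    have h1 := hv (1, vZ, vZ, vZ) (by simp [system])
    simp only [Hc, one_ne_zero, if_false, if_true] at h0 h1
    have hZ : v vZ = 0 := by linarith
    refine ⟨v, h0, hZ, fun i hi => dot_sound (d := pk i) hZ fun x hx => hv x ?_⟩
    simp only [system, List.mem_cons, List.mem_flatMap]
    exact Or.inr (Or.inr ⟨i, hi, hx⟩)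
  · rintro ⟨v, hO, hZ, h⟩
    let v' : ℕ → ℚ := fun x =>
      if u1 x = 6 then (if hj : u3 x < (P (upk (u2 x))).length then
        v ((P (upk (u2 x)))[u3 x]).1 * v ((P (upk (u2 x)))[u3 x]).2 else 0)
      else if u1 x = 7 then sm v ((P (upk (u2 x))).take (u3 x)) else v x
    have hv' : ∀ x, u1 x ≤ 5 → v' x = v x := by
      intro x hx
      simp only [v']
      rw [if_neg (by omega), if_neg (by omega)]
    have hvO : v' vO = 1 := by rw [hv' _ (by simp [vO]), hO]
    have hvZ : v' vZ = 0 := by rw [hv' _ (by simp [vZ]), hZ]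
    have hsm : ∀ {L : List (ℕ × ℕ)}, (∀ p ∈ L, u1 p.1 ≤ 5 ∧ u1 p.2 ≤ 5) → sm v' L = sm v L := by
      intro L hL
      unfold sm
      congr 1
      apply List.map_congr_left
      intro p hp
      rw [hv' _ (hL p hp).1, hv' _ (hL p hp).2]
    refine ⟨v', fun c hc => ?_⟩
    simp only [system, List.mem_cons, List.mem_flatMap] at hc
    rcases hc with rfl | rfl | ⟨i, hi, hc⟩
    · simp only [Hc, if_true]
      exact hvO
    · simp only [Hc, one_ne_zero, if_false, if_true]
      rw [hvZ, add_zero]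
    · obtain ⟨hp1, hp2⟩ := hP i hi
      refine dot_complete hvZ ?_ ?_ ?_ c hc
      · intro j hj
        have h1 := hp1 _ (List.getElem_mem hj)
        rw [hv' _ h1.1, hv' _ h1.2]
        simp only [v', vP, u1_v4, u2_v4, u3_v4, upk_pk, if_true]
        rw [dif_pos hj]
      · intro j hj
        rw [hsm fun p hp => hp1 p (List.mem_of_mem_take hp)]
        simp [v', vS]
      · rw [hsm hp1, hv' _ hp2]
        exact h i hi

end Pool.Agent.Y336.BW
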