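import Pool.Agent.Y336.BW.Dot
import Pool.Agent.Y336.BW.Comp

/-!
# Representability of a matroid as a system of elementary constraints
-/

set_option autoImplicit false

namespace Pool.Agent.Y336.BW

open Pool.Agent.NPC Pool.Agent.H881R2.Mat Pool.Agent.TH588.MX

def vV (i t : ℕ) : ℕ := v4 2 i t 0
def vW (k a b : ℕ) : ℕ := v4 3 k a b
def vL (k s : ℕ) : ℕ := v4 4 k s 0
def vM (k s : ℕ) : ℕ := v4 5 k s 0

/-- test for independent sets: the set is contained in a listed set -/
def indT (L : List (List ℕ)) (X : List ℕ) : Bool :=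
  L.any (fun l => !(X.any (fun x => !(decide (x ∈ l)))))

/-- the scalar products: for independent sets a right inverse of the matrix, for dependent sets a
linear relation and a certificate that it is not zero -/
def items (I : ℕ × List (List ℕ)) : List Cd :=
  (subs I.1).zipIdx.flatMap (fun q => if indT I.2 q.1 = true then
      (List.range q.1.length).flatMap (fun b => (List.range q.1.length).flatMap
        (fun c => [(q.2, 0, b, c)]))
    else (q.2, 2, 0, 0) :: (List.range I.1).flatMap (fun b => [(q.2, 1, b, 0)]))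

def prs (I : ℕ × List (List ℕ)) (i : Cd) : List (ℕ × ℕ) :=
  if i.2.1 = 0 then
    (List.range I.1).flatMap (fun t => [(vV (((subs I.1).getD i.1 []).getD i.2.2.1 0) t,
      vW i.1 t i.2.2.2)])
  else if i.2.1 = 1 then
    (List.range ((subs I.1).getD i.1 []).length).flatMap (fun s => [(vL i.1 s,
      vV (((subs I.1).getD i.1 []).getD s 0) i.2.2.1)])
  else (List.range ((subs I.1).getD i.1 []).length).flatMap (fun s => [(vL i.1 s, vM i.1 s)])

def cst (i : Cd) : ℕ :=
  if i.2.1 = 0 then (if i.2.2.1 = i.2.2.2 then vO else vZ) else if i.2.1 = 1 then vZ else vO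

/-- the constraints for the representability of the matroid `I` -/
def repC (I : ℕ × List (List ℕ)) : List Cd := system (items I) (prs I) cst

theorem sm_range (v : ℕ → ℚ) (f g : ℕ → ℕ) (n : ℕ) :
    sm v ((List.range n).flatMap (fun t => [(f t, g t)])) =
      ∑ t : Fin n, v (f t) * v (g t) := by
  induction n with
  | zero => simp [sm]
  | succ n ih =>
    rw [List.range_succ, List.flatMap_append, Fin.sum_univ_castSucc]
    unfold sm at ih ⊢
    rw [List.map_append, List.sum_append, ih]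
    simp

theorem prs_cond (I : ℕ × List (List ℕ)) (i : Cd) :
    (∀ p ∈ prs I i, u1 p.1 ≤ 5 ∧ u1 p.2 ≤ 5) ∧ u1 (cst i) ≤ 5 := by
  constructor
  · intro p hp
    unfold prs at hp
    split_ifs at hp
    · simp only [List.mem_flatMap, List.mem_singleton] at hp
      obtain ⟨t, -, rfl⟩ := hp
      simp [vV, vW]
    · simp only [List.mem_flatMap, List.mem_singleton] at hp
      obtain ⟨t, -, rfl⟩ := hp
      simp [vV, vL]
    · simp only [List.mem_flatMap, List.mem_singleton] at hp
      obtain ⟨t, -, rfl⟩ := hp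
      simp [vM, vL]
  · unfold cst
    split_ifs <;> simp [vO, vZ]

theorem mem_items {I : ℕ × List (List ℕ)} {i : Cd} : i ∈ items I ↔
    ∃ X k, (subs I.1)[k]? = some X ∧
      ((indT I.2 X = true ∧ ∃ b < X.length, ∃ c < X.length, i = (k, 0, b, c)) ∨
       (indT I.2 X = false ∧ (i = (k, 2, 0, 0) ∨ ∃ b < I.1, i = (k, 1, b, 0)))) := by
  simp only [items, List.mem_flatMap, Prod.exists, List.mem_zipIdx_iff_getElem?]
  constructor
  · rintro ⟨X, k, hk, h⟩
    refine ⟨X, k, hk, ?_⟩
    by_cases hi : indT I.2 X = true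
    · rw [if_pos hi] at h
      simp only [List.mem_flatMap, List.mem_range, List.mem_singleton] at h
      exact Or.inl ⟨hi, h⟩
    · rw [if_neg hi] at h
      simp only [List.mem_cons, List.mem_flatMap, List.mem_range, List.not_mem_nil, or_false] at h
      exact Or.inr ⟨by simpa using hi, h⟩
  · rintro ⟨X, k, hk, h⟩
    refine ⟨X, k, hk, ?_⟩
    rcases h with ⟨hi, h⟩ | ⟨hi, h⟩
    · rw [if_pos hi]
      simp only [List.mem_flatMap, List.mem_range, List.mem_singleton]
      exact h
    · rw [if_neg (by simp [hi])]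
      simp only [List.mem_cons, List.mem_flatMap, List.mem_range, List.not_mem_nil, or_false]
      exact h

/-- solvability of the system in terms of sums -/
theorem repC_iff (I : ℕ × List (List ℕ)) : (∃ v : ℕ → ℚ, ∀ c ∈ repC I, Hc v c) ↔
    ∃ v : ℕ → ℚ, v vO = 1 ∧ v vZ = 0 ∧ ∀ k (hk : k < (subs I.1).length),
      (indT I.2 (subs I.1)[k] = true → ∀ b < (subs I.1)[k].length, ∀ c < (subs I.1)[k].length,
        ∑ t : Fin I.1, v (vV ((subs I.1)[k].getD b 0) t) * v (vW k t c) = if b = c then 1 else 0) ∧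
      (indT I.2 (subs I.1)[k] = false →
        ∑ s : Fin (subs I.1)[k].length, v (vL k s) * v (vM k s) = 1 ∧
        ∀ b < I.1, ∑ s : Fin (subs I.1)[k].length,
          v (vL k s) * v (vV ((subs I.1)[k].getD s 0) b) = 0) := by
  unfold repC
  rw [system_iff fun i _ => prs_cond I i]
  constructor
  · rintro ⟨v, hO, hZ, h⟩
    refine ⟨v, hO, hZ, fun k hk => ⟨fun hi b hb c hc => ?_, fun hi => ⟨?_, fun b hb => ?_⟩⟩⟩
    · have h1 := h (k, 0, b, c) (mem_items.2 ⟨_, k, List.getElem?_eq_getElem hk,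
        Or.inl ⟨hi, b, hb, c, hc, rfl⟩⟩)
      simp only [prs, cst, if_true, List.getD_eq_getElem _ _ hk] at h1
      rw [sm_range v (fun t => vV _ t) (fun t => vW k t c)] at h1
      rw [h1]
      split_ifs
      · exact hO
      · exact hZ
    · have h1 := h (k, 2, 0, 0) (mem_items.2 ⟨_, k, List.getElem?_eq_getElem hk,
        Or.inr ⟨hi, Or.inl rfl⟩⟩)
      simp only [prs, cst, List.getD_eq_getElem _ _ hk] at h1
      norm_num at h1
      rw [sm_range v (fun s => vL k s) (fun s => vM k s), hO] at h1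
      exact h1
    · have h1 := h (k, 1, b, 0) (mem_items.2 ⟨_, k, List.getElem?_eq_getElem hk,
        Or.inr ⟨hi, Or.inr ⟨b, hb, rfl⟩⟩⟩)
      simp only [prs, cst, List.getD_eq_getElem _ _ hk, one_ne_zero, if_false, if_true] at h1
      rw [sm_range v (fun s => vL k s) (fun s => vV ((subs I.1)[k].getD s 0) b), hZ] at h1
      exact h1
  · rintro ⟨v, hO, hZ, h⟩
    refine ⟨v, hO, hZ, fun i hi => ?_⟩
    obtain ⟨X, k, hk, hX⟩ := mem_items.1 hi
    obtain ⟨hk', rfl⟩ := List.getElem?_eq_some_iff.1 hk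
    obtain ⟨h1, h2⟩ := h k hk'
    rcases hX with ⟨hT, b, hb, c, hc, rfl⟩ | ⟨hT, rfl | ⟨b, hb, rfl⟩⟩
    · simp only [prs, cst, if_true, List.getD_eq_getElem _ _ hk']
      rw [sm_range v (fun t => vV _ t) (fun t => vW k t c), h1 hT b hb c hc]
      split_ifs
      · exact hO.symm
      · exact hZ.symm
    · simp only [prs, cst, List.getD_eq_getElem _ _ hk']
      norm_num
      rw [sm_range v (fun s => vL k s) (fun s => vM k s), hO]
      exact (h2 hT).1
    · simp only [prs, cst, List.getD_eq_getElem _ _ hk', one_ne_zero, if_false, if_true]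
      rw [sm_range v (fun s => vL k s) (fun s => vV ((subs I.1)[k].getD s 0) b), hZ]
      exact (h2 hT).2 b hb

/-! ### linear algebra -/

/-- a family of rows is linearly independent if there is a right inverse -/
theorem li_of_inv {n r : ℕ} {x : Fin r → Fin n → ℚ} {W : Fin n → Fin r → ℚ}
    (h : ∀ b c, ∑ t, x b t * W t c = if b = c then 1 else 0) : LinearIndependent ℚ x := by
  rw [Fintype.linearIndependent_iff]
  intro g hg c
  have h1 : ∑ t, (∑ b, g b • x b) t * W t c = 0 := by
    rw [hg]; simp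
  have h2 : ∑ t, (∑ b, g b • x b) t * W t c = ∑ b, g b * ∑ t, x b t * W t c := by
    simp only [Finset.sum_apply, Pi.smul_apply, smul_eq_mul, Finset.sum_mul, Finset.mul_sum]
    rw [Finset.sum_comm]
    exact Finset.sum_congr rfl fun b _ => Finset.sum_congr rfl fun t _ => by ring
  rw [h2] at h1
  simpa [h] using h1

theorem inv_of_li {n r : ℕ} {x : Fin r → Fin n → ℚ} (h : LinearIndependent ℚ x) :
    ∃ W : Fin n → Fin r → ℚ, ∀ b c, ∑ t, x b t * W t c = if b = c then 1 else 0 := by
  have h1 : ∀ c : Fin r, ∃ f : (Fin n → ℚ) →ₗ[ℚ] ℚ, f (x c) = 1 ∧ ∀ b, b ≠ c → f (x b) = 0 := by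
    intro c
    have h2 : x c ∉ Submodule.span ℚ (x '' {b | b ≠ c}) := by
      have h3 := linearIndependent_iff_notMem_span.1 h c
      have h4 : ({b | b ≠ c} : Set (Fin r)) = Set.univ \ {c} := by
        ext b
        simp
      rw [h4]
      exact h3
    obtain ⟨f, hf, hf'⟩ := exists_fn h2
    exact ⟨f, hf, fun b hb => hf' _ ⟨b, hb, rfl⟩⟩
  choose f hf hf' using h1
  refine ⟨fun t c => f c (Pi.single t 1), fun b c => ?_⟩
  have h3 : ∑ t, x b t * f c (Pi.single t 1) = f c (x b) := by
    conv_rhs => rw [LinearMap.pi_apply_eq_sum_univ (f c) (x b)]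
    refine Finset.sum_congr rfl fun t _ => ?_
    rw [smul_eq_mul]
    congr 2
    funext j
    simp only [Pi.single_apply, eq_comm]
  rw [h3]
  split_ifs with h4
  · rw [h4]; exact hf c
  · exact hf' c b h4

theorem not_li_iff {n r : ℕ} {x : Fin r → Fin n → ℚ} : ¬ LinearIndependent ℚ x ↔
    ∃ l m : Fin r → ℚ, ∑ s, l s * m s = 1 ∧ ∀ t, ∑ s, l s * x s t = 0 := by
  rw [Fintype.linearIndependent_iff]
  push Not
  constructor
  · rintro ⟨g, hg, s, hs⟩
    refine ⟨g, Pi.single s (g s)⁻¹, ?_, fun t => ?_⟩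
    · rw [Finset.sum_eq_single s]
      · simp [hs]
      · intro b _ hb
        simp [hb]
      · simp
    · have := congrFun hg t
      simpa using this
  · rintro ⟨l, m, h1, h2⟩
    refine ⟨l, ?_, ?_⟩
    · funext t
      simpa using h2 t
    · by_contra hcon
      push Not at hcon
      simp [hcon] at h1

/-- every family of `n` vectors lies in a space of dimension `n` -/
theorem exists_compress {n m : ℕ} (x : Fin n → Fin m → ℚ) : ∃ y : Fin n → Fin n → ℚ,
    ∀ I : Set (Fin n), LinearIndepOn ℚ x I ↔ LinearIndepOn ℚ y I := by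
  set U := Submodule.span ℚ (Set.range x) with hU
  have hd : Module.finrank ℚ U ≤ n := by
    have h0 := finrank_range_le_card (R := ℚ) x
    rw [Fintype.card_fin] at h0
    exact h0
  set d := Module.finrank ℚ U with hd'
  let φ : U ≃ₗ[ℚ] (Fin d → ℚ) := LinearEquiv.ofFinrankEq U (Fin d → ℚ) (by simp [hd'])
  let ψ : (Fin d → ℚ) →ₗ[ℚ] (Fin n → ℚ) := Function.ExtendByZero.linearMap ℚ (Fin.castLE hd)
  have hψ : Function.Injective ψ := by
    intro a b hab
    funext t
    have h1 := congrFun hab (Fin.castLE hd t)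
    simp only [ψ, Function.ExtendByZero.linearMap_apply] at h1
    rwa [(Fin.castLE_injective hd).extend_apply, (Fin.castLE_injective hd).extend_apply] at h1
  let x' : Fin n → U := fun i => ⟨x i, Submodule.subset_span ⟨i, rfl⟩⟩
  refine ⟨fun i => ψ (φ (x' i)), fun I => ?_⟩
  have h1 : LinearIndepOn ℚ x I ↔ LinearIndepOn ℚ x' I :=
    LinearMap.linearIndepOn_iff_of_injOn U.subtype (v := x') (s := I)
      (Subtype.val_injective.injOn)
  have h2 : LinearIndepOn ℚ (fun i => ψ (φ (x' i))) I ↔ LinearIndepOn ℚ x' I :=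
    LinearMap.linearIndepOn_iff_of_injOn (ψ.comp φ.toLinearMap) (v := x') (s := I)
      ((hψ.comp φ.injective).injOn)
  rw [h1, h2]

/-! ### the system and representations -/

/-- The pair `I` describes the matroid `M`: the number of elements and the list of the bases. -/
def Describes (I : ℕ × List (List ℕ)) (M : Matroid (Fin I.1)) : Prop :=
  M.E = Set.univ ∧ ∀ B : Set (Fin I.1), M.IsBase B ↔ ∃ l ∈ I.2, ∀ i : Fin I.1, i ∈ B ↔ (i : ℕ) ∈ l

/-- The matroid `M` is representable over `ℚ`. -/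
def Representable {n : ℕ} (M : Matroid (Fin n)) : Prop :=
  ∃ (m : ℕ) (v : Fin n → Fin m → ℚ), ∀ J : Set (Fin n), M.Indep J ↔ LinearIndepOn ℚ v J

/-- an assignment of the variables -/
def asg (Y : ℕ → ℕ → ℚ) (W : ℕ → ℕ → ℕ → ℚ) (l μ : ℕ → ℕ → ℚ) (z : ℕ) : ℚ :=
  if u1 z = 0 then 1 else if u1 z = 1 then 0 else if u1 z = 2 then Y (u2 z) (u3 z)
  else if u1 z = 3 then W (u2 z) (u3 z) (u4 z) else if u1 z = 4 then l (u2 z) (u3 z)
  else μ (u2 z) (u3 z)

section

variable (Y : ℕ → ℕ → ℚ) (W : ℕ → ℕ → ℕ → ℚ) (l μ : ℕ → ℕ → ℚ)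

theorem asg_O : asg Y W l μ vO = 1 := by simp [asg, vO]
theorem asg_Z : asg Y W l μ vZ = 0 := by simp [asg, vZ]
theorem asg_V (i t : ℕ) : asg Y W l μ (vV i t) = Y i t := by simp [asg, vV]
theorem asg_W (k a b : ℕ) : asg Y W l μ (vW k a b) = W k a b := by simp [asg, vW]
theorem asg_L (k s : ℕ) : asg Y W l μ (vL k s) = l k s := by simp [asg, vL]
theorem asg_M (k s : ℕ) : asg Y W l μ (vM k s) = μ k s := by simp [asg, vM]

end

section

variable {I : ℕ × List (List ℕ)} {M : Matroid (Fin I.1)} (hM : Describes I M)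

include hM in
theorem indT_iff {X : List ℕ} {J : Set (Fin I.1)} (h1 : ∀ i : Fin I.1, i ∈ J ↔ (i : ℕ) ∈ X)
    (h2 : ∀ x ∈ X, x < I.1) : indT I.2 X = true ↔ M.Indep J := by
  rw [Matroid.indep_iff]
  simp only [indT, List.any_eq_true, Bool.not_eq_true', List.any_eq_false]
  constructor
  · rintro ⟨l, hl, h⟩
    refine ⟨{i | (i : ℕ) ∈ l}, (hM.2 _).2 ⟨l, hl, fun i => Iff.rfl⟩, fun i hi => ?_⟩
    have := h i ((h1 i).1 hi)
    simpa using this
  · rintro ⟨B, hB, hJB⟩
    obtain ⟨l, hl, h⟩ := (hM.2 B).1 hB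
    refine ⟨l, hl, fun x hx => ?_⟩
    have h3 : (⟨x, h2 x hx⟩ : Fin I.1) ∈ J := (h1 _).2 hx
    have h4 := (h _).1 (hJB h3)
    simpa using h4

/-- the enumeration of a set by a list -/
def enum {n : ℕ} (X : List ℕ) (h2 : ∀ x ∈ X, x < n) (s : Fin X.length) : Fin n :=
  ⟨X[s], h2 _ (List.getElem_mem _)⟩

theorem enum_injective {n : ℕ} {X : List ℕ} (h2 : ∀ x ∈ X, x < n) (h3 : X.Nodup) :
    Function.Injective (enum X h2) := by
  intro s t hst
  simp only [enum, Fin.mk.injEq] at hst
  exact Fin.ext ((List.Nodup.getElem_inj_iff h3).1 hst)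

theorem range_enum {n : ℕ} {X : List ℕ} {J : Set (Fin n)} (h1 : ∀ i : Fin n, i ∈ J ↔ (i : ℕ) ∈ X)
    (h2 : ∀ x ∈ X, x < n) : Set.range (enum X h2) = J := by
  ext i
  rw [h1, Set.mem_range]
  constructor
  · rintro ⟨s, rfl⟩
    exact List.getElem_mem _
  · intro hi
    obtain ⟨s, hs, h⟩ := List.mem_iff_getElem.1 hi
    exact ⟨⟨s, hs⟩, Fin.ext h⟩

set_option maxHeartbeats 1000000 in
include hM in
/-- The system of constraints is solvable if and only if the matroid is representable. -/
theorem repC_sat_iff : (∃ v : ℕ → ℚ, ∀ c ∈ repC I, Hc v c) ↔ Representable M := by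
  rw [repC_iff]
  constructor
  · rintro ⟨v, hO, hZ, h⟩
    refine ⟨I.1, fun i t => v (vV i t), fun J => ?_⟩
    obtain ⟨X, hX, hXJ⟩ := exists_subs (n := I.1) (fun x => ∃ hx : x < I.1, (⟨x, hx⟩ : Fin _) ∈ J)
    obtain ⟨h3, h2⟩ := subs_nodup hX
    have h1 : ∀ i : Fin I.1, i ∈ J ↔ (i : ℕ) ∈ X := by
      intro i
      rw [hXJ]
      exact ⟨fun hi => ⟨i.2, i.2, hi⟩, fun ⟨_, _, hi⟩ => hi⟩
    obtain ⟨k, hk, rfl⟩ := List.mem_iff_getElem.1 hX
    obtain ⟨hk1, hk2⟩ := h k hk
    rw [← range_enum h1 h2, linearIndepOn_range_iff (enum_injective h2 h3), range_enum h1 h2,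
      ← indT_iff hM h1 h2]
    have hget : ∀ s : Fin (subs I.1)[k].length, (subs I.1)[k].getD s 0 = (enum _ h2 s : ℕ) :=
      fun s => List.getD_eq_getElem _ _ s.2
    cases hT : indT I.2 (subs I.1)[k] with
    | true =>
      refine iff_of_true rfl ?_
      refine li_of_inv (W := fun t c => v (vW k t c)) fun b c => ?_
      have h4 := hk1 hT b b.2 c c.2
      rw [hget] at h4
      simp only [Function.comp]
      rw [h4]
      simp only [Fin.ext_iff]
    | false =>
      refine iff_of_false (by simp) ?_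
      rw [not_li_iff]
      refine ⟨fun s => v (vL k s), fun s => v (vM k s), (hk2 hT).1, fun t => ?_⟩
      have h4 := (hk2 hT).2 t t.2
      simp only [hget] at h4
      exact h4
  · rintro ⟨m, x, hx⟩
    obtain ⟨y, hy⟩ := exists_compress x
    have hxy : ∀ J : Set (Fin I.1), M.Indep J ↔ LinearIndepOn ℚ y J := fun J => by
      rw [hx, hy]
    -- certificates
    have key : ∀ k, ∃ (W : ℕ → ℕ → ℚ) (l μ : ℕ → ℚ), ∀ hk : k < (subs I.1).length,
        (indT I.2 (subs I.1)[k] = true → ∀ b < (subs I.1)[k].length,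
          ∀ c < (subs I.1)[k].length, ∑ t : Fin I.1,
          (if h : (subs I.1)[k].getD b 0 < I.1 then y ⟨(subs I.1)[k].getD b 0, h⟩ t else 0) *
            W t c = if b = c then 1 else 0) ∧
        (indT I.2 (subs I.1)[k] = false →
          ∑ s : Fin (subs I.1)[k].length, l s * μ s = 1 ∧
          ∀ b : Fin I.1, ∑ s : Fin (subs I.1)[k].length, l s *
            (if h : (subs I.1)[k].getD s 0 < I.1 then y ⟨(subs I.1)[k].getD s 0, h⟩ b
              else 0) = 0) := by
      intro k
      by_cases hk : k < (subs I.1).length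
      · obtain ⟨h3, h2⟩ := subs_nodup (List.getElem_mem hk)
        have h1 : ∀ i : Fin I.1, i ∈ {i : Fin I.1 | (i : ℕ) ∈ (subs I.1)[k]} ↔
            (i : ℕ) ∈ (subs I.1)[k] := fun i => Iff.rfl
        have hget : ∀ s : Fin (subs I.1)[k].length, (subs I.1)[k].getD s 0 = (enum _ h2 s : ℕ) :=
          fun s => List.getD_eq_getElem _ _ s.2
        have hget' : ∀ (s : Fin (subs I.1)[k].length) (t : Fin I.1),
            (if h : (subs I.1)[k].getD s 0 < I.1 then y ⟨(subs I.1)[k].getD s 0, h⟩ t else 0) =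
              y (enum _ h2 s) t := by
          intro s t
          have h4 : (subs I.1)[k].getD s 0 < I.1 := by rw [hget]; exact Fin.is_lt _
          rw [dif_pos h4]
          have h5 : (⟨(subs I.1)[k].getD s 0, h4⟩ : Fin I.1) = enum _ h2 s := Fin.ext (hget s)
          rw [h5]
        have hind : indT I.2 (subs I.1)[k] = true ↔
            LinearIndependent ℚ (y ∘ enum (subs I.1)[k] h2) := by
          rw [indT_iff hM h1 h2, hxy, ← range_enum h1 h2,
            linearIndepOn_range_iff (enum_injective h2 h3)]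
        by_cases hT : indT I.2 (subs I.1)[k] = true
        · obtain ⟨W, hW⟩ := inv_of_li (hind.1 hT)
          refine ⟨fun t c => if h : t < I.1 ∧ c < (subs I.1)[k].length then
            W ⟨t, h.1⟩ ⟨c, h.2⟩ else 0, fun _ => 0, fun _ => 0, fun _ => ⟨fun _ b hb c hc => ?_,
            fun hF => absurd hF (by simp [hT])⟩⟩
          have h5 := hW ⟨b, hb⟩ ⟨c, hc⟩
          simp only [Fin.mk.injEq] at h5
          rw [← h5]
          refine Finset.sum_congr rfl fun t _ => ?_
          have h6 := hget' ⟨b, hb⟩ t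
          simp only at h6
          rw [h6]
          simp only [Function.comp, t.2, hc, and_self, dif_pos]
        · have hF : indT I.2 (subs I.1)[k] = false := by simpa using hT
          obtain ⟨l, μ, h5, h6⟩ := not_li_iff.1 (fun h => hT (hind.2 h))
          refine ⟨fun _ _ => 0, fun s => if h : s < (subs I.1)[k].length then l ⟨s, h⟩ else 0,
            fun s => if h : s < (subs I.1)[k].length then μ ⟨s, h⟩ else 0,
            fun _ => ⟨fun hT' => absurd hT' hT, fun _ => ⟨?_, fun b => ?_⟩⟩⟩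
          · rw [← h5]
            exact Finset.sum_congr rfl fun s _ => by simp
          · have h7 := h6 b
            refine Eq.trans (Finset.sum_congr rfl fun s _ => ?_) h7
            rw [hget' s b]
            simp
      · exact ⟨fun _ _ => 0, fun _ => 0, fun _ => 0, fun h => absurd h hk⟩
    choose W l μ hkey using key
    let Y : ℕ → ℕ → ℚ := fun i t => if h : i < I.1 ∧ t < I.1 then y ⟨i, h.1⟩ ⟨t, h.2⟩ else 0
    have hY : ∀ (i : ℕ) (t : Fin I.1), Y i t = if h : i < I.1 then y ⟨i, h⟩ t else 0 := by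
      intro i t
      by_cases h : i < I.1
      · rw [dif_pos h]
        exact dif_pos (And.intro h t.2)
      · rw [dif_neg h]
        exact dif_neg (fun h' => h h'.1)
    refine ⟨asg Y W l μ, asg_O _ _ _ _, asg_Z _ _ _ _, fun k hk => ?_⟩
    obtain ⟨hk1, hk2⟩ := hkey k hk
    refine ⟨fun hT b hb c hc => ?_, fun hF => ⟨?_, fun b hb => ?_⟩⟩
    · rw [← hk1 hT b hb c hc]
      refine Finset.sum_congr rfl fun t _ => ?_
      rw [asg_V, asg_W, hY]
    · rw [← (hk2 hF).1]
      refine Finset.sum_congr rfl fun s _ => ?_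
      rw [asg_L, asg_M]
    · rw [← (hk2 hF).2 ⟨b, hb⟩]
      refine Finset.sum_congr rfl fun s _ => ?_
      rw [asg_V, asg_L, ← hY]

end

end Pool.Agent.Y336.BW
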