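import Pool.Agent.Y336.BW.Enc

/-!
# Computability of the system of constraints of a matroid
-/

set_option autoImplicit false

namespace Pool.Agent.Y336.BW

open Pool.Agent.H881R2.Mat Pool.Agent.TH588.MX

attribute [local fun_prop] Primrec
attribute [local fun_prop] prid prconst prcomp prfst prsnd prpair pradd prmul prappend prcons
  prlength prand pror prnot preq prlt prif prifeq przipIdx pr_range

section

variable {α : Type} [Primcodable α]

theorem pr_v4 {a b c d : α → ℕ} (ha : Primrec a) (hb : Primrec b) (hc : Primrec c)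
    (hd : Primrec d) : Primrec (fun x => v4 (a x) (b x) (c x) (d x)) :=
  Primrec₂.natPair.comp ha (Primrec₂.natPair.comp hb (Primrec₂.natPair.comp hc hd))

attribute [local fun_prop] pr_v4

theorem pr_vV {a b : α → ℕ} (ha : Primrec a) (hb : Primrec b) :
    Primrec (fun x => vV (a x) (b x)) := by unfold vV; fun_prop
theorem pr_vW {a b c : α → ℕ} (ha : Primrec a) (hb : Primrec b) (hc : Primrec c) :
    Primrec (fun x => vW (a x) (b x) (c x)) := by unfold vW; fun_prop
theorem pr_vL {a b : α → ℕ} (ha : Primrec a) (hb : Primrec b) :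
    Primrec (fun x => vL (a x) (b x)) := by unfold vL; fun_prop
theorem pr_vM {a b : α → ℕ} (ha : Primrec a) (hb : Primrec b) :
    Primrec (fun x => vM (a x) (b x)) := by unfold vM; fun_prop
theorem pr_vP {a b : α → ℕ} (ha : Primrec a) (hb : Primrec b) :
    Primrec (fun x => vP (a x) (b x)) := by unfold vP; fun_prop
theorem pr_vS {a b : α → ℕ} (ha : Primrec a) (hb : Primrec b) :
    Primrec (fun x => vS (a x) (b x)) := by unfold vS; fun_prop
theorem pr_pk {a : α → Cd} (ha : Primrec a) : Primrec (fun x => pk (a x)) := by
  unfold pk; fun_prop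

attribute [local fun_prop] pr_vV pr_vW pr_vL pr_vM pr_vP pr_vS pr_pk

theorem pr_dot {d c : α → ℕ} {P : α → List (ℕ × ℕ)} (hd : Primrec d) (hP : Primrec P)
    (hc : Primrec c) : Primrec (fun x => dot (d x) (P x) (c x)) := by
  unfold dot
  refine prcons (by fun_prop) (prcons (by fun_prop) (prflatMap (by fun_prop) ?_))
  fun_prop

theorem pr_subs' {n : α → ℕ} (hn : Primrec n) : Primrec (fun x => subs (n x)) := pr_subs.comp hn

theorem pr_getL {L : α → List (List ℕ)} {k : α → ℕ} (hL : Primrec L) (hk : Primrec k) :
    Primrec (fun x => (L x).getD (k x) []) := (Primrec.list_getD []).comp hL hk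

theorem pr_getN {L : α → List ℕ} {k : α → ℕ} (hL : Primrec L) (hk : Primrec k) :
    Primrec (fun x => (L x).getD (k x) 0) := (Primrec.list_getD 0).comp hL hk

attribute [local fun_prop] pr_subs' pr_getL pr_getN

theorem pr_indT {L : α → List (List ℕ)} {X : α → List ℕ} (hL : Primrec L) (hX : Primrec X) :
    Primrec (fun x => indT (L x) (X x)) := by
  unfold indT
  refine prany hL (prnot (prany (by fun_prop) (prnot ?_)))
  exact prmem (by fun_prop) (by fun_prop)

attribute [local fun_prop] pr_indT

theorem pr_items {I : α → ℕ × List (List ℕ)} (hI : Primrec I) :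
    Primrec (fun x => items (I x)) := by
  unfold items
  refine prflatMap (by fun_prop) (prif (by fun_prop) ?_ (prcons (by fun_prop) ?_))
  · refine prflatMap (by fun_prop) (prflatMap (by fun_prop) ?_)
    fun_prop
  · refine prflatMap (by fun_prop) ?_
    fun_prop

theorem pr_prs {I : α → ℕ × List (List ℕ)} {i : α → Cd} (hI : Primrec I) (hi : Primrec i) :
    Primrec (fun x => prs (I x) (i x)) := by
  unfold prs
  refine prifeq (by fun_prop) (by fun_prop) (prflatMap (by fun_prop) ?_)
    (prifeq (by fun_prop) (by fun_prop) (prflatMap (by fun_prop) ?_)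
      (prflatMap (by fun_prop) ?_))
  · fun_prop
  · fun_prop
  · fun_prop

theorem pr_cst {i : α → Cd} (hi : Primrec i) : Primrec (fun x => cst (i x)) := by
  unfold cst
  fun_prop

attribute [local fun_prop] pr_prs pr_cst

theorem pr_repC {I : α → ℕ × List (List ℕ)} (hI : Primrec I) :
    Primrec (fun x => repC (I x)) := by
  unfold repC system
  refine prcons (by fun_prop) (prcons (by fun_prop) (prflatMap (pr_items hI) ?_))
  exact pr_dot (by fun_prop) (by fun_prop) (by fun_prop)

theorem pr_toWc {C : α → List Cd} (hC : Primrec C) : Primrec (fun x => toWc (C x)) := by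
  unfold toWc
  exact Primrec.list_flatMap (przipIdx hC) (primrec_conC.comp₂
    (Primrec.fst.comp₂ Primrec₂.right) (Primrec.snd.comp₂ Primrec₂.right))

end

/-- the map of the reduction -/
def red (I : ℕ × List (List ℕ)) : ℕ × List (List ℕ) := binst (toWc (repC I))

theorem primrec_red : Primrec red :=
  primrec_binst.comp (pr_toWc (pr_repC prid))

end Pool.Agent.Y336.BW
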