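import Pool.Agent.Y336.BW.Inst

/-!
# Plane data give a solution of the system of wires
-/

set_option autoImplicit false

namespace Pool.Agent.Y336.BW

open Pool.Agent.H881R2.Mat

/-- slope -/
def sl (z : ℚ × ℚ) : ℚ := z.1 / z.2

theorem sl_smul {c : ℚ} (hc : c ≠ 0) (z : ℚ × ℚ) : sl (c • z) = sl z := by
  simp only [sl, Prod.smul_fst, Prod.smul_snd, smul_eq_mul]
  exact mul_div_mul_left _ _ hc

section

variable {G : List Gad} {hG : Distinct G} {pt : Lb → ℚ × ℚ} {off : ℕ → ℕ → ℚ × ℚ}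
  (W : WGeo (sys G hG) (blocks G).length pt off)
include W

/-- four points of a quadrangle of the list -/
theorem quad_of_mem {b : Blk} (hb : b ∈ blocks G) : ∃ k < (blocks G).length,
    (∀ i j, (sys G hG).lab k i j = sideOf b i j) ∧ ∀ i < 4, ∀ j < 4, i ≠ j →
      sl (off k j - off k i) = sl (pt (sideOf b i j)) ∧
      ∃ c : ℚ, off k j = off k i + c • pt (sideOf b i j) := by
  obtain ⟨k, hk, hlab⟩ := exists_idx hb
  refine ⟨k, hk, hlab, fun i hi j hj hij => ?_⟩
  obtain ⟨c, hc, h⟩ := W.side k hk i hi j hj hij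
  have hl : (sys G hG).lab k i j = sideOf b i j := hlab i j
  rw [hl] at h
  refine ⟨?_, c, h⟩
  rw [h, add_sub_cancel_left, sl_smul hc]

theorem mul_rel {R U V H : Lb} (hb : (lI, lO, R, H, U, V) ∈ blocks G) :
    sl (pt R) * sl (pt H) = sl (pt U) * sl (pt V) := by
  obtain ⟨k, hk, -, h⟩ := quad_of_mem W hb
  obtain ⟨-, c1, h01⟩ := h 0 (by norm_num) 1 (by norm_num) (by norm_num)
  obtain ⟨-, c2, h23⟩ := h 2 (by norm_num) 3 (by norm_num) (by norm_num)
  have h02 := (h 0 (by norm_num) 2 (by norm_num) (by norm_num)).1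
  have h13 := (h 1 (by norm_num) 3 (by norm_num) (by norm_num)).1
  have h03 := (h 0 (by norm_num) 3 (by norm_num) (by norm_num)).1
  have h12 := (h 1 (by norm_num) 2 (by norm_num) (by norm_num)).1
  simp only [sideOf] at h01 h23 h02 h13 h03 h12
  norm_num at h01 h23 h02 h13 h03 h12
  have hp : pt lI = (1, 0) := W.hp
  have hq : pt lO = (0, 1) := W.hq
  rw [hp] at h01
  rw [hq] at h23
  rw [← h02, ← h13, ← h03, ← h12]
  have e1 : (off k 1).2 = (off k 0).2 := by rw [h01]; simp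
  have e2 : (off k 3).1 = (off k 2).1 := by rw [h23]; simp
  simp only [sl, Prod.fst_sub, Prod.snd_sub, e1, e2]
  ring

theorem add_rel {X Y Z : Lb} (hb : (lI, lI, lO, Z, X, Y) ∈ blocks G) :
    sl (pt X) + sl (pt Y) = sl (pt Z) := by
  obtain ⟨k, hk, -, h⟩ := quad_of_mem W hb
  obtain ⟨-, c1, h01⟩ := h 0 (by norm_num) 1 (by norm_num) (by norm_num)
  obtain ⟨-, c2, h23⟩ := h 2 (by norm_num) 3 (by norm_num) (by norm_num)
  obtain ⟨-, c3, h02⟩ := h 0 (by norm_num) 2 (by norm_num) (by norm_num)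
  have h13 := (h 1 (by norm_num) 3 (by norm_num) (by norm_num)).1
  have h03 := (h 0 (by norm_num) 3 (by norm_num) (by norm_num)).1
  have h12 := (h 1 (by norm_num) 2 (by norm_num) (by norm_num)).1
  simp only [sideOf] at h01 h23 h02 h13 h03 h12
  norm_num at h01 h23 h02 h13 h03 h12
  have hp : pt lI = (1, 0) := W.hp
  have hq : pt lO = (0, 1) := W.hq
  rw [hp] at h01 h23
  rw [hq] at h02
  rw [← h13, ← h03, ← h12]
  have e1 : (off k 1).2 = (off k 0).2 := by rw [h01]; simp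
  have e2 : (off k 3).2 = (off k 2).2 := by rw [h23]; simp
  have e3 : (off k 2).1 = (off k 0).1 := by rw [h02]; simp
  simp only [sl, Prod.fst_sub, Prod.snd_sub, e1, e2, e3]
  ring

theorem pt_ne {b : Blk} (hb : b ∈ blocks G) {i j : ℕ} (hi : i < 4) (hj : j < 4) (hij : i ≠ j)
    (h1 : sideOf b i j ≠ lI) (h2 : sideOf b i j ≠ lO) :
    (pt (sideOf b i j)).1 ≠ 0 ∧ (pt (sideOf b i j)).2 ≠ 0 := by
  obtain ⟨k, hk, hlab, -⟩ := quad_of_mem W hb
  have h3 := W.np k hk i hi j hj hij (by rw [hlab]; exact h1)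
  have h4 := W.nq k hk i hi j hj hij (by rw [hlab]; exact h2)
  rw [hlab] at h3 h4
  exact ⟨h4, h3⟩

omit W in
theorem sl_ne_of_dt {x y : ℚ × ℚ} (hx : x.2 ≠ 0) (hy : y.2 ≠ 0) (h : dt x y ≠ 0) :
    sl x ≠ sl y := by
  intro he
  apply h
  unfold sl at he
  rw [div_eq_div_iff hx hy] at he
  unfold dt
  linarith

/-- the wires of the gadgets -/
theorem trB_data {g a : ℕ} (hb : trB g a ∈ blocks G) :
    sl (pt (lR a)) * sl (pt (lG g)) = sl (pt (lU a)) * sl (pt (lV g a)) ∧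
    sl (pt (lR a)) ≠ 0 ∧ sl (pt (lU a)) ≠ 0 ∧ sl (pt (lG g)) ≠ 0 ∧ sl (pt (lV g a)) ≠ 0 ∧
    sl (pt (lR a)) ≠ sl (pt (lU a)) ∧ (pt (lV g a)).2 ≠ 0 := by
  have hR := pt_ne W hb (i := 0) (j := 2) (by norm_num) (by norm_num) (by norm_num)
    (by simp [sideOf, trB, lR, lI]) (by simp [sideOf, trB, lR, lO])
  have hG' := pt_ne W hb (i := 1) (j := 3) (by norm_num) (by norm_num) (by norm_num)
    (by simp [sideOf, trB, lG, lI]) (by simp [sideOf, trB, lG, lO])
  have hU := pt_ne W hb (i := 0) (j := 3) (by norm_num) (by norm_num) (by norm_num)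
    (by simp [sideOf, trB, lU, lI]) (by simp [sideOf, trB, lU, lO])
  have hV := pt_ne W hb (i := 1) (j := 2) (by norm_num) (by norm_num) (by norm_num)
    (by simp [sideOf, trB, lV, lI]) (by simp [sideOf, trB, lV, lO])
  simp only [sideOf, trB] at hR hG' hU hV
  norm_num at hR hG' hU hV
  refine ⟨mul_rel W hb, div_ne_zero hR.1 hR.2, div_ne_zero hU.1 hU.2, div_ne_zero hG'.1 hG'.2,
    div_ne_zero hV.1 hV.2, ?_, hV.2⟩
  obtain ⟨k, hk, hlab, -⟩ := quad_of_mem W hb
  have h1 := W.near k hk 0 (by norm_num) 2 (by norm_num) 3 (by norm_num) (by norm_num)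
    (by norm_num) (by norm_num)
  rw [hlab, hlab] at h1
  simp only [sideOf, trB] at h1
  norm_num at h1
  exact sl_ne_of_dt hR.2 hU.2 h1

/-- Plane data give a solution. -/
theorem wsat_of_wgeo : WSat G := by
  refine ⟨fun a => sl (pt (lR a)) / sl (pt (lU a)), fun d hd => ?_⟩
  obtain ⟨g, hg⟩ := List.mem_iff_getElem?.1 hd
  obtain ⟨m, x, y, z⟩ := d
  obtain ⟨hxy, hxz, hyz⟩ := hG _ hd
  simp only at hxy hxz hyz
  have bx : trB g x ∈ blocks G := mem_blocks.2 ⟨_, g, hg, by simp [gb]⟩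
  have by' : trB g y ∈ blocks G := mem_blocks.2 ⟨_, g, hg, by simp [gb]⟩
  have bz : trB g z ∈ blocks G := mem_blocks.2 ⟨_, g, hg, by simp [gb]⟩
  obtain ⟨x1, x2, x3, x4, x5, x6, x7⟩ := trB_data W bx
  obtain ⟨y1, y2, y3, y4, y5, y6, y7⟩ := trB_data W by'
  obtain ⟨z1, z2, z3, z4, z5, z6, z7⟩ := trB_data W bz
  have ex : sl (pt (lR x)) / sl (pt (lU x)) = sl (pt (lV g x)) / sl (pt (lG g)) := by
    rw [div_eq_div_iff x3 x4]; linarith
  have ey : sl (pt (lR y)) / sl (pt (lU y)) = sl (pt (lV g y)) / sl (pt (lG g)) := by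
    rw [div_eq_div_iff y3 y4]; linarith
  have ez : sl (pt (lR z)) / sl (pt (lU z)) = sl (pt (lV g z)) / sl (pt (lG g)) := by
    rw [div_eq_div_iff z3 z4]; linarith
  have hne : sl (pt (lV g x)) ≠ sl (pt (lV g y)) := by
    obtain ⟨k, hk, hlab, -⟩ := quad_of_mem W bx
    obtain ⟨k', hk', hlab', -⟩ := quad_of_mem W by'
    have hl : ∀ k, (∀ i j, (sys G hG).lab k i j = sideOf (trB g x) i j) →
        (sys G hG).lab k 1 2 = lV g x := fun k h => by rw [h]; rfl
    have hl' : ∀ k, (∀ i j, (sys G hG).lab k i j = sideOf (trB g y) i j) →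
        (sys G hG).lab k 1 2 = lV g y := fun k h => by rw [h]; rfl
    have hVV : lV g x ≠ lV g y := by
      intro h
      simp only [lV, Prod.mk.injEq, true_and] at h
      exact hxy h
    have h1 := W.far k hk k' hk' (by
      rintro rfl
      exact hVV ((hl _ hlab).symm.trans (hl' _ hlab'))) 1 (by norm_num) 2 (by norm_num)
      1 (by norm_num) 2 (by norm_num) (by norm_num) (by norm_num)
      (by rw [hl _ hlab, hl' _ hlab']; exact hVV)
    rw [hl _ hlab, hl' _ hlab'] at h1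
    exact sl_ne_of_dt x7 y7 h1
  refine ⟨⟨div_ne_zero x2 x3, ?_⟩, ⟨div_ne_zero y2 y3, ?_⟩, ⟨div_ne_zero z2 z3, ?_⟩, ?_, ?_⟩
  · exact fun h => x6 ((div_eq_one_iff_eq x3).1 h)
  · exact fun h => y6 ((div_eq_one_iff_eq y3).1 h)
  · exact fun h => z6 ((div_eq_one_iff_eq z3).1 h)
  · simp only
    rw [ex, ey]
    intro h
    rw [div_left_inj' x4] at h
    exact hne h
  · cases m with
    | true =>
      have bm : mulB g x y z ∈ blocks G := mem_blocks.2 ⟨_, g, hg, by simp [gb]⟩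
      have h1 := mul_rel W bm
      simp only [if_true]
      rw [ex, ez, div_mul_div_comm, div_eq_div_iff (mul_ne_zero x4 y3) z4]
      linear_combination (-sl (pt (lG g))) * h1
    | false =>
      have bm : addB g x y z ∈ blocks G := mem_blocks.2 ⟨_, g, hg, by simp [gb]⟩
      have h1 := add_rel W bm
      simp only [Bool.false_eq_true, if_false]
      rw [ex, ey, ez, ← h1, add_div]

end

end Pool.Agent.Y336.BW
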