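import Pool.Agent.Y336.BW.Inst

/-!
# A solution of the system of wires gives plane data
-/

set_option autoImplicit false

namespace Pool.Agent.Y336.BW

open Pool.Agent.H881R2.Mat

/-- bounds for the values of finitely many wires -/
theorem exists_bd (w : ℕ → ℚ) (L : List ℕ) (hw : ∀ a ∈ L, w a ≠ 0) :
    ∃ N : ℕ, 1 ≤ N ∧ ∀ a ∈ L, |w a| ≤ N ∧ |w a|⁻¹ ≤ N := by
  induction L with
  | nil => exact ⟨1, le_rfl, by simp⟩
  | cons a L ih =>
    obtain ⟨N, hN, h⟩ := ih fun b hb => hw b (List.mem_cons_of_mem _ hb)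
    obtain ⟨n1, hn1⟩ := exists_nat_ge (|w a|)
    obtain ⟨n2, hn2⟩ := exists_nat_ge (|w a|⁻¹)
    refine ⟨N + n1 + n2, by omega, fun b hb => ?_⟩
    rcases List.mem_cons.1 hb with rfl | hb
    · constructor
      · push_cast
        have : (0 : ℚ) ≤ N := Nat.cast_nonneg _
        have : (0 : ℚ) ≤ n2 := Nat.cast_nonneg _
        linarith
      · push_cast
        have : (0 : ℚ) ≤ N := Nat.cast_nonneg _
        have : (0 : ℚ) ≤ n1 := Nat.cast_nonneg _
        linarith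
    · obtain ⟨h1, h2⟩ := h b hb
      have h3 : (0 : ℚ) ≤ n1 := Nat.cast_nonneg _
      have h4 : (0 : ℚ) ≤ n2 := Nat.cast_nonneg _
      push_cast
      constructor <;> linarith

/-- numbers of different scales are different -/
theorem scale_ne {N : ℕ} {u u' : ℚ} (h1 : |u| ≤ N) (h2 : |u|⁻¹ ≤ N) (h3 : |u'| ≤ N)
    (h4 : |u'|⁻¹ ≤ N) (hu : u ≠ 0) (hu' : u' ≠ 0) {s s' : ℕ} (hs : s ≠ s') :
    ((N * N + 1 : ℕ) : ℚ) ^ s * u ≠ ((N * N + 1 : ℕ) : ℚ) ^ s' * u' := by
  -- by symmetry the first exponent is smaller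
  have key : ∀ {u u' : ℚ}, |u| ≤ N → |u'|⁻¹ ≤ N → u ≠ 0 → u' ≠ 0 → ∀ {s s' : ℕ}, s < s' →
      ((N * N + 1 : ℕ) : ℚ) ^ s * u ≠ ((N * N + 1 : ℕ) : ℚ) ^ s' * u' := by
    intro u u' h1 h4 hu hu' s s' hs h
    obtain ⟨t, rfl⟩ : ∃ t, s' = s + (t + 1) := ⟨s' - s - 1, by omega⟩
    set M : ℚ := ((N * N + 1 : ℕ) : ℚ) with hM
    have hM1 : (1 : ℚ) ≤ M := by rw [hM]; exact_mod_cast Nat.le_add_left _ _
    have hM0 : M ^ s ≠ 0 := pow_ne_zero _ (by linarith)
    rw [pow_add, mul_assoc] at h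
    have h5 := mul_left_cancel₀ hM0 h
    have h6 : |u| = M ^ (t + 1) * |u'| := by
      rw [h5, abs_mul, abs_of_pos (pow_pos (by linarith) _)]
    have h7 : M ^ (t + 1) = |u| * |u'|⁻¹ := by
      rw [h6, mul_assoc, mul_inv_cancel₀ (abs_ne_zero.2 hu'), mul_one]
    have h8 : M ≤ M ^ (t + 1) := by
      calc M = M ^ 1 := (pow_one _).symm
        _ ≤ M ^ (t + 1) := pow_le_pow_right₀ hM1 (by omega)
    have h9 : |u| * |u'|⁻¹ ≤ N * N :=
      mul_le_mul h1 h4 (by positivity) (Nat.cast_nonneg _)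
    have h10 : M = (N : ℚ) * N + 1 := by rw [hM]; push_cast; ring
    linarith
  rcases lt_or_gt_of_ne hs with h | h
  · exact key h1 h4 hu hu' h
  · exact (key h3 h2 hu' hu h).symm

/-- values of the labels; the label `lI` is at infinity -/
def vl (w : ℕ → ℚ) (M : ℚ) (l : Lb) : ℚ :=
  if l.1 = 2 then M ^ (2 * l.2.1 + 1)
  else if l.1 = 3 then M ^ (2 * l.2.1 + 1) * w l.2.1
  else if l.1 = 4 then M ^ (2 * l.2.1 + 2)
  else if l.1 = 5 then M ^ (2 * l.2.1 + 2) * w l.2.2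
  else 0

/-- points of the labels -/
def ptl (w : ℕ → ℚ) (M : ℚ) (l : Lb) : ℚ × ℚ := if l = lI then (1, 0) else (vl w M l, 1)

theorem ptl_I (w : ℕ → ℚ) (M : ℚ) : ptl w M lI = (1, 0) := rfl
theorem ptl_ne {w : ℕ → ℚ} {M : ℚ} {l : Lb} (h : l ≠ lI) : ptl w M l = (vl w M l, 1) := by
  unfold ptl
  rw [if_neg h]

theorem vl_O (w : ℕ → ℚ) (M : ℚ) : vl w M lO = 0 := rfl
theorem vl_U (w : ℕ → ℚ) (M : ℚ) (a : ℕ) : vl w M (lU a) = M ^ (2 * a + 1) := rfl
theorem vl_R (w : ℕ → ℚ) (M : ℚ) (a : ℕ) : vl w M (lR a) = M ^ (2 * a + 1) * w a := rfl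
theorem vl_G (w : ℕ → ℚ) (M : ℚ) (g : ℕ) : vl w M (lG g) = M ^ (2 * g + 2) := rfl
theorem vl_V (w : ℕ → ℚ) (M : ℚ) (g a : ℕ) : vl w M (lV g a) = M ^ (2 * g + 2) * w a := rfl

/-- the wires of a list of gadgets -/
def wires (G : List Gad) : List ℕ := G.flatMap (fun d => [d.2.1, d.2.2.1, d.2.2.2])

theorem mem_wires {G : List Gad} {a : ℕ} :
    a ∈ wires G ↔ ∃ d ∈ G, a = d.2.1 ∨ a = d.2.2.1 ∨ a = d.2.2.2 := by
  simp [wires]

/-- labels which occur -/
def LOk (G : List Gad) (l : Lb) : Prop :=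
  l = lI ∨ l = lO ∨ (∃ a ∈ wires G, l = lU a ∨ l = lR a) ∨
    ∃ d g, G[g]? = some d ∧ (l = lG g ∨ ∃ a, (a = d.2.1 ∨ a = d.2.2.1 ∨ a = d.2.2.2) ∧ l = lV g a)

theorem lOk_side {G : List Gad} {b : Blk} (hb : b ∈ blocks G) (i j : ℕ) : LOk G (sideOf b i j) := by
  obtain ⟨d, g, hd, hb⟩ := mem_blocks.1 hb
  have hd' := List.mem_of_getElem? hd
  have hU : ∀ a, (a = d.2.1 ∨ a = d.2.2.1 ∨ a = d.2.2.2) → LOk G (lU a) := fun a ha =>
    Or.inr (Or.inr (Or.inl ⟨a, mem_wires.2 ⟨d, hd', ha⟩, Or.inl rfl⟩))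
  have hR : ∀ a, (a = d.2.1 ∨ a = d.2.2.1 ∨ a = d.2.2.2) → LOk G (lR a) := fun a ha =>
    Or.inr (Or.inr (Or.inl ⟨a, mem_wires.2 ⟨d, hd', ha⟩, Or.inr rfl⟩))
  have hGg : LOk G (lG g) := Or.inr (Or.inr (Or.inr ⟨d, g, hd, Or.inl rfl⟩))
  have hV : ∀ a, (a = d.2.1 ∨ a = d.2.2.1 ∨ a = d.2.2.2) → LOk G (lV g a) := fun a ha =>
    Or.inr (Or.inr (Or.inr ⟨d, g, hd, Or.inr ⟨a, ha, rfl⟩⟩))
  have hI : LOk G lI := Or.inl rfl
  have hO : LOk G lO := Or.inr (Or.inl rfl)
  have key : ∀ {a b c d e f : Lb}, LOk G a → LOk G b → LOk G c → LOk G d → LOk G e → LOk G f →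
      LOk G (sideOf (a, b, c, d, e, f) i j) := by
    intro a b c d e f h1 h2 h3 h4 h5 h6
    unfold sideOf
    split_ifs <;> assumption
  simp only [gb, List.mem_cons, List.not_mem_nil, or_false] at hb
  have ax : d.2.1 = d.2.1 ∨ d.2.1 = d.2.2.1 ∨ d.2.1 = d.2.2.2 := Or.inl rfl
  have ay : d.2.2.1 = d.2.1 ∨ d.2.2.1 = d.2.2.1 ∨ d.2.2.1 = d.2.2.2 := Or.inr (Or.inl rfl)
  have az : d.2.2.2 = d.2.1 ∨ d.2.2.2 = d.2.2.1 ∨ d.2.2.2 = d.2.2.2 := Or.inr (Or.inr rfl)
  rcases hb with rfl | rfl | rfl | rfl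
  · exact key hI hO (hR _ ax) hGg (hU _ ax) (hV _ ax)
  · exact key hI hO (hR _ ay) hGg (hU _ ay) (hV _ ay)
  · exact key hI hO (hR _ az) hGg (hU _ az) (hV _ az)
  · split_ifs
    · exact key hI hO (hV _ az) (hU _ ay) (hV _ ax) (hR _ ay)
    · exact key hI hI hO (hV _ az) (hV _ ax) (hV _ ay)

/-- the values of different labels are different -/
theorem vl_inj {G : List Gad} {w : ℕ → ℚ} (hw : ∀ d ∈ G, GOk w d) (hD : Distinct G) {N : ℕ}
    (hN : 1 ≤ N) (hb : ∀ a ∈ wires G, |w a| ≤ N ∧ |w a|⁻¹ ≤ N) {l m : Lb} (hl : LOk G l)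
    (hm : LOk G m) (hlI : l ≠ lI) (hmI : m ≠ lI) (hlm : l ≠ m) :
    vl w ((N * N + 1 : ℕ) : ℚ) l ≠ vl w ((N * N + 1 : ℕ) : ℚ) m := by
  have hM0 : ((N * N + 1 : ℕ) : ℚ) ≠ 0 := by positivity
  have hw01 : ∀ a ∈ wires G, w a ≠ 0 ∧ w a ≠ 1 := by
    intro a ha
    obtain ⟨d, hd, h⟩ := mem_wires.1 ha
    obtain ⟨h1, h2, h3, -⟩ := hw d hd
    rcases h with rfl | rfl | rfl
    · exact h1
    · exact h2
    · exact h3
  -- classification of the labels
  have cls : ∀ {l : Lb}, LOk G l → l ≠ lI → l = lO ∨ ∃ s u, (u = 1 ∨ ∃ a ∈ wires G, u = w a) ∧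
      vl w ((N * N + 1 : ℕ) : ℚ) l = ((N * N + 1 : ℕ) : ℚ) ^ s * u ∧
      ((∃ a, s = 2 * a + 1 ∧ ((l = lU a ∧ u = 1) ∨ (l = lR a ∧ u = w a))) ∨
       (∃ d g, G[g]? = some d ∧ s = 2 * g + 2 ∧ ((l = lG g ∧ u = 1) ∨
          ∃ a, (a = d.2.1 ∨ a = d.2.2.1 ∨ a = d.2.2.2) ∧ l = lV g a ∧ u = w a))) := by
    intro l hl hlI
    rcases hl with hl | hl | ⟨a, ha, rfl | rfl⟩ | ⟨d, g, hd, rfl | ⟨a, ha, rfl⟩⟩
    · exact absurd hl hlI
    · exact Or.inl hl
    · exact Or.inr ⟨2 * a + 1, 1, Or.inl rfl, by rw [vl_U, mul_one], Or.inl ⟨a, rfl, Or.inl ⟨rfl, rfl⟩⟩⟩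
    · exact Or.inr ⟨2 * a + 1, w a, Or.inr ⟨a, ha, rfl⟩, vl_R _ _ _,
        Or.inl ⟨a, rfl, Or.inr ⟨rfl, rfl⟩⟩⟩
    · exact Or.inr ⟨2 * g + 2, 1, Or.inl rfl, by rw [vl_G, mul_one],
        Or.inr ⟨d, g, hd, rfl, Or.inl ⟨rfl, rfl⟩⟩⟩
    · exact Or.inr ⟨2 * g + 2, w a, Or.inr ⟨a, mem_wires.2 ⟨d, List.mem_of_getElem? hd, ha⟩, rfl⟩,
        vl_V _ _ _ _, Or.inr ⟨d, g, hd, rfl, Or.inr ⟨a, ha, rfl, rfl⟩⟩⟩
  have hN1 : (1 : ℚ) ≤ N := by exact_mod_cast hN
  have ub : ∀ {u : ℚ}, (u = 1 ∨ ∃ a ∈ wires G, u = w a) → u ≠ 0 ∧ |u| ≤ N ∧ |u|⁻¹ ≤ N := by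
    rintro u (rfl | ⟨a, ha, rfl⟩)
    · simp [hN1]
    · exact ⟨(hw01 a ha).1, hb a ha⟩
  rcases cls hl hlI with rfl | ⟨s, u, hu, hv, hc⟩
  · rcases cls hm hmI with rfl | ⟨s', u', hu', hv', -⟩
    · exact absurd rfl hlm
    · rw [vl_O, hv']
      exact (mul_ne_zero (pow_ne_zero _ hM0) (ub hu').1).symm
  · rcases cls hm hmI with rfl | ⟨s', u', hu', hv', hc'⟩
    · rw [vl_O, hv]
      exact mul_ne_zero (pow_ne_zero _ hM0) (ub hu).1
    · rw [hv, hv']
      by_cases hss : s = s'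
      · subst hss
        intro h
        have huu := mul_left_cancel₀ (pow_ne_zero _ hM0) h
        rcases hc with ⟨a, hs, hc⟩ | ⟨d, g, hd, hs, hc⟩
        · rcases hc' with ⟨a', hs', hc'⟩ | ⟨d', g', hd', hs', hc'⟩
          · have : a = a' := by omega
            subst this
            rcases hc with ⟨h1, h2⟩ | ⟨h1, h2⟩ <;> rcases hc' with ⟨h1', h2'⟩ | ⟨h1', h2'⟩
            · exact hlm (h1.trans h1'.symm)
            · have ha : a ∈ wires G := by
                rw [h1'] at hm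
                rcases hm with hm | hm | ⟨b, hb, hm | hm⟩ | ⟨d, g, hd, hm | ⟨b, hb, hm⟩⟩
                · simp [lR, lI] at hm
                · simp [lR, lO] at hm
                · simp [lR, lU] at hm
                · simp only [lR, Prod.mk.injEq, true_and, and_true] at hm
                  rwa [hm]
                · simp [lR, lG] at hm
                · simp [lR, lV] at hm
              exact (hw01 a ha).2 (by rw [← h2', ← huu, h2])
            · have ha : a ∈ wires G := by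
                rw [h1] at hl
                rcases hl with hm | hm | ⟨b, hb, hm | hm⟩ | ⟨d, g, hd, hm | ⟨b, hb, hm⟩⟩
                · simp [lR, lI] at hm
                · simp [lR, lO] at hm
                · simp [lR, lU] at hm
                · simp only [lR, Prod.mk.injEq, true_and, and_true] at hm
                  rwa [hm]
                · simp [lR, lG] at hm
                · simp [lR, lV] at hm
              exact (hw01 a ha).2 (by rw [← h2, huu, h2'])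
            · exact hlm (h1.trans h1'.symm)
          · omega
        · rcases hc' with ⟨a', hs', hc'⟩ | ⟨d', g', hd', hs', hc'⟩
          · omega
          · have : g = g' := by omega
            subst this
            rw [hd] at hd'
            simp only [Option.some.injEq] at hd'
            subst hd'
            have hdm := List.mem_of_getElem? hd
            rcases hc with ⟨h1, h2⟩ | ⟨a, ha, h1, h2⟩ <;>
              rcases hc' with ⟨h1', h2'⟩ | ⟨a', ha', h1', h2'⟩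
            · exact hlm (h1.trans h1'.symm)
            · exact (hw01 a' (mem_wires.2 ⟨d, hdm, ha'⟩)).2 (by rw [← h2', ← huu, h2])
            · exact (hw01 a (mem_wires.2 ⟨d, hdm, ha⟩)).2 (by rw [← h2, huu, h2'])
            · have haa : a ≠ a' := fun h => hlm (by rw [h1, h1', h])
              have hww : w a = w a' := by rw [← h2, ← h2', huu]
              obtain ⟨g1, g2, g3, g4, g5⟩ := hw d hdm
              obtain ⟨d1, d2, d3⟩ := hD d hdm
              have hxz : w d.2.1 ≠ w d.2.2.2 := by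
                intro h
                by_cases hm : d.1 = true
                · rw [if_pos hm, ← h] at g5
                  exact g2.2 (mul_left_cancel₀ g1.1 (by rw [g5, mul_one]))
                · rw [if_neg hm, ← h] at g5
                  exact g2.1 (by linarith)
              have hyz : w d.2.2.1 ≠ w d.2.2.2 := by
                intro h
                by_cases hm : d.1 = true
                · rw [if_pos hm, ← h] at g5
                  exact g1.2 (mul_right_cancel₀ g2.1 (by rw [g5, one_mul]))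
                · rw [if_neg hm, ← h] at g5
                  exact g1.1 (by linarith)
              rcases ha with rfl | rfl | rfl <;> rcases ha' with rfl | rfl | rfl
              · exact haa rfl
              · exact g4 hww
              · exact hxz hww
              · exact g4 hww.symm
              · exact haa rfl
              · exact hyz hww
              · exact hxz hww.symm
              · exact hyz hww.symm
              · exact haa rfl
      · obtain ⟨a1, a2, a3⟩ := ub hu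
        obtain ⟨b1, b2, b3⟩ := ub hu'
        exact scale_ne a2 a3 b2 b3 a1 b1 hss

/-- positions of the vertices of a quadrangle -/
def Pos (b : Blk) (pt : Lb → ℚ × ℚ) (o : ℕ → ℚ × ℚ) : Prop :=
  ∀ i < 4, ∀ j < 4, i ≠ j → ∃ c : ℚ, c ≠ 0 ∧ o j = o i + c • pt (sideOf b i j)

theorem pos_of_lt {b : Blk} {pt : Lb → ℚ × ℚ} {o : ℕ → ℚ × ℚ}
    (h : ∀ i < 4, ∀ j < 4, i < j → ∃ c : ℚ, c ≠ 0 ∧ o j = o i + c • pt (sideOf b i j)) :
    Pos b pt o := by
  intro i hi j hj hij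
  rcases lt_or_gt_of_ne hij with h1 | h1
  · exact h i hi j hj h1
  · obtain ⟨c, hc, h2⟩ := h j hj i hi h1
    refine ⟨-c, neg_ne_zero.2 hc, ?_⟩
    rw [h2, sideOf_symm b i j]
    simp

/-- the quadrangle of a proportion -/
theorem pos_mul {pt : Lb → ℚ × ℚ} {R H U V : Lb} (hI : pt lI = (1, 0)) (hO : pt lO = (0, 1))
    {r h u v : ℚ} (hR : pt R = (r, 1)) (hH : pt H = (h, 1)) (hU : pt U = (u, 1))
    (hV : pt V = (v, 1)) (hr : r ≠ 0) (hu : u ≠ 0) (hru : r ≠ u) (hrv : r ≠ v)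
    (hrel : r * h = u * v) : ∃ o, Pos (lI, lO, R, H, U, V) pt o := by
  let o : ℕ → ℚ × ℚ := fun i => if i = 0 then (0, 0) else if i = 1 then (1 - v / r, 0)
    else if i = 2 then (1, 1 / r) else (1, 1 / u)
  have o0 : o 0 = (0, 0) := rfl
  have o1 : o 1 = (1 - v / r, 0) := rfl
  have o2 : o 2 = (1, 1 / r) := rfl
  have o3 : o 3 = (1, 1 / u) := rfl
  refine ⟨o, pos_of_lt ?_⟩
  intro i hi j hj hij
  interval_cases j <;> interval_cases i <;> try omega
  · refine ⟨1 - v / r, ?_, ?_⟩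
    · intro h0
      have : v / r = 1 := by linarith
      exact hrv ((div_eq_one_iff_eq hr).1 this).symm
    · have : sideOf (lI, lO, R, H, U, V) 0 1 = lI := rfl
      rw [this, o0, o1, hI]
      ext <;> simp
  · refine ⟨1 / r, one_div_ne_zero hr, ?_⟩
    have : sideOf (lI, lO, R, H, U, V) 0 2 = R := rfl
    rw [this, o0, o2, hR]
    ext
    · simp [hr]
    · simp
  · refine ⟨1 / r, one_div_ne_zero hr, ?_⟩
    have : sideOf (lI, lO, R, H, U, V) 1 2 = V := rfl
    rw [this, o1, o2, hV]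
    ext
    · simp only [Prod.fst_add, Prod.smul_fst, smul_eq_mul]
      field_simp
      ring
    · simp
  · refine ⟨1 / u, one_div_ne_zero hu, ?_⟩
    have : sideOf (lI, lO, R, H, U, V) 0 3 = U := rfl
    rw [this, o0, o3, hU]
    ext
    · simp [hu]
    · simp
  · refine ⟨1 / u, one_div_ne_zero hu, ?_⟩
    have : sideOf (lI, lO, R, H, U, V) 1 3 = H := rfl
    rw [this, o1, o3, hH]
    ext
    · simp only [Prod.fst_add, Prod.smul_fst, smul_eq_mul]
      field_simp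
      linarith
    · simp
  · refine ⟨1 / u - 1 / r, ?_, ?_⟩
    · intro h0
      have : 1 / u = 1 / r := by linarith
      rw [one_div, one_div, inv_inj] at this
      exact hru this.symm
    · have : sideOf (lI, lO, R, H, U, V) 2 3 = lO := rfl
      rw [this, o2, o3, hO]
      ext <;> simp

/-- the quadrangle of a sum -/
theorem pos_add {pt : Lb → ℚ × ℚ} {X Y Z : Lb} (hI : pt lI = (1, 0)) (hO : pt lO = (0, 1))
    {x y z : ℚ} (hX : pt X = (x, 1)) (hY : pt Y = (y, 1)) (hZ : pt Z = (z, 1)) (hx : x ≠ 0)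
    (hy : y ≠ 0) (hrel : x + y = z) : ∃ o, Pos (lI, lI, lO, Z, X, Y) pt o := by
  let o : ℕ → ℚ × ℚ := fun i => if i = 0 then (0, 0) else if i = 1 then (-y, 0)
    else if i = 2 then (0, 1) else (x, 1)
  have o0 : o 0 = (0, 0) := rfl
  have o1 : o 1 = (-y, 0) := rfl
  have o2 : o 2 = (0, 1) := rfl
  have o3 : o 3 = (x, 1) := rfl
  refine ⟨o, pos_of_lt ?_⟩
  intro i hi j hj hij
  interval_cases j <;> interval_cases i <;> try omega
  · refine ⟨-y, neg_ne_zero.2 hy, ?_⟩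
    have : sideOf (lI, lI, lO, Z, X, Y) 0 1 = lI := rfl
    rw [this, o0, o1, hI]
    ext <;> simp
  · refine ⟨1, one_ne_zero, ?_⟩
    have : sideOf (lI, lI, lO, Z, X, Y) 0 2 = lO := rfl
    rw [this, o0, o2, hO]
    ext <;> simp
  · refine ⟨1, one_ne_zero, ?_⟩
    have : sideOf (lI, lI, lO, Z, X, Y) 1 2 = Y := rfl
    rw [this, o1, o2, hY]
    ext <;> simp
  · refine ⟨1, one_ne_zero, ?_⟩
    have : sideOf (lI, lI, lO, Z, X, Y) 0 3 = X := rfl
    rw [this, o0, o3, hX]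
    ext <;> simp
  · refine ⟨1, one_ne_zero, ?_⟩
    have : sideOf (lI, lI, lO, Z, X, Y) 1 3 = Z := rfl
    rw [this, o1, o3, hZ, ← hrel]
    ext
    · simp
    · simp
  · refine ⟨x, hx, ?_⟩
    have : sideOf (lI, lI, lO, Z, X, Y) 2 3 = lI := rfl
    rw [this, o2, o3, hI]
    ext <;> simp

/-- A solution of the system of wires gives plane data. -/
theorem geo_of_wsat {G : List Gad} (hG : Distinct G) (hW : WSat G) :
    ∃ pt off, Geo (sys G hG) (blocks G).length pt off := by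
  obtain ⟨w, hw⟩ := hW
  have hw0 : ∀ a ∈ wires G, w a ≠ 0 := by
    intro a ha
    obtain ⟨d, hd, h⟩ := mem_wires.1 ha
    obtain ⟨h1, h2, h3, -⟩ := hw d hd
    rcases h with rfl | rfl | rfl
    · exact h1.1
    · exact h2.1
    · exact h3.1
  obtain ⟨N, hN, hb⟩ := exists_bd w (wires G) hw0
  set M : ℚ := ((N * N + 1 : ℕ) : ℚ) with hM
  have hM0 : M ≠ 0 := by rw [hM]; positivity
  set pt := ptl w M with hpt
  have hI : pt lI = (1, 0) := ptl_I _ _
  have hO : pt lO = (0, 1) := by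
    rw [hpt, ptl_ne (by simp [lO, lI]), vl_O]
  have inj := fun {l m : Lb} => vl_inj (l := l) (m := m) hw hG hN hb
  rw [← hM] at inj
  have hU : ∀ a, pt (lU a) = (vl w M (lU a), 1) := fun a => ptl_ne (by simp [lU, lI])
  have hR : ∀ a, pt (lR a) = (vl w M (lR a), 1) := fun a => ptl_ne (by simp [lR, lI])
  have hGg : ∀ a, pt (lG a) = (vl w M (lG a), 1) := fun a => ptl_ne (by simp [lG, lI])
  have hV : ∀ g a, pt (lV g a) = (vl w M (lV g a), 1) := fun g a => ptl_ne (by simp [lV, lI])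
  -- positions of the vertices
  have hpos : ∀ b ∈ blocks G, ∃ o, Pos b pt o := by
    intro b hb'
    have hLO := fun i j => lOk_side hb' i j
    obtain ⟨d, g, hd, hbd⟩ := mem_blocks.1 hb'
    have hdm := List.mem_of_getElem? hd
    have htr : ∀ a, (a = d.2.1 ∨ a = d.2.2.1 ∨ a = d.2.2.2) → ∃ o, Pos (trB g a) pt o := by
      intro a ha
      have hbt : trB g a ∈ blocks G := by
        refine mem_blocks.2 ⟨d, g, hd, ?_⟩
        rcases ha with rfl | rfl | rfl <;> simp [gb]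
      have haw : a ∈ wires G := mem_wires.2 ⟨d, hdm, ha⟩
      have l1 : LOk G (lR a) := lOk_side hbt 0 2
      have l2 : LOk G (lU a) := lOk_side hbt 0 3
      have l3 : LOk G (lV g a) := lOk_side hbt 1 2
      refine pos_mul hI hO (hR a) (hGg g) (hU a) (hV g a) ?_ ?_ ?_ ?_ ?_
      · rw [vl_R]; exact mul_ne_zero (pow_ne_zero _ hM0) (hw0 a haw)
      · rw [vl_U]; exact pow_ne_zero _ hM0
      · exact inj l1 l2 (by simp [lR, lI]) (by simp [lU, lI]) (by simp [lR, lU])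
      · exact inj l1 l3 (by simp [lR, lI]) (by simp [lV, lI]) (by simp [lR, lV])
      · rw [vl_R, vl_G, vl_U, vl_V]; ring
    simp only [gb, List.mem_cons, List.not_mem_nil, or_false] at hbd
    rcases hbd with rfl | rfl | rfl | hbd
    · exact htr _ (Or.inl rfl)
    · exact htr _ (Or.inr (Or.inl rfl))
    · exact htr _ (Or.inr (Or.inr rfl))
    · obtain ⟨g1, g2, g3, g4, g5⟩ := hw d hdm
      by_cases hm : d.1 = true
      · rw [if_pos hm] at hbd g5
        subst hbd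
        have l1 : LOk G (lV g d.2.2.2) := hLO 0 2
        have l2 : LOk G (lV g d.2.1) := hLO 0 3
        have l3 : LOk G (lR d.2.2.1) := hLO 1 2
        obtain ⟨d1, d2, d3⟩ := hG d hdm
        refine pos_mul hI hO (hV g d.2.2.2) (hU d.2.2.1) (hV g d.2.1) (hR d.2.2.1) ?_ ?_ ?_ ?_ ?_
        · rw [vl_V]; exact mul_ne_zero (pow_ne_zero _ hM0) g3.1
        · rw [vl_V]; exact mul_ne_zero (pow_ne_zero _ hM0) g1.1
        · exact inj l1 l2 (by simp [lV, lI]) (by simp [lV, lI]) (by simpa [lV] using d2.symm)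
        · exact inj l1 l3 (by simp [lV, lI]) (by simp [lR, lI]) (by simp [lR, lV])
        · rw [vl_V, vl_U, vl_V, vl_R, ← g5]; ring
      · rw [if_neg hm] at hbd g5
        subst hbd
        refine pos_add hI hO (hV g d.2.1) (hV g d.2.2.1) (hV g d.2.2.2) ?_ ?_ ?_
        · rw [vl_V]; exact mul_ne_zero (pow_ne_zero _ hM0) g1.1
        · rw [vl_V]; exact mul_ne_zero (pow_ne_zero _ hM0) g2.1
        · rw [vl_V, vl_V, vl_V, ← g5]; ring
  have hpos' : ∀ k, ∃ o, k < (blocks G).length → Pos ((blocks G).getD k dflt) pt o := by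
    intro k
    by_cases hk : k < (blocks G).length
    · obtain ⟨o, ho⟩ := hpos _ (List.getElem_mem hk)
      refine ⟨o, fun _ => ?_⟩
      rwa [List.getD_eq_getElem _ _ hk]
    · exact ⟨fun _ => 0, fun h => absurd h hk⟩
  choose off hoff using hpos'
  have hused : ∀ l, Used (sys G hG) (blocks G).length l → LOk G l := by
    rintro l (rfl | rfl | ⟨k, hk, i, hi, j, hj, hij, rfl⟩)
    · exact Or.inl rfl
    · exact Or.inr (Or.inl rfl)
    · show LOk G (labF G k i j)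
      rw [labF_eq hk]
      exact lOk_side (List.getElem_mem hk) i j
  refine ⟨pt, off, hI, hO, ?_, fun k hk => hoff k hk⟩
  intro l m hl hm hlm
  have hl' := hused l hl
  have hm' := hused m hm
  by_cases h1 : l = lI
  · rw [h1, hI, hpt, ptl_ne (fun h2 => hlm (h1.trans h2.symm))]
    simp [dt]
  · by_cases h2 : m = lI
    · rw [h2, hI, hpt, ptl_ne h1]
      simp [dt]
    · rw [hpt, ptl_ne h1, ptl_ne h2]
      have := inj hl' hm' h1 h2 hlm
      simp only [dt, mul_one, one_mul]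
      exact sub_ne_zero.2 this

end Pool.Agent.Y336.BW
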