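import Pool.Agent.Y336.BW.Lin

/-!
# Plane data giving a representation of the matroid of a system of quadrangles
-/

set_option autoImplicit false

namespace Pool.Agent.Y336.BW

/-- determinant of two vectors of the plane -/
def dt (x y : ℚ × ℚ) : ℚ := x.1 * y.2 - x.2 * y.1

section

variable {Λ : Type*} [DecidableEq Λ]

/-- the labels of the points `p`, `q` and of the sides of the first `K` quadrangles -/
def Used (S : Sys Λ) (K : ℕ) (l : Λ) : Prop :=
  l = S.p ∨ l = S.q ∨ ∃ k < K, ∃ i < 4, ∃ j < 4, i ≠ j ∧ S.lab k i j = l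

/-- Plane data: a point `pt l` of the line for each label and a vector `off k i` for each vertex,
such that the difference of the vectors of two vertices of a quadrangle is a multiple of the point
of the side. -/
structure Geo (S : Sys Λ) (K : ℕ) (pt : Λ → ℚ × ℚ) (off : ℕ → ℕ → ℚ × ℚ) : Prop where
  hp : pt S.p = (1, 0)
  hq : pt S.q = (0, 1)
  inj : ∀ l m, Used S K l → Used S K m → l ≠ m → dt (pt l) (pt m) ≠ 0
  side : ∀ k < K, ∀ i < 4, ∀ j < 4, i ≠ j →
    ∃ c : ℚ, c ≠ 0 ∧ off k j = off k i + c • pt (S.lab k i j)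

/-- embedding of the plane of the line -/
def pl : ℚ × ℚ →ₗ[ℚ] (ℕ → ℚ) where
  toFun z := fun t => if t = 0 then z.1 else if t = 1 then z.2 else 0
  map_add' x y := by
    funext t
    simp only [Pi.add_apply, Prod.fst_add, Prod.snd_add]
    split_ifs <;> simp
  map_smul' c x := by
    funext t
    simp only [Pi.smul_apply, Prod.smul_fst, Prod.smul_snd, RingHom.id_apply, smul_eq_mul]
    split_ifs <;> simp

/-- the unit vector of a quadrangle -/
def uv (k : ℕ) : ℕ → ℚ := fun t => if t = k + 2 then 1 else 0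

/-- the vectors of the elements -/
def vec (off : ℕ → ℕ → ℚ × ℚ) (e : ℕ) : ℕ → ℚ :=
  if e = 0 then pl (1, 0) else if e = 1 then pl (0, 1) else pl (off (blk e) (vtx e)) + uv (blk e)

theorem vec_zero (off : ℕ → ℕ → ℚ × ℚ) : vec off 0 = pl (1, 0) := rfl
theorem vec_one (off : ℕ → ℕ → ℚ × ℚ) : vec off 1 = pl (0, 1) := rfl
theorem vec_of_two_le (off : ℕ → ℕ → ℚ × ℚ) {e : ℕ} (h : 2 ≤ e) :
    vec off e = pl (off (blk e) (vtx e)) + uv (blk e) := by
  unfold vec
  rw [if_neg (by omega), if_neg (by omega)]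

theorem blk_lt {K : ℕ} {e : ℕ} (h2 : 2 ≤ e) (h : e < 2 + 4 * K) : blk e < K := by
  unfold blk
  omega

variable {S : Sys Λ} {K : ℕ} {pt : Λ → ℚ × ℚ} {off : ℕ → ℕ → ℚ × ℚ}

theorem used_of_mem {X : Finset (Fin (2 + 4 * K))} {l : Λ} (h : l ∈ labsOf S X) :
    Used S K l := by
  obtain ⟨e, he, f, hf, hl⟩ := (mem_labsOf S).1 h
  by_cases hef : (e : ℕ) = f
  · unfold lam at hl
    rw [if_pos hef] at hl
    split_ifs at hl with h1 h2
    · exact Or.inl (by simpa using hl.symm)
    · exact Or.inr (Or.inl (by simpa using hl.symm))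
  · obtain ⟨h1, h2, h3, h4⟩ := lam_eq_some_off S hef hl
    refine Or.inr (Or.inr ⟨blk e, blk_lt h1 e.2, vtx e, vtx_lt _, vtx f, vtx_lt _, ?_, h4⟩)
    exact fun h => hef (ext_bv h1 h2 h3 h)

section

variable (G : Geo S K pt off)
include G

/-- the vectors of two vertices of a quadrangle -/
theorem vec_side {e f : ℕ} (he : 2 ≤ e) (hf : 2 ≤ f) (hK : blk e < K) (hef : e ≠ f)
    (hb : blk e = blk f) : ∃ c : ℚ, c ≠ 0 ∧
      vec off f = vec off e + c • pl (pt (S.lab (blk e) (vtx e) (vtx f))) := by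
  obtain ⟨c, hc, h⟩ := G.side (blk e) hK (vtx e) (vtx_lt _) (vtx f) (vtx_lt _)
    (fun h => hef (ext_bv he hf hb h))
  refine ⟨c, hc, ?_⟩
  rw [vec_of_two_le off hf, vec_of_two_le off he, ← hb, h, map_add, map_smul]
  abel

/-- the points of the labels of a set are in the span -/
theorem pt_mem_span {X : Finset (Fin (2 + 4 * K))} {l : Λ} (h : l ∈ labsOf S X) :
    pl (pt l) ∈ Submodule.span ℚ ((fun x : Fin (2 + 4 * K) => vec off x) '' (X : Set _)) := by
  obtain ⟨e, he, f, hf, hl⟩ := (mem_labsOf S).1 h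
  by_cases hef : (e : ℕ) = f
  · unfold lam at hl
    rw [if_pos hef] at hl
    split_ifs at hl with h1 h2
    · refine Submodule.subset_span ⟨e, he, ?_⟩
      simp only [Option.some.injEq] at hl
      simp only [h1, vec_zero, ← hl, G.hp]
    · refine Submodule.subset_span ⟨e, he, ?_⟩
      simp only [Option.some.injEq] at hl
      simp only [h2, vec_one, ← hl, G.hq]
  · obtain ⟨h1, h2, h3, h4⟩ := lam_eq_some_off S hef hl
    obtain ⟨c, hc, h5⟩ := vec_side G h1 h2 (blk_lt h1 e.2) hef h3
    rw [h4] at h5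
    have h6 : pl (pt l) = c⁻¹ • (vec off f - vec off e) := by
      rw [h5, add_sub_cancel_left, smul_smul, inv_mul_cancel₀ hc, one_smul]
    rw [h6]
    exact Submodule.smul_mem _ _ (Submodule.sub_mem _ (Submodule.subset_span ⟨f, hf, rfl⟩)
      (Submodule.subset_span ⟨e, he, rfl⟩))

/-- with two labels the whole plane is in the span -/
theorem pl_mem_span {X : Finset (Fin (2 + 4 * K))} (h : 2 ≤ (labsOf S X).card) (z : ℚ × ℚ) :
    pl z ∈ Submodule.span ℚ ((fun x : Fin (2 + 4 * K) => vec off x) '' (X : Set _)) := by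
  obtain ⟨l, hl, m, hm, hlm⟩ := Finset.one_lt_card.1 (by omega : 1 < (labsOf S X).card)
  have h1 := G.inj l m (used_of_mem hl) (used_of_mem hm) hlm
  have h2 : pl z = (dt z (pt m) / dt (pt l) (pt m)) • pl (pt l) +
      (dt (pt l) z / dt (pt l) (pt m)) • pl (pt m) := by
    rw [← map_smul, ← map_smul, ← map_add]
    congr 1
    unfold dt at h1 ⊢
    ext
    · simp only [Prod.fst_add, Prod.smul_fst, smul_eq_mul]
      rw [div_mul_eq_mul_div, div_mul_eq_mul_div, ← add_div, eq_div_iff h1]
      ring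
    · simp only [Prod.snd_add, Prod.smul_snd, smul_eq_mul]
      rw [div_mul_eq_mul_div, div_mul_eq_mul_div, ← add_div, eq_div_iff h1]
      ring
  rw [h2]
  exact Submodule.add_mem _ (Submodule.smul_mem _ _ (pt_mem_span G hl))
    (Submodule.smul_mem _ _ (pt_mem_span G hm))

theorem mem_span_of_rk {X : Finset (Fin (2 + 4 * K))} {e : Fin (2 + 4 * K)}
    (h : rk S (insert e X) = rk S X) :
    vec off e ∈ Submodule.span ℚ ((fun x : Fin (2 + 4 * K) => vec off x) '' (X : Set _)) := by
  by_cases heX : e ∈ X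
  · exact Submodule.subset_span ⟨e, heX, rfl⟩
  unfold rk at h
  have h1 := touched_mono (Finset.subset_insert e X)
  have h2 := labsOf_mono S (Finset.subset_insert e X)
  have h3 := Finset.card_le_card h1
  have h4 := Finset.card_le_card h2
  have h5 : touched X = touched (insert e X) := Finset.eq_of_subset_of_card_le h1 (by omega)
  by_cases he : 2 ≤ (e : ℕ)
  · have h6 : blk e ∈ touched X := by
      rw [h5]
      exact mem_touched.2 ⟨e, Finset.mem_insert_self _ _, he, rfl⟩
    obtain ⟨f, hf, hf2, hfb⟩ := mem_touched.1 h6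
    have hfe : (f : ℕ) ≠ e := fun h => heX (by rwa [← Fin.ext h])
    obtain ⟨c, hc, h7⟩ := vec_side G hf2 he (blk_lt hf2 f.2) hfe hfb
    rw [h7]
    refine Submodule.add_mem _ (Submodule.subset_span ⟨f, hf, rfl⟩) (Submodule.smul_mem _ _ ?_)
    by_cases hc2 : 2 ≤ (labsOf S X).card
    · exact pl_mem_span G hc2 _
    · have h8 : labsOf S X = labsOf S (insert e X) :=
        Finset.eq_of_subset_of_card_le h2 (by omega)
      apply pt_mem_span G
      rw [h8]
      exact (mem_labsOf S).2 ⟨f, Finset.mem_insert_of_mem hf, e, Finset.mem_insert_self _ _,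
        lam_off S hf2 he hfe hfb⟩
  · by_cases hc2 : 2 ≤ (labsOf S X).card
    · have h01 : (e : ℕ) = 0 ∨ (e : ℕ) = 1 := by omega
      rcases h01 with h0 | h0
      · rw [h0, vec_zero]
        exact pl_mem_span G hc2 _
      · rw [h0, vec_one]
        exact pl_mem_span G hc2 _
    · have h8 : labsOf S X = labsOf S (insert e X) :=
        Finset.eq_of_subset_of_card_le h2 (by omega)
      have h01 : (e : ℕ) = 0 ∨ (e : ℕ) = 1 := by omega
      rcases h01 with h0 | h0
      · rw [h0, vec_zero, ← G.hp]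
        apply pt_mem_span G
        rw [h8]
        exact (mem_labsOf S).2 ⟨e, Finset.mem_insert_self _ _, e, Finset.mem_insert_self _ _,
          by simp [lam, h0]⟩
      · rw [h0, vec_one, ← G.hq]
        apply pt_mem_span G
        rw [h8]
        exact (mem_labsOf S).2 ⟨e, Finset.mem_insert_self _ _, e, Finset.mem_insert_self _ _,
          by simp [lam, h0]⟩

end

/-- a linear functional on the span -/
def fn (z : ℚ × ℚ) (y : ℕ → ℚ) (K : ℕ) : (ℕ → ℚ) →ₗ[ℚ] ℚ where
  toFun x := dt z (x 0, x 1) - ∑ k ∈ Finset.range K, y k * x (k + 2)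
  map_add' x x' := by
    simp only [dt, Pi.add_apply, mul_add, Finset.sum_add_distrib]
    ring
  map_smul' c x := by
    simp only [dt, Pi.smul_apply, smul_eq_mul, RingHom.id_apply, mul_sub, Finset.mul_sum]
    congr 1
    · ring
    · exact Finset.sum_congr rfl fun k _ => by ring

theorem fn_pl (z : ℚ × ℚ) (y : ℕ → ℚ) (K : ℕ) (x : ℚ × ℚ) : fn z y K (pl x) = dt z x := by
  simp [fn, pl, dt]

theorem fn_uv (z : ℚ × ℚ) (y : ℕ → ℚ) {K k : ℕ} (hk : k < K) : fn z y K (uv k) = - y k := by
  simp [fn, uv, dt, hk]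

theorem not_mem_span_of_fn {X : Finset (Fin (2 + 4 * K))} {e : Fin (2 + 4 * K)}
    (f : (ℕ → ℚ) →ₗ[ℚ] ℚ) (h : ∀ x ∈ X, f (vec off x) = 0) (he : f (vec off e) ≠ 0) :
    vec off e ∉ Submodule.span ℚ ((fun x : Fin (2 + 4 * K) => vec off x) '' (X : Set _)) := by
  intro hmem
  apply he
  have h1 : Submodule.span ℚ ((fun x : Fin (2 + 4 * K) => vec off x) '' (X : Set _)) ≤
      LinearMap.ker f := by
    rw [Submodule.span_le]
    rintro _ ⟨x, hx, rfl⟩
    exact h x hx
  exact h1 hmem

theorem dt_self (z : ℚ × ℚ) : dt z z = 0 := by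
  unfold dt
  ring

theorem dt_add (z x y : ℚ × ℚ) : dt z (x + y) = dt z x + dt z y := by
  simp only [dt, Prod.fst_add, Prod.snd_add]
  ring

theorem dt_smul (z : ℚ × ℚ) (c : ℚ) (x : ℚ × ℚ) : dt z (c • x) = c * dt z x := by
  simp only [dt, Prod.smul_fst, Prod.smul_snd, smul_eq_mul]
  ring

theorem rk_of_mem_span (G : Geo S K pt off) {X : Finset (Fin (2 + 4 * K))}
    {e : Fin (2 + 4 * K)}
    (hmem : vec off e ∈
      Submodule.span ℚ ((fun x : Fin (2 + 4 * K) => vec off x) '' (X : Set _))) :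
    rk S (insert e X) = rk S X := by
  classical
  by_contra hne
  have heX : e ∉ X := fun h => hne (by rw [Finset.insert_eq_of_mem h])
  by_cases hnew : 2 ≤ (e : ℕ) ∧ blk e ∉ touched X
  · -- a new quadrangle
    refine not_mem_span_of_fn (LinearMap.proj (blk e + 2)) ?_ ?_ hmem
    · intro x hx
      simp only [LinearMap.proj_apply]
      by_cases hx2 : 2 ≤ (x : ℕ)
      · have hb : blk x ≠ blk e := fun h => hnew.2 (mem_touched.2 ⟨x, hx, hx2, h⟩)
        rw [vec_of_two_le off hx2]
        simp [pl, uv, hb.symm]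
      · unfold vec
        have h01 : (x : ℕ) = 0 ∨ (x : ℕ) = 1 := by omega
        rcases h01 with h | h <;> simp [h, pl]
    · simp only [LinearMap.proj_apply]
      rw [vec_of_two_le off hnew.1]
      simp [pl, uv]
  · have hT : touched (insert e X) = touched X := by
      rw [touched_insert]
      split_ifs with h2
      · rw [Finset.insert_eq_of_mem]
        by_contra h3
        exact hnew ⟨h2, h3⟩
      · rfl
    have h2 := labsOf_mono S (Finset.subset_insert e X)
    have h4 := Finset.card_le_card h2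
    have hc : (labsOf S X).card ≤ 1 := by
      unfold rk at hne
      rw [hT] at hne
      omega
    -- a new label
    obtain ⟨l, hl, hlX⟩ : ∃ l ∈ labsOf S (insert e X), l ∉ labsOf S X := by
      by_contra hcon
      push Not at hcon
      have : labsOf S (insert e X) = labsOf S X := Finset.Subset.antisymm hcon h2
      exact hne (by rw [rk, rk, hT, this])
    have hlU := used_of_mem hl
    -- the old label
    obtain ⟨l₀, hU, hsub, hll⟩ : ∃ l₀, Used S K l₀ ∧ labsOf S X ⊆ {l₀} ∧ l ≠ l₀ := by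
      rcases Finset.eq_empty_or_nonempty (labsOf S X) with hemp | ⟨l₀, hl₀⟩
      · by_cases hlp : l = S.p
        · exact ⟨S.q, Or.inr (Or.inl rfl), by simp [hemp], by rw [hlp]; exact S.ne⟩
        · exact ⟨S.p, Or.inl rfl, by simp [hemp], hlp⟩
      · refine ⟨l₀, used_of_mem hl₀, fun m hm => ?_, fun h => hlX (h ▸ hl₀)⟩
        rw [Finset.mem_singleton]
        exact Finset.card_le_one.1 hc _ hm _ hl₀
    have hdet := G.inj l₀ l hU hlU hll.symm
    -- representatives of the quadrangles
    have hrep : ∀ k, ∃ x : Fin (2 + 4 * K), k ∈ touched X → x ∈ X ∧ 2 ≤ (x : ℕ) ∧ blk x = k := by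
      intro k
      by_cases hk : k ∈ touched X
      · obtain ⟨x, hx, h⟩ := mem_touched.1 hk
        exact ⟨x, fun _ => ⟨hx, h⟩⟩
      · exact ⟨e, fun h => absurd h hk⟩
    choose ι hι using hrep
    set y : ℕ → ℚ := fun k => dt (pt l₀) (off k (vtx (ι k))) with hy
    -- the functional at a vertex of a quadrangle which is met
    have hval : ∀ x : Fin (2 + 4 * K), 2 ≤ (x : ℕ) → blk x ∈ touched X →
        fn (pt l₀) y K (vec off x) = dt (pt l₀) (off (blk x) (vtx x)) -
          dt (pt l₀) (off (blk x) (vtx (ι (blk x)))) := by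
      intro x hx _
      rw [vec_of_two_le off hx, map_add, fn_pl, fn_uv _ _ (blk_lt hx x.2)]
      ring
    have hval' : ∀ x : Fin (2 + 4 * K), 2 ≤ (x : ℕ) → blk x ∈ touched X →
        (x : ℕ) ≠ ι (blk x) → ∃ c : ℚ, c ≠ 0 ∧ fn (pt l₀) y K (vec off x) =
          c * dt (pt l₀) (pt (S.lab (blk x) (vtx (ι (blk x))) (vtx x))) := by
      intro x hx hxT hne'
      obtain ⟨a1, a2, a3⟩ := hι _ hxT
      have hv : vtx (ι (blk x)) ≠ vtx x := fun h => hne' (ext_bv hx a2 a3.symm h.symm)
      obtain ⟨c, hc, h⟩ := G.side (blk x) (blk_lt hx x.2) _ (vtx_lt _) _ (vtx_lt _) hv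
      refine ⟨c, hc, ?_⟩
      rw [hval x hx hxT, h, dt_add, dt_smul]
      ring
    refine not_mem_span_of_fn (fn (pt l₀) y K) ?_ ?_ hmem
    · intro x hx
      by_cases hx2 : 2 ≤ (x : ℕ)
      · have hxT : blk x ∈ touched X := mem_touched.2 ⟨x, hx, hx2, rfl⟩
        by_cases hxι : (x : ℕ) = ι (blk x)
        · rw [hval x hx2 hxT, ← hxι, sub_self]
        · obtain ⟨c, -, h⟩ := hval' x hx2 hxT hxι
          obtain ⟨a1, a2, a3⟩ := hι _ hxT
          have h5 : S.lab (blk x) (vtx (ι (blk x))) (vtx x) ∈ labsOf S X := by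
            refine (mem_labsOf S).2 ⟨ι (blk x), a1, x, hx, ?_⟩
            rw [lam_off S a2 hx2 (Ne.symm hxι) a3, a3]
          have h6 := Finset.mem_singleton.1 (hsub h5)
          rw [h, h6, dt_self, mul_zero]
      · have h01 : (x : ℕ) = 0 ∨ (x : ℕ) = 1 := by omega
        rcases h01 with h0 | h0
        · have h5 : S.p ∈ labsOf S X := (mem_labsOf S).2 ⟨x, hx, x, hx, by simp [lam, h0]⟩
          have h6 := Finset.mem_singleton.1 (hsub h5)
          rw [h0, vec_zero, fn_pl, ← G.hp, h6, dt_self]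
        · have h5 : S.q ∈ labsOf S X := (mem_labsOf S).2 ⟨x, hx, x, hx, by simp [lam, h0]⟩
          have h6 := Finset.mem_singleton.1 (hsub h5)
          rw [h0, vec_one, fn_pl, ← G.hq, h6, dt_self]
    · rw [mem_labsOf_insert] at hl
      rcases hl with hl | hl | ⟨g, hg, hl⟩
      · exact absurd hl hlX
      · -- a point of the line
        unfold lam at hl
        rw [if_pos rfl] at hl
        split_ifs at hl with h0 h1
        · simp only [Option.some.injEq] at hl
          rw [h0, vec_zero, fn_pl, ← G.hp, hl]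
          exact hdet
        · simp only [Option.some.injEq] at hl
          rw [h1, vec_one, fn_pl, ← G.hq, hl]
          exact hdet
      · have heg : (e : ℕ) ≠ g := fun h => heX (by rwa [Fin.ext h])
        obtain ⟨a1, a2, a3, a4⟩ := lam_eq_some_off S heg hl
        have heT : blk e ∈ touched X := mem_touched.2 ⟨g, hg, a2, a3.symm⟩
        obtain ⟨b1, b2, b3⟩ := hι _ heT
        have heι : (e : ℕ) ≠ ι (blk e) := fun h => heX (by rw [Fin.ext h]; exact b1)
        obtain ⟨c, hc0, h⟩ := hval' e a1 heT heι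
        rw [h]
        refine mul_ne_zero hc0 ?_
        -- the side joining e and the representative has a new label
        have hm : S.lab (blk e) (vtx (ι (blk e))) (vtx e) ≠ l₀ := by
          intro hm
          by_cases hgι : (ι (blk e) : ℕ) = g
          · rw [← a4, S.symm, ← hgι] at hll
            exact hll hm
          · have h7 := lam_off S b2 a2 hgι (b3.trans a3)
            have h8 := lam_off S b2 a1 (Ne.symm heι) b3
            have h9 := lam_adj S (Ne.symm heι) hgι heg h8 h7
            have h10 : S.lab (blk (ι (blk e))) (vtx (ι (blk e))) (vtx g) ∈ labsOf S X :=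
              (mem_labsOf S).2 ⟨ι (blk e), b1, g, hg, h7⟩
            have h11 := Finset.mem_singleton.1 (hsub h10)
            apply h9
            rw [h11, b3, hm]
        refine G.inj _ _ hU ?_ hm.symm
        exact Or.inr (Or.inr ⟨blk e, blk_lt a1 e.2, _, vtx_lt _, _, vtx_lt _,
          fun h => heι (ext_bv a1 b2 b3.symm h.symm), rfl⟩)

/-- Plane data give a representation. -/
theorem rep_of_geo (G : Geo S K pt off) : ∃ v : Fin (2 + 4 * K) → Fin (K + 2) → ℚ,
    ∀ I : Set (Fin (2 + 4 * K)),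
      (rkAx S (2 + 4 * K)).matroid.Indep I ↔ LinearIndepOn ℚ v I := by
  let v₀ : Fin (2 + 4 * K) → ℕ → ℚ := fun x => vec off x
  have h0 : ∀ I : Set (Fin (2 + 4 * K)),
      (rkAx S (2 + 4 * K)).matroid.Indep I ↔ LinearIndepOn ℚ v₀ I :=
    (rkAx S (2 + 4 * K)).indep_iff_linearIndepOn
      ((rkAx S (2 + 4 * K)).indep_of_mem_span fun X e =>
        ⟨rk_of_mem_span G, mem_span_of_rk G⟩)
  refine ⟨fun x t => v₀ x t, fun I => ?_⟩
  rw [h0]
  have hE : ∀ x, v₀ x = Function.ExtendByZero.linearMap ℚ (Fin.val : Fin (K + 2) → ℕ)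
      (fun t => v₀ x t) := by
    intro x
    funext t
    simp only [Function.ExtendByZero.linearMap_apply]
    by_cases ht : t < K + 2
    · have := Fin.val_injective.extend_apply (fun t : Fin (K + 2) => v₀ x t) 0 ⟨t, ht⟩
      exact this.symm
    · rw [Function.extend_apply' _ _ _ (by rintro ⟨a, rfl⟩; exact ht a.2)]
      simp only [v₀, Pi.zero_apply]
      by_cases hx2 : 2 ≤ (x : ℕ)
      · have hb := blk_lt hx2 x.2
        rw [vec_of_two_le off hx2]
        have h1 : t ≠ 0 := by omega
        have h2 : t ≠ 1 := by omega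
        have h3 : t ≠ blk x + 2 := by omega
        simp [pl, uv, h1, h2, h3]
      · have h01 : (x : ℕ) = 0 ∨ (x : ℕ) = 1 := by omega
        have h1 : t ≠ 0 := by omega
        have h2 : t ≠ 1 := by omega
        rcases h01 with h | h <;> simp [h, vec, pl, h1, h2]
  have hinj : Function.Injective
      (Function.ExtendByZero.linearMap ℚ (Fin.val : Fin (K + 2) → ℕ)) := by
    intro a b hab
    funext t
    have h1 := congrFun hab t
    simp only [Function.ExtendByZero.linearMap_apply] at h1
    rwa [Fin.val_injective.extend_apply, Fin.val_injective.extend_apply] at h1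
  have hfun : v₀ = fun x => Function.ExtendByZero.linearMap ℚ (Fin.val : Fin (K + 2) → ℕ)
      (fun t => v₀ x t) := funext hE
  conv_lhs => rw [hfun]
  exact LinearMap.linearIndepOn_iff_of_injOn _ hinj.injOn

end

end Pool.Agent.Y336.BW
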