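import Pool.Agent.H881R2.Mat.Defs
import Pool.Agent.Y336.BW.Back2

/-!
# The system of quadrangles of a system of wires
-/

set_option autoImplicit false

namespace Pool.Agent.Y336.BW

open Pool.Agent.H881R2.Mat

/-- labels of points of the line -/
abbrev Lb : Type := ℕ × ℕ × ℕ

def lI : Lb := (0, 0, 0)
def lO : Lb := (1, 0, 0)
def lU (a : ℕ) : Lb := (2, a, 0)
def lR (a : ℕ) : Lb := (3, a, 0)
def lG (g : ℕ) : Lb := (4, g, 0)
def lV (g a : ℕ) : Lb := (5, g, a)

/-- the labels of the sides `01`, `23`, `02`, `13`, `03`, `12` of a quadrangle -/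
abbrev Blk : Type := Lb × Lb × Lb × Lb × Lb × Lb

/-- the label of a side -/
def sideOf (b : Blk) (i j : ℕ) : Lb :=
  if i + j = 1 then b.1 else if i + j = 5 then b.2.1 else if i + j = 2 then b.2.2.1
  else if i + j = 4 then b.2.2.2.1 else if i * j = 0 then b.2.2.2.2.1 else b.2.2.2.2.2

/-- transfer of the wire `a` to the scale of the gadget `g` -/
def trB (g a : ℕ) : Blk := (lI, lO, lR a, lG g, lU a, lV g a)
/-- multiplication -/
def mulB (g x y z : ℕ) : Blk := (lI, lO, lV g z, lU y, lV g x, lR y)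
/-- addition -/
def addB (g x y z : ℕ) : Blk := (lI, lI, lO, lV g z, lV g x, lV g y)

/-- the quadrangles of the gadget `d` with number `g` -/
def gb (d : Gad) (g : ℕ) : List Blk :=
  [trB g d.2.1, trB g d.2.2.1, trB g d.2.2.2,
    if d.1 = true then mulB g d.2.1 d.2.2.1 d.2.2.2 else addB g d.2.1 d.2.2.1 d.2.2.2]

/-- all quadrangles -/
def blocks (G : List Gad) : List Blk := G.zipIdx.flatMap (fun q => gb q.1 q.2)

/-- a quadrangle with six different labels -/
def dflt : Blk := ((6, 0, 0), (6, 1, 0), (6, 2, 0), (6, 3, 0), (6, 4, 0), (6, 5, 0))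

/-- the labels of the sides -/
def labF (G : List Gad) (k i j : ℕ) : Lb := sideOf ((blocks G).getD k dflt) i j

/-- admissible quadrangles -/
structure BOk (b : Blk) : Prop where
  adj : ∀ i j l, i < 4 → j < 4 → l < 4 → i ≠ j → i ≠ l → j ≠ l → sideOf b i j ≠ sideOf b i l
  opp : ∀ i < 4, ∀ j < 4, ∀ i' < 4, ∀ j' < 4, i ≠ j → i' ≠ j' → sideOf b i j = sideOf b i' j' →
    sideOf b i j ≠ lI → sideOf b i j ≠ lO → (i = i' ∧ j = j') ∨ (i = j' ∧ j = i')

theorem sideOf_symm (b : Blk) (i j : ℕ) : sideOf b i j = sideOf b j i := by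
  unfold sideOf
  rw [add_comm i j, mul_comm i j]

/-- sufficient condition -/
theorem bOk_of {a b c d e f : Lb} (hab : a ≠ c ∧ a ≠ d ∧ a ≠ e ∧ a ≠ f)
    (hb : b ≠ c ∧ b ≠ d ∧ b ≠ e ∧ b ≠ f) (hc : c ≠ e ∧ c ≠ f) (hd : d ≠ e ∧ d ≠ f)
    (h1 : a = b → a = lI) (h2 : c ≠ d) (h3 : e ≠ f) : BOk (a, b, c, d, e, f) := by
  obtain ⟨a1, a2, a3, a4⟩ := hab
  obtain ⟨b1, b2, b3, b4⟩ := hb
  obtain ⟨c1, c2⟩ := hc
  obtain ⟨d1, d2⟩ := hd
  constructor
  · intro i j l hi hj hl hij hil hjl
    interval_cases i <;> interval_cases j <;> interval_cases l <;>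
      first
        | exact absurd rfl hij
        | exact absurd rfl hil
        | exact absurd rfl hjl
        | (simp only [sideOf]; norm_num; first | assumption | (apply Ne.symm; assumption))
  · intro i hi j hj i' hi' j' hj' hij hij' heq hI hO
    interval_cases i <;> interval_cases j <;> interval_cases i' <;> interval_cases j' <;>
      first
        | exact absurd rfl hij
        | exact absurd rfl hij'
        | exact Or.inl ⟨rfl, rfl⟩
        | exact Or.inr ⟨rfl, rfl⟩
        | (exfalso; simp only [sideOf] at heq hI; norm_num at heq hI;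
           first
            | exact a1 heq | exact a2 heq | exact a3 heq | exact a4 heq
            | exact b1 heq | exact b2 heq | exact b3 heq | exact b4 heq
            | exact c1 heq | exact c2 heq | exact d1 heq | exact d2 heq
            | exact h2 heq | exact h3 heq
            | exact a1 heq.symm | exact a2 heq.symm | exact a3 heq.symm | exact a4 heq.symm
            | exact b1 heq.symm | exact b2 heq.symm | exact b3 heq.symm | exact b4 heq.symm
            | exact c1 heq.symm | exact c2 heq.symm | exact d1 heq.symm | exact d2 heq.symm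
            | exact h2 heq.symm | exact h3 heq.symm
            | exact hI (h1 heq)
            | exact hI (heq.trans (h1 heq.symm)))

theorem bOk_tr (g a : ℕ) : BOk (trB g a) := by
  apply bOk_of <;> simp [lI, lO, lR, lG, lU, lV]

theorem bOk_dflt : BOk dflt := by
  apply bOk_of <;> simp

theorem bOk_mul {g x y z : ℕ} (h : x ≠ z) : BOk (mulB g x y z) := by
  apply bOk_of <;> simp [lI, lO, lR, lU, lV, h, h.symm]

theorem bOk_add {g x y z : ℕ} (h1 : x ≠ y) (h2 : x ≠ z) (h3 : y ≠ z) : BOk (addB g x y z) := by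
  apply bOk_of <;> simp [lI, lO, lV, h1, h1.symm, h2, h2.symm, h3, h3.symm]

theorem mem_blocks {G : List Gad} {b : Blk} :
    b ∈ blocks G ↔ ∃ d g, G[g]? = some d ∧ b ∈ gb d g := by
  simp only [blocks, List.mem_flatMap, Prod.exists, List.mem_zipIdx_iff_getElem?]

theorem bOk_of_mem {G : List Gad} (hG : Distinct G) {b : Blk} (hb : b ∈ blocks G) : BOk b := by
  obtain ⟨d, g, hd, hb⟩ := mem_blocks.1 hb
  obtain ⟨h1, h2, h3⟩ := hG d (List.mem_of_getElem? hd)
  simp only [gb, List.mem_cons, List.not_mem_nil, or_false] at hb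
  rcases hb with rfl | rfl | rfl | rfl
  · exact bOk_tr _ _
  · exact bOk_tr _ _
  · exact bOk_tr _ _
  · split_ifs
    · exact bOk_mul h2
    · exact bOk_add h1 h2 h3

theorem bOk_getD {G : List Gad} (hG : Distinct G) (k : ℕ) : BOk ((blocks G).getD k dflt) := by
  by_cases hk : k < (blocks G).length
  · rw [List.getD_eq_getElem _ _ hk]
    exact bOk_of_mem hG (List.getElem_mem hk)
  · rw [List.getD_eq_default _ _ (by omega)]
    exact bOk_dflt

/-- the system of quadrangles -/
def sys (G : List Gad) (hG : Distinct G) : Sys Lb where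
  lab := labF G
  p := lI
  q := lO
  symm k i j := sideOf_symm _ _ _
  adj k i j l hi hj hl hij hil hjl := (bOk_getD hG k).adj i j l hi hj hl hij hil hjl
  ne := by simp [lI, lO]

theorem sys_opp {G : List Gad} (hG : Distinct G) (K : ℕ) :
    ∀ k < K, ∀ i < 4, ∀ j < 4, ∀ i' < 4, ∀ j' < 4, i ≠ j → i' ≠ j' →
      (sys G hG).lab k i j = (sys G hG).lab k i' j' → (sys G hG).lab k i j ≠ (sys G hG).p →
        (sys G hG).lab k i j ≠ (sys G hG).q → (i = i' ∧ j = j') ∨ (i = j' ∧ j = i') :=
  fun k _ => (bOk_getD hG k).opp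

/-- every quadrangle has an index -/
theorem exists_idx {G : List Gad} {b : Blk} (hb : b ∈ blocks G) :
    ∃ k < (blocks G).length, ∀ i j, labF G k i j = sideOf b i j := by
  obtain ⟨k, hk, rfl⟩ := List.mem_iff_getElem.1 hb
  refine ⟨k, hk, fun i j => ?_⟩
  unfold labF
  rw [List.getD_eq_getElem _ _ hk]

theorem labF_eq {G : List Gad} {k : ℕ} (hk : k < (blocks G).length) (i j : ℕ) :
    labF G k i j = sideOf (blocks G)[k] i j := by
  unfold labF
  rw [List.getD_eq_getElem _ _ hk]

end Pool.Agent.Y336.BW
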