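import Pool.Agent.Y336.BW.Rk

/-!
# Representations of the matroid of a rank function
-/

set_option autoImplicit false

namespace Pool.Agent.Y336.BW

section

variable {α : Type*} [DecidableEq α] {r : Finset α → ℕ} {F V : Type*} [Field F] [AddCommGroup V]
  [Module F V]

namespace RkAx

variable (h : RkAx r)
include h

/-- closure of a subset of the same rank -/
theorem insert_iff {I X : Finset α} (hI : I ⊆ X) (hr : r X = r I) (e : α) :
    r (insert e I) = r I ↔ r (insert e X) = r X := by
  constructor
  · intro h1
    have h2 : ∀ f ∈ insert e X, r (insert f I) = r I := by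
      intro f hf
      rcases Finset.mem_insert.1 hf with rfl | hf
      · exact h1
      · apply le_antisymm
        · rw [← hr]
          exact h.mono' (Finset.insert_subset hf hI)
        · exact h.mono _ _
    have h3 := h.closure _ h2
    rw [Finset.union_eq_left.2 (hI.trans (Finset.subset_insert _ _))] at h3
    rw [h3, hr]
  · intro h1
    apply le_antisymm
    · rw [← hr, ← h1]
      exact h.mono' (Finset.insert_subset_insert e hI)
    · exact h.mono _ _

theorem mem_span_iff {v : α → V}
    (hv : ∀ I : Finset α, r I = I.card ↔ LinearIndepOn F v (I : Set α)) (X : Finset α) (e : α) :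
    v e ∈ Submodule.span F (v '' (X : Set α)) ↔ r (insert e X) = r X := by
  -- the case of an independent set
  have key : ∀ I : Finset α, r I = I.card → ∀ e, (v e ∈ Submodule.span F (v '' (I : Set α)) ↔
      r (insert e I) = r I) := by
    intro I hI e
    by_cases he : e ∈ I
    · rw [Finset.insert_eq_of_mem he]
      exact iff_of_true (Submodule.subset_span ⟨e, he, rfl⟩) rfl
    · have h1 := hv (insert e I)
      rw [Finset.card_insert_of_notMem he, Finset.coe_insert,
        linearIndepOn_insert (by exact_mod_cast he)] at h1
      have h2 := (hv I).1 hI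
      have h3 := h.mono I e
      have h4 := h.unit I e
      constructor
      · intro h5
        have : ¬ r (insert e I) = I.card + 1 := fun h6 => (h1.1 h6).2 h5
        omega
      · intro h5
        by_contra h6
        have := h1.2 ⟨h2, h6⟩
        omega
  obtain ⟨I, hI, hIc, hr⟩ := h.exists_basis X
  have hs : Submodule.span F (v '' (I : Set α)) = Submodule.span F (v '' (X : Set α)) := by
    apply le_antisymm
    · exact Submodule.span_mono (Set.image_mono (by exact_mod_cast hI))
    · rw [Submodule.span_le]
      rintro _ ⟨f, hf, rfl⟩
      apply (key I hIc f).2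
      apply le_antisymm
      · rw [← hr]
        exact h.mono' (Finset.insert_subset (by exact_mod_cast hf) hI)
      · exact h.mono _ _
  rw [← hs, key I hIc, h.insert_iff hI hr]

theorem indep_of_mem_span {v : α → V}
    (hv : ∀ (X : Finset α) (e : α), v e ∈ Submodule.span F (v '' (X : Set α)) ↔
      r (insert e X) = r X) (I : Finset α) :
    r I = I.card ↔ LinearIndepOn F v (I : Set α) := by
  induction I using Finset.induction_on with
  | empty => simp [h.empty]
  | insert e I he ih =>
    rw [Finset.card_insert_of_notMem he, Finset.coe_insert,
      linearIndepOn_insert (by exact_mod_cast he), ← ih, hv]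
    have h1 := h.le_card I
    have h3 := h.mono I e
    have h4 := h.unit I e
    omega

theorem indep_iff_linearIndepOn [Finite α] {v : α → V}
    (hv : ∀ I : Finset α, r I = I.card ↔ LinearIndepOn F v (I : Set α)) (I : Set α) :
    h.matroid.Indep I ↔ LinearIndepOn F v I := by
  obtain ⟨I, rfl⟩ := I.toFinite.exists_finset_coe
  rw [h.matroid_indep, hv]

theorem indep_of_indep {v : α → V} (hv : ∀ I : Set α, h.matroid.Indep I ↔ LinearIndepOn F v I)
    (I : Finset α) : r I = I.card ↔ LinearIndepOn F v (I : Set α) := by
  rw [← hv, h.matroid_indep]

end RkAx

end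

end Pool.Agent.Y336.BW
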