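import Pool.Agent.Y336.BW.Str

/-!
# Branch-width of the matroid of a system of quadrangles
-/

set_option autoImplicit false

namespace Pool.Agent.Y336.BW

/-- binary trees whose leaves carry elements -/
inductive Tr (α : Type) : Type
  | leaf : α → Tr α
  | node : Tr α → Tr α → Tr α

/-- the elements at the leaves -/
def Tr.leaves {α : Type} : Tr α → List α
  | .leaf a => [a]
  | .node s t => s.leaves ++ t.leaves

/-- the subtrees -/
def Tr.subs {α : Type} : Tr α → List (Tr α)
  | .leaf a => [.leaf a]
  | .node s t => .node s t :: (s.subs ++ t.subs)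

/-- The matroid `M` has branch-width at most `w`: the elements of `M` are the leaves of a binary
tree, each once, such that for the set `A` of the leaves of each subtree
`r(A) + r(E - A) - r(E) + 1 ≤ w`. -/
def BranchWidthLE {α : Type} (M : Matroid α) (w : ℕ) : Prop :=
  ∃ t : Tr α, t.leaves.Nodup ∧ (∀ x, x ∈ t.leaves ↔ x ∈ M.E) ∧
    ∀ s ∈ t.subs, M.eRk {x | x ∈ s.leaves} + M.eRk (M.E \ {x | x ∈ s.leaves}) + 1 ≤ M.eRank + w

section

variable {Λ : Type*} [DecidableEq Λ] (S : Sys Λ) {K : ℕ}

theorem width_aux (A : Finset (Fin (2 + 4 * K)))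
    (h : A.card ≤ 2 ∨ ∀ x ∈ A, ∀ y ∉ A, 2 ≤ (x : ℕ) → 2 ≤ (y : ℕ) → blk x ≠ blk y) :
    rk S A + rk S Aᶜ ≤ K + 4 := by
  rcases h with h | h
  · have h1 := (rkAx S (2 + 4 * K)).le_card A
    have h2 := rk_le S Aᶜ
    omega
  · have h1 : Disjoint (touched A) (touched Aᶜ) := by
      rw [Finset.disjoint_left]
      intro k hk hk'
      obtain ⟨x, hx, hx2, hxk⟩ := mem_touched.1 hk
      obtain ⟨y, hy, hy2, hyk⟩ := mem_touched.1 hk'
      exact h x hx y (by simpa using hy) hx2 hy2 (hxk.trans hyk.symm)
    have h2 := Finset.card_le_card (Finset.union_subset (touched_subset A) (touched_subset Aᶜ))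
    rw [Finset.card_union_of_disjoint h1, Finset.card_range] at h2
    unfold rk
    omega

/-- the tree of the quadrangle `k` -/
def qtree (k : ℕ) (hk : k < K) : Tr (Fin (2 + 4 * K)) :=
  .node (.node (.leaf (el k 0 hk (by norm_num))) (.leaf (el k 1 hk (by norm_num))))
    (.node (.leaf (el k 2 hk (by norm_num))) (.leaf (el k 3 hk (by norm_num))))

/-- the tree of the first quadrangles and of the points of the line -/
def spine : (k : ℕ) → k ≤ K → Tr (Fin (2 + 4 * K))
  | 0, _ => .node (.leaf e0) (.leaf e1)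
  | k + 1, h => .node (spine k (by omega)) (qtree k (by omega))

theorem mem_qtree (k : ℕ) (hk : k < K) (x : Fin (2 + 4 * K)) :
    x ∈ (qtree k hk).leaves ↔ 2 + 4 * k ≤ (x : ℕ) ∧ (x : ℕ) < 2 + 4 * (k + 1) := by
  simp only [qtree, Tr.leaves, List.mem_append, List.mem_singleton, Fin.ext_iff, el]
  omega

theorem mem_spine (k : ℕ) (hk : k ≤ K) (x : Fin (2 + 4 * K)) :
    x ∈ (spine k hk).leaves ↔ (x : ℕ) < 2 + 4 * k := by
  induction k with
  | zero =>
    simp only [spine, Tr.leaves, List.mem_append, List.mem_singleton, Fin.ext_iff, e0, e1]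
    omega
  | succ k ih =>
    simp only [spine, Tr.leaves, List.mem_append, ih (by omega), mem_qtree]
    omega

theorem nodup_qtree (k : ℕ) (hk : k < K) : (qtree k hk).leaves.Nodup := by
  simp only [qtree, Tr.leaves, List.cons_append, List.nil_append, List.nodup_cons, List.mem_cons,
    Fin.ext_iff, el, List.not_mem_nil, or_false, not_false_eq_true, List.nodup_nil, and_true]
  omega

theorem nodup_spine (k : ℕ) (hk : k ≤ K) : (spine k hk).leaves.Nodup := by
  induction k with
  | zero => simp [spine, Tr.leaves, e0, e1]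
  | succ k ih =>
    simp only [spine, Tr.leaves]
    rw [List.nodup_append]
    refine ⟨ih (by omega), nodup_qtree k (by omega), ?_⟩
    intro a ha b hb hab
    rw [mem_spine] at ha
    rw [mem_qtree] at hb
    rw [hab] at ha
    omega

/-- small sets or sets which do not split a quadrangle -/
def Nice (s : Tr (Fin (2 + 4 * K))) : Prop :=
  s.leaves.length ≤ 2 ∨ ∀ x ∈ s.leaves, ∀ y ∉ s.leaves, 2 ≤ (x : ℕ) → 2 ≤ (y : ℕ) →
    blk x ≠ blk y

theorem nice_qtree (k : ℕ) (hk : k < K) : ∀ s ∈ (qtree k hk).subs, Nice s := by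
  intro s hs
  have h0 : Nice (qtree k hk) := by
    right
    intro x hx y hy hx2 hy2
    rw [mem_qtree] at hx hy
    unfold blk
    omega
  rw [qtree, Tr.subs] at hs
  rcases List.mem_cons.1 hs with rfl | hs
  · exact h0
  · simp only [Tr.subs, List.cons_append, List.nil_append, List.mem_cons, List.not_mem_nil,
      or_false] at hs
    left
    rcases hs with rfl | rfl | rfl | rfl | rfl | rfl <;> simp [Tr.leaves]

theorem nice_spine (k : ℕ) (hk : k ≤ K) : ∀ s ∈ (spine k hk).subs, Nice s := by
  induction k with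
  | zero =>
    intro s hs
    simp only [spine, Tr.subs, List.cons_append, List.nil_append, List.mem_cons, List.not_mem_nil,
      or_false] at hs
    left
    rcases hs with rfl | rfl | rfl <;> simp [Tr.leaves]
  | succ k ih =>
    intro s hs
    have h0 : Nice (spine (k + 1) hk) := by
      right
      intro x hx y hy hx2 hy2
      rw [mem_spine] at hx hy
      unfold blk
      omega
    rw [spine, Tr.subs] at hs
    rcases List.mem_cons.1 hs with rfl | hs
    · exact h0
    · rcases List.mem_append.1 hs with hs | hs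
      · exact ih (by omega) s hs
      · exact nice_qtree k (by omega) s hs

/-- prefixes of the natural order -/
theorem path_aux (j : ℕ) : (mat S K).eRk {x | (x : ℕ) < j} + (mat S K).eRk {x | j ≤ (x : ℕ)} ≤
    (mat S K).eRank + 3 := by
  classical
  set A : Finset (Fin (2 + 4 * K)) := Finset.univ.filter (fun x => (x : ℕ) < j) with hA
  set B : Finset (Fin (2 + 4 * K)) := Finset.univ.filter (fun x => j ≤ (x : ℕ)) with hB
  have hA' : ({x | (x : ℕ) < j} : Set (Fin (2 + 4 * K))) = (A : Set (Fin (2 + 4 * K))) := by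
    ext x; simp [hA]
  have hB' : ({x | j ≤ (x : ℕ)} : Set (Fin (2 + 4 * K))) = (B : Set (Fin (2 + 4 * K))) := by
    ext x; simp [hB]
  -- at most one quadrangle is split
  have h1 : touched A ∩ touched B ⊆ {blk j} := by
    intro k hk
    obtain ⟨hk1, hk2⟩ := Finset.mem_inter.1 hk
    obtain ⟨x, hx, hx2, hxk⟩ := mem_touched.1 hk1
    obtain ⟨y, hy, hy2, hyk⟩ := mem_touched.1 hk2
    have hx' : (x : ℕ) < j := by simpa [hA] using hx
    have hy' : j ≤ (y : ℕ) := by simpa [hB] using hy
    rw [Finset.mem_singleton]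
    unfold blk at hxk hyk ⊢
    omega
  have h2 := Finset.card_le_card h1
  rw [Finset.card_singleton] at h2
  have h3 := Finset.card_le_card (Finset.union_subset (touched_subset A) (touched_subset B))
  have h4 := Finset.card_union_add_card_inter (touched A) (touched B)
  rw [Finset.card_range] at h3
  rw [hA', hB', mat_eRk, mat_eRk, mat_eRank]
  have h5 : rk S A + rk S B ≤ K + 2 + 3 := by
    unfold rk
    omega
  exact_mod_cast h5

theorem branchWidth_mat : BranchWidthLE (mat S K) 3 := by
  classical
  refine ⟨spine K le_rfl, nodup_spine K le_rfl, fun x => ?_, fun s hs => ?_⟩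
  · rw [mem_spine, mat_E]
    exact iff_of_true x.2 (Set.mem_univ _)
  · have h1 := nice_spine K le_rfl s hs
    have h2 : {x | x ∈ s.leaves} = ((s.leaves.toFinset : Finset (Fin (2 + 4 * K))) :
        Set (Fin (2 + 4 * K))) := by
      ext x
      simp
    have h3 : (mat S K).E \ {x | x ∈ s.leaves} =
        (((s.leaves.toFinset)ᶜ : Finset (Fin (2 + 4 * K))) : Set (Fin (2 + 4 * K))) := by
      rw [mat_E]
      ext x
      simp
    have h4 := width_aux S s.leaves.toFinset (by
      rcases h1 with h1 | h1
      · exact Or.inl ((List.toFinset_card_le _).trans h1)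
      · refine Or.inr fun x hx y hy => h1 x (by simpa using hx) y (by simpa using hy))
    rw [h3, h2, mat_eRk, mat_eRk, mat_eRank]
    have h5 : ((rk S s.leaves.toFinset + rk S (s.leaves.toFinset)ᶜ + 1 : ℕ) : ℕ∞) ≤
        ((K + 2 + 3 : ℕ) : ℕ∞) := by
      exact_mod_cast (by omega : rk S s.leaves.toFinset + rk S (s.leaves.toFinset)ᶜ + 1 ≤ K + 2 + 3)
    exact_mod_cast h5

end

end Pool.Agent.Y336.BW
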