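import Pool.Agent.Y336.BW.EncC
import Pool.Agent.Y336.BW.Fwd
import Pool.Agent.Y336.BW.Gen
import Pool.Agent.Y336.BW.Width

/-!
# The reduction of representability over the rational numbers to a class of matroids of
branch-width three
-/

set_option autoImplicit false

namespace Pool.Agent.Y336.BW

open scoped Matroid
open Pool.Agent.H881R2.Mat

/-- Contraction of two elements turns `M` into a direct sum of parallel classes of four
elements: `c` numbers the classes. -/
def TwoFours {n : ℕ} (M : Matroid (Fin n)) : Prop :=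
  ∃ (p q : Fin n) (c : Fin n → ℕ), p ≠ q ∧
    (∀ x, x ≠ p → x ≠ q → {y | y ≠ p ∧ y ≠ q ∧ c y = c x}.ncard = 4) ∧
    ∀ I : Set (Fin n), (M ／ ({p, q} : Set (Fin n))).Indep I ↔
      p ∉ I ∧ q ∉ I ∧ ∀ x ∈ I, ∀ y ∈ I, c x = c y → x = y

section

variable {Λ : Type*} [DecidableEq Λ] (S : Sys Λ) {K : ℕ}

theorem twoFours_mat : TwoFours (mat S K) := by
  refine ⟨e0, e1, fun x => blk x, by simp [e0, e1], ?_, fun I => ?_⟩
  · intro x hx0 hx1
    have hx2 : 2 ≤ (x : ℕ) := by
      have h0 : (x : ℕ) ≠ 0 := fun h => hx0 (Fin.ext h)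
      have h1 : (x : ℕ) ≠ 1 := fun h => hx1 (Fin.ext h)
      omega
    have hk := blk_lt hx2 x.2
    have hset : {y : Fin (2 + 4 * K) | y ≠ e0 ∧ y ≠ e1 ∧ blk y = blk x} =
        (({el (blk x) 0 hk (by norm_num), el (blk x) 1 hk (by norm_num),
          el (blk x) 2 hk (by norm_num), el (blk x) 3 hk (by norm_num)} :
            Finset (Fin (2 + 4 * K))) : Set (Fin (2 + 4 * K))) := by
      ext y
      simp only [Set.mem_ofPred_eq, ne_eq, Finset.coe_insert, Finset.coe_singleton,
        Set.mem_insert_iff, Set.mem_singleton_iff, Fin.ext_iff, e0, e1, el, blk]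
      have := x.2
      omega
    rw [hset, Set.ncard_coe_finset]
    rw [Finset.card_insert_of_notMem, Finset.card_insert_of_notMem, Finset.card_pair]
    · simp [el, Fin.ext_iff]
    · simp [el, Fin.ext_iff]
    · simp [el, Fin.ext_iff]
  · rw [contract_indep S I]
    constructor
    · rintro ⟨h1, h2⟩
      exact ⟨fun h => absurd (h1 _ h) (by simp [e0]), fun h => absurd (h1 _ h) (by simp [e1]), h2⟩
    · rintro ⟨h0, h1, h2⟩
      refine ⟨fun x hx => ?_, h2⟩
      have h3 : (x : ℕ) ≠ 0 := fun h => h0 (by rw [← (Fin.ext h : x = e0)]; exact hx)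
      have h4 : (x : ℕ) ≠ 1 := fun h => h1 (by rw [← (Fin.ext h : x = e1)]; exact hx)
      omega

/-- the matroid is simple -/
theorem simple_mat (e f : Fin (2 + 4 * K)) : (mat S K).Indep {e, f} := by
  have hcast : ({e, f} : Set (Fin (2 + 4 * K))) = (({e, f} : Finset (Fin (2 + 4 * K))) :
      Set (Fin (2 + 4 * K))) := by simp
  by_cases hef : e = f
  · -- extend to a pair of different elements
    subst hef
    obtain ⟨g, hg⟩ : ∃ g : Fin (2 + 4 * K), g ≠ e := by
      by_cases h : e = e0
      · exact ⟨e1, by rw [h]; simp [e0, e1]⟩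
      · exact ⟨e0, fun h' => h h'.symm⟩
    rw [hcast, mat_indep]
    have h := rkAx S (2 + 4 * K)
    simp only [Finset.pair_eq_singleton, Finset.card_singleton]
    have h1 := h.le_card {e}
    rw [Finset.card_singleton] at h1
    -- positive rank
    have h2 : 0 < rk S {e} := by
      unfold rk
      by_cases he : 2 ≤ (e : ℕ)
      · have : 0 < (touched ({e} : Finset (Fin (2 + 4 * K)))).card :=
          Finset.card_pos.2 ⟨blk e, mem_touched.2 ⟨e, by simp, he, rfl⟩⟩
        omega
      · have : 0 < (labsOf S ({e} : Finset (Fin (2 + 4 * K)))).card := by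
          have h01 : (e : ℕ) = 0 ∨ (e : ℕ) = 1 := by omega
          rcases h01 with h0 | h0
          · exact Finset.card_pos.2 ⟨S.p, (mem_labsOf S).2 ⟨e, by simp, e, by simp,
              by simp [lam, h0]⟩⟩
          · exact Finset.card_pos.2 ⟨S.q, (mem_labsOf S).2 ⟨e, by simp, e, by simp,
              by simp [lam, h0]⟩⟩
        omega
    omega
  · rw [hcast, mat_indep, Finset.card_pair hef]
    have h := rkAx S (2 + 4 * K)
    have h1 := h.le_card {e, f}
    rw [Finset.card_pair hef] at h1
    have hefN : (e : ℕ) ≠ f := fun h => hef (Fin.ext h)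
    have h2 : 2 ≤ rk S {e, f} := by
      unfold rk
      by_cases he : 2 ≤ (e : ℕ)
      · by_cases hf : 2 ≤ (f : ℕ)
        · by_cases hb : blk e = blk f
          · have a1 : 0 < (touched ({e, f} : Finset (Fin (2 + 4 * K)))).card :=
              Finset.card_pos.2 ⟨blk e, mem_touched.2 ⟨e, by simp, he, rfl⟩⟩
            have a2 : 0 < (labsOf S ({e, f} : Finset (Fin (2 + 4 * K)))).card :=
              Finset.card_pos.2 ⟨_, (mem_labsOf S).2 ⟨e, by simp, f, by simp,
                lam_off S he hf hefN hb⟩⟩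
            omega
          · have : 1 < (touched ({e, f} : Finset (Fin (2 + 4 * K)))).card :=
              Finset.one_lt_card.2 ⟨blk e, mem_touched.2 ⟨e, by simp, he, rfl⟩, blk f,
                mem_touched.2 ⟨f, by simp, hf, rfl⟩, hb⟩
            omega
        · have a1 : 0 < (touched ({e, f} : Finset (Fin (2 + 4 * K)))).card :=
            Finset.card_pos.2 ⟨blk e, mem_touched.2 ⟨e, by simp, he, rfl⟩⟩
          have a2 : 0 < (labsOf S ({e, f} : Finset (Fin (2 + 4 * K)))).card := by
            have h01 : (f : ℕ) = 0 ∨ (f : ℕ) = 1 := by omega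
            rcases h01 with h0 | h0
            · exact Finset.card_pos.2 ⟨S.p, (mem_labsOf S).2 ⟨f, by simp, f, by simp,
                by simp [lam, h0]⟩⟩
            · exact Finset.card_pos.2 ⟨S.q, (mem_labsOf S).2 ⟨f, by simp, f, by simp,
                by simp [lam, h0]⟩⟩
          omega
      · by_cases hf : 2 ≤ (f : ℕ)
        · have a1 : 0 < (touched ({e, f} : Finset (Fin (2 + 4 * K)))).card :=
            Finset.card_pos.2 ⟨blk f, mem_touched.2 ⟨f, by simp, hf, rfl⟩⟩
          have a2 : 0 < (labsOf S ({e, f} : Finset (Fin (2 + 4 * K)))).card := by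
            have h01 : (e : ℕ) = 0 ∨ (e : ℕ) = 1 := by omega
            rcases h01 with h0 | h0
            · exact Finset.card_pos.2 ⟨S.p, (mem_labsOf S).2 ⟨e, by simp, e, by simp,
                by simp [lam, h0]⟩⟩
            · exact Finset.card_pos.2 ⟨S.q, (mem_labsOf S).2 ⟨e, by simp, e, by simp,
                by simp [lam, h0]⟩⟩
          omega
        · have a2 : 1 < (labsOf S ({e, f} : Finset (Fin (2 + 4 * K)))).card := by
            have h01 : ((e : ℕ) = 0 ∧ (f : ℕ) = 1) ∨ ((e : ℕ) = 1 ∧ (f : ℕ) = 0) := by omega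
            rcases h01 with ⟨h0, h1⟩ | ⟨h0, h1⟩
            · exact Finset.one_lt_card.2 ⟨S.p, (mem_labsOf S).2 ⟨e, by simp, e, by simp,
                by simp [lam, h0]⟩, S.q, (mem_labsOf S).2 ⟨f, by simp, f, by simp,
                by simp [lam, h1]⟩, S.ne⟩
            · exact Finset.one_lt_card.2 ⟨S.p, (mem_labsOf S).2 ⟨f, by simp, f, by simp,
                by simp [lam, h1]⟩, S.q, (mem_labsOf S).2 ⟨e, by simp, e, by simp,
                by simp [lam, h0]⟩, S.ne⟩
          omega
    omega

end

/-- the matroid of a system of wires is representable if and only if the system is solvable -/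
theorem representable_iff {G : List Gad} (hG : Distinct G) :
    Representable (mat (sys G hG) (blocks G).length) ↔ WSat G := by
  constructor
  · rintro ⟨m, v, hv⟩
    obtain ⟨pt, off, W⟩ := wgeo_of_srep (srep_of_rep hv) (sys_opp hG _)
    exact wsat_of_wgeo W
  · intro h
    obtain ⟨pt, off, W⟩ := geo_of_wsat hG h
    obtain ⟨v, hv⟩ := rep_of_geo W
    exact ⟨_, v, hv⟩

theorem describes_binst {G : List Gad} (hG : Distinct G) :
    Describes (binst G) (mat (sys G hG) (blocks G).length) :=
  ⟨rfl, bases_binst hG⟩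

/-- the main theorem -/
theorem main : ∃ f : ℕ × List (List ℕ) → ℕ × List (List ℕ), Primrec f ∧ ∀ I,
    ∃ N : Matroid (Fin (f I).1), Describes (f I) N ∧ (∀ e f, N.Indep {e, f}) ∧ TwoFours N ∧
      BranchWidthLE N 3 ∧ (∀ j : ℕ, N.eRk {x | (x : ℕ) < j} + N.eRk {x | j ≤ (x : ℕ)} ≤
        N.eRank + 3) ∧ ∀ M : Matroid (Fin I.1), Describes I M →
        (Representable M ↔ Representable N) := by
  refine ⟨red, primrec_red, fun I => ?_⟩
  have hG := distinct_toWc (repC I)
  refine ⟨mat (sys _ hG) (blocks (toWc (repC I))).length, describes_binst hG, simple_mat _,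
    twoFours_mat _, branchWidth_mat _, path_aux _, fun M hM => ?_⟩
  have h1 := representable_iff hG
  rw [wsat_toWc, repC_sat_iff hM] at h1
  exact h1.symm

end Pool.Agent.Y336.BW
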