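import Mathlib

/-!
# Matroids from rank functions, and the rank function of a system of quadrangles
-/

set_option autoImplicit false

namespace Pool.Agent.Y336.BW

section abstract_rank

variable {α : Type*} [DecidableEq α] {r : Finset α → ℕ}

/-- axioms of a rank function -/
structure RkAx (r : Finset α → ℕ) : Prop where
  empty : r ∅ = 0
  mono : ∀ X e, r X ≤ r (insert e X)
  unit : ∀ X e, r (insert e X) ≤ r X + 1
  sub : ∀ X e f, r (insert e X) = r X → r (insert f X) = r X →
    r (insert e (insert f X)) = r X

namespace RkAx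

variable (h : RkAx r)
include h

theorem mono' {X Y : Finset α} (hXY : X ⊆ Y) : r X ≤ r Y := by
  have key : ∀ F : Finset α, r X ≤ r (F ∪ X) := by
    intro F
    induction F using Finset.induction_on with
    | empty => simp
    | insert e F he ih =>
      rw [Finset.insert_union]
      exact ih.trans (h.mono _ _)
  have := key Y
  rwa [Finset.union_eq_left.2 hXY] at this

theorem le_add {X : Finset α} (F : Finset α) : r (F ∪ X) ≤ r X + F.card := by
  induction F using Finset.induction_on with
  | empty => simp
  | insert e F he ih =>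
    rw [Finset.insert_union, Finset.card_insert_of_notMem he]
    have := h.unit (F ∪ X) e
    omega

theorem le_card (X : Finset α) : r X ≤ X.card := by
  have := h.le_add (X := ∅) X
  rw [h.empty, Finset.union_empty] at this
  omega

theorem indep_subset {I J : Finset α} (hJ : r J = J.card) (hIJ : I ⊆ J) : r I = I.card := by
  have h1 := h.le_add (X := I) (J \ I)
  rw [Finset.sdiff_union_of_subset hIJ, hJ, Finset.card_sdiff_of_subset hIJ] at h1
  have h2 := h.le_card I
  have h3 := Finset.card_le_card hIJ
  omega

/-- closure under adding elements -/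
theorem closure {X : Finset α} (F : Finset α) (hF : ∀ e ∈ F, r (insert e X) = r X) :
    r (F ∪ X) = r X := by
  -- stronger: for all F' ⊆ F and e ∈ F
  have key : ∀ F : Finset α, (∀ e ∈ F, r (insert e X) = r X) →
      r (F ∪ X) = r X ∧ ∀ e, r (insert e X) = r X → r (insert e (F ∪ X)) = r X := by
    intro F
    induction F using Finset.induction_on with
    | empty =>
      intro _
      simp
    | insert e F he ih =>
      intro hF
      obtain ⟨h1, h2⟩ := ih (fun f hf => hF f (Finset.mem_insert_of_mem hf))
      have h3 := h2 e (hF e (Finset.mem_insert_self _ _))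
      refine ⟨by rw [Finset.insert_union, h3], fun f hf => ?_⟩
      rw [Finset.insert_union]
      have h4 := h2 f hf
      have h5 := h.sub (F ∪ X) f e (by rw [h4, h1]) (by rw [h3, h1])
      rw [h5, h1]
  exact (key F hF).1

theorem aug {I J : Finset α} (hI : r I = I.card) (hJ : r J = J.card) (hIJ : I.card < J.card) :
    ∃ e ∈ J, e ∉ I ∧ r (insert e I) = (insert e I).card := by
  by_contra hcon
  push Not at hcon
  have h1 : ∀ e ∈ J, r (insert e I) = r I := by
    intro e he
    by_cases heI : e ∈ I
    · rw [Finset.insert_eq_of_mem heI]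
    · have h2 := hcon e he heI
      rw [Finset.card_insert_of_notMem heI] at h2
      have h3 := h.mono I e
      have h4 := h.unit I e
      omega
  have h5 := h.closure J h1
  have h6 := h.mono' (X := J) (Y := J ∪ I) Finset.subset_union_left
  omega

theorem indep_empty : r ∅ = (∅ : Finset α).card := by
  rw [h.empty, Finset.card_empty]

/-- the matroid of a rank function -/
def matroid : Matroid α :=
  (IndepMatroid.ofFinset Set.univ (fun I => r I = I.card) h.indep_empty
    (fun _ _ hJ hIJ => h.indep_subset hJ hIJ) (fun _ _ hI hJ hIJ => h.aug hI hJ hIJ)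
    (fun _ _ => Set.subset_univ _)).matroid

theorem matroid_E : h.matroid.E = Set.univ := rfl

theorem matroid_indep (I : Finset α) : h.matroid.Indep I ↔ r I = I.card := by
  unfold matroid
  rw [IndepMatroid.matroid_Indep, IndepMatroid.ofFinset_indep]

theorem exists_basis (X : Finset α) : ∃ I ⊆ X, r I = I.card ∧ r X = r I := by
  induction X using Finset.induction_on with
  | empty => exact ⟨∅, subset_rfl, by simp [h.empty], rfl⟩
  | insert e X he ih =>
    obtain ⟨I, hI, hIc, hr⟩ := ih
    by_cases h1 : r (insert e I) = r I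
    · refine ⟨I, hI.trans (Finset.subset_insert _ _), hIc, ?_⟩
      have h2 : ∀ f ∈ insert e X, r (insert f I) = r I := by
        intro f hf
        rcases Finset.mem_insert.1 hf with rfl | hf
        · exact h1
        · apply le_antisymm
          · rw [← hr]
            exact h.mono' (Finset.insert_subset hf hI)
          · exact h.mono _ _
      have h3 := h.closure _ h2
      rw [← h3]
      congr 1
      exact (Finset.union_eq_left.2 (hI.trans (Finset.subset_insert _ _))).symm
    · have heI : e ∉ I := fun hh => h1 (by rw [Finset.insert_eq_of_mem hh])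
      have h2 := h.mono I e
      have h3 := h.unit I e
      have h4 : r (insert e I) = (insert e I).card := by
        rw [Finset.card_insert_of_notMem heI]; omega
      refine ⟨insert e I, Finset.insert_subset_insert _ hI, h4, ?_⟩
      have h5 := h.unit X e
      have h6 := h.mono' (Finset.insert_subset_insert e hI)
      omega

theorem matroid_eRk [Finite α] (X : Finset α) : h.matroid.eRk X = r X := by
  obtain ⟨I, hI, hIc, hr⟩ := h.exists_basis X
  have hb : h.matroid.IsBasis' I X := by
    rw [Matroid.isBasis'_iff_isBasis_inter_ground, h.matroid_E, Set.inter_univ,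
      Matroid.isBasis_iff (by rw [h.matroid_E]; exact Set.subset_univ _)]
    refine ⟨(h.matroid_indep I).2 hIc, by exact_mod_cast hI, fun J hJ hIJ hJX => ?_⟩
    have hJf : J.Finite := X.finite_toSet.subset hJX
    obtain ⟨J, rfl⟩ := hJf.exists_finset_coe
    rw [matroid_indep] at hJ
    have h1 : I ⊆ J := by exact_mod_cast hIJ
    have h2 : J ⊆ X := by exact_mod_cast hJX
    have h3 := h.mono' h2
    have h4 := Finset.eq_of_subset_of_card_le h1 (by omega)
    rw [h4]
  rw [← hb.encard_eq_eRk, Set.encard_coe_eq_coe_finsetCard, hr, hIc]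

end RkAx

end abstract_rank

/-! ### quadrangles -/

/-- the quadrangle of an element -/
def blk (e : ℕ) : ℕ := (e - 2) / 4
/-- the vertex of an element -/
def vtx (e : ℕ) : ℕ := (e - 2) % 4

theorem vtx_lt (e : ℕ) : vtx e < 4 := Nat.mod_lt _ (by norm_num)

theorem ext_bv {e f : ℕ} (he : 2 ≤ e) (hf : 2 ≤ f) (h1 : blk e = blk f) (h2 : vtx e = vtx f) :
    e = f := by
  unfold blk at h1
  unfold vtx at h2
  omega

/-- Labels of the sides of the quadrangles: `lab k i j` is the label of the side joining the
vertices `i` and `j` of the quadrangle `k`. The two points of the line have the labels `p`, `q`. -/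
structure Sys (Λ : Type*) where
  lab : ℕ → ℕ → ℕ → Λ
  p : Λ
  q : Λ
  symm : ∀ k i j, lab k i j = lab k j i
  adj : ∀ k i j l, i < 4 → j < 4 → l < 4 → i ≠ j → i ≠ l → j ≠ l → lab k i j ≠ lab k i l
  ne : p ≠ q

section quad

variable {Λ : Type*} [DecidableEq Λ] (S : Sys Λ)

/-- the label of a pair of elements -/
def lam (e f : ℕ) : Option Λ :=
  if e = f then (if e = 0 then some S.p else if e = 1 then some S.q else none)
  else if 2 ≤ e ∧ 2 ≤ f ∧ blk e = blk f then some (S.lab (blk e) (vtx e) (vtx f)) else none

omit [DecidableEq Λ] in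
theorem lam_symm (e f : ℕ) : lam S e f = lam S f e := by
  unfold lam
  by_cases h : e = f
  · subst h; rfl
  · rw [if_neg h, if_neg (Ne.symm h)]
    by_cases h2 : 2 ≤ e ∧ 2 ≤ f ∧ blk e = blk f
    · rw [if_pos h2, if_pos ⟨h2.2.1, h2.1, h2.2.2.symm⟩, h2.2.2, S.symm]
    · rw [if_neg h2, if_neg (fun h3 => h2 ⟨h3.2.1, h3.1, h3.2.2.symm⟩)]

variable {N : ℕ}

/-- the labels of a set of elements -/
def labsOf (X : Finset (Fin N)) : Finset Λ :=
  X.biUnion fun e => X.biUnion fun f => (lam S e f).toFinset

/-- the quadrangles which meet a set of elements -/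
def touched (X : Finset (Fin N)) : Finset ℕ :=
  (X.filter (fun e : Fin N => 2 ≤ (e : ℕ))).image (fun e : Fin N => blk e)

/-- the rank of a set of elements -/
def rk (X : Finset (Fin N)) : ℕ := (touched X).card + min 2 (labsOf S X).card

theorem mem_labsOf {X : Finset (Fin N)} {l : Λ} :
    l ∈ labsOf S X ↔ ∃ e ∈ X, ∃ f ∈ X, lam S e f = some l := by
  simp [labsOf]

theorem mem_touched {X : Finset (Fin N)} {k : ℕ} :
    k ∈ touched X ↔ ∃ e ∈ X, 2 ≤ (e : ℕ) ∧ blk e = k := by
  simp [touched, and_assoc]

theorem mem_labsOf_insert {X : Finset (Fin N)} {e : Fin N} {l : Λ} :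
    l ∈ labsOf S (insert e X) ↔ l ∈ labsOf S X ∨ lam S e e = some l ∨
      ∃ f ∈ X, lam S e f = some l := by
  simp only [mem_labsOf]
  constructor
  · rintro ⟨a, ha, b, hb, hab⟩
    rcases Finset.mem_insert.1 ha with ha' | ha'
    · subst ha'
      rcases Finset.mem_insert.1 hb with hb' | hb'
      · subst hb'
        exact Or.inr (Or.inl hab)
      · exact Or.inr (Or.inr ⟨b, hb', hab⟩)
    · rcases Finset.mem_insert.1 hb with hb' | hb'
      · subst hb'
        exact Or.inr (Or.inr ⟨a, ha', by rw [lam_symm]; exact hab⟩)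
      · exact Or.inl ⟨a, ha', b, hb', hab⟩
  · rintro (⟨a, ha, b, hb, hab⟩ | h | ⟨f, hf, h⟩)
    · exact ⟨a, Finset.mem_insert_of_mem ha, b, Finset.mem_insert_of_mem hb, hab⟩
    · exact ⟨e, Finset.mem_insert_self _ _, e, Finset.mem_insert_self _ _, h⟩
    · exact ⟨e, Finset.mem_insert_self _ _, f, Finset.mem_insert_of_mem hf, h⟩

theorem touched_insert {X : Finset (Fin N)} {e : Fin N} :
    touched (insert e X) = if 2 ≤ (e : ℕ) then insert (blk e) (touched X) else touched X := by
  ext k
  split_ifs with h
  · simp only [mem_touched, Finset.mem_insert]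
    constructor
    · rintro ⟨a, rfl | ha, h1, h2⟩
      · exact Or.inl h2.symm
      · exact Or.inr ⟨a, ha, h1, h2⟩
    · rintro (rfl | ⟨a, ha, h1, h2⟩)
      · exact ⟨e, Or.inl rfl, h, rfl⟩
      · exact ⟨a, Or.inr ha, h1, h2⟩
  · simp only [mem_touched, Finset.mem_insert]
    constructor
    · rintro ⟨a, rfl | ha, h1, h2⟩
      · exact absurd h1 h
      · exact ⟨a, ha, h1, h2⟩
    · rintro ⟨a, ha, h1, h2⟩
      exact ⟨a, Or.inr ha, h1, h2⟩

theorem labsOf_mono {X Y : Finset (Fin N)} (h : X ⊆ Y) : labsOf S X ⊆ labsOf S Y := by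
  intro l hl
  rw [mem_labsOf] at hl ⊢
  obtain ⟨a, ha, b, hb, hab⟩ := hl
  exact ⟨a, h ha, b, h hb, hab⟩

theorem touched_mono {X Y : Finset (Fin N)} (h : X ⊆ Y) : touched X ⊆ touched Y := by
  intro l hl
  rw [mem_touched] at hl ⊢
  obtain ⟨a, ha, hab⟩ := hl
  exact ⟨a, h ha, hab⟩

omit [DecidableEq Λ] in
theorem lam_self_of_two_le {e : ℕ} (he : 2 ≤ e) : lam S e e = none := by
  unfold lam
  rw [if_pos rfl, if_neg (by omega), if_neg (by omega)]

omit [DecidableEq Λ] in
theorem lam_off {e f : ℕ} (he : 2 ≤ e) (hf : 2 ≤ f) (hef : e ≠ f) (hb : blk e = blk f) :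
    lam S e f = some (S.lab (blk e) (vtx e) (vtx f)) := by
  unfold lam
  rw [if_neg hef, if_pos ⟨he, hf, hb⟩]

omit [DecidableEq Λ] in
theorem lam_eq_some_off {e f : ℕ} {l : Λ} (hef : e ≠ f) (h : lam S e f = some l) :
    2 ≤ e ∧ 2 ≤ f ∧ blk e = blk f ∧ S.lab (blk e) (vtx e) (vtx f) = l := by
  unfold lam at h
  rw [if_neg hef] at h
  by_cases h2 : 2 ≤ e ∧ 2 ≤ f ∧ blk e = blk f
  · rw [if_pos h2] at h
    exact ⟨h2.1, h2.2.1, h2.2.2, by simpa using h⟩
  · rw [if_neg h2] at h
    exact absurd h (by simp)

omit [DecidableEq Λ] in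
/-- adjacent sides have different labels -/
theorem lam_adj {e f g : ℕ} {l m : Λ} (hef : e ≠ f) (heg : e ≠ g) (hfg : f ≠ g)
    (h1 : lam S e f = some l) (h2 : lam S e g = some m) : l ≠ m := by
  obtain ⟨a1, a2, a3, rfl⟩ := lam_eq_some_off S hef h1
  obtain ⟨b1, b2, b3, rfl⟩ := lam_eq_some_off S heg h2
  refine S.adj _ _ _ _ (vtx_lt _) (vtx_lt _) (vtx_lt _) ?_ ?_ ?_
  · exact fun h => hef (ext_bv a1 a2 a3 h)
  · exact fun h => heg (ext_bv b1 b2 b3 h)
  · exact fun h => hfg (ext_bv a2 b2 (a3.symm.trans b3) h)

/-- An element of a new quadrangle adds no label. -/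
theorem labsOf_insert_new {X : Finset (Fin N)} {e : Fin N} (he : 2 ≤ (e : ℕ))
    (hb : blk e ∉ touched X) : labsOf S (insert e X) = labsOf S X := by
  ext l
  rw [mem_labsOf_insert]
  constructor
  · rintro (h | h | ⟨f, hf, h⟩)
    · exact h
    · rw [lam_self_of_two_le S he] at h
      exact absurd h (by simp)
    · exfalso
      by_cases hef : (e : ℕ) = f
      · exact hb (mem_touched.2 ⟨e, by rwa [Fin.ext hef], he, rfl⟩)
      · obtain ⟨-, h2, h3, -⟩ := lam_eq_some_off S hef h
        exact hb (mem_touched.2 ⟨f, hf, h2, h3.symm⟩)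
  · exact Or.inl

theorem rk_empty : rk S (∅ : Finset (Fin N)) = 0 := by
  simp [rk, touched, labsOf]

theorem rk_mono_insert (X : Finset (Fin N)) (e : Fin N) : rk S X ≤ rk S (insert e X) := by
  unfold rk
  have h1 := Finset.card_le_card (touched_mono (Finset.subset_insert e X))
  have h2 := Finset.card_le_card (labsOf_mono S (Finset.subset_insert e X))
  omega

/-- If no new quadrangle is met and there is at most one label before, then at most one label is
new. -/
theorem card_labsOf_insert {X : Finset (Fin N)} {e : Fin N}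
    (hX : (labsOf S X).card = 0) : (labsOf S (insert e X)).card ≤ 1 := by
  rw [Finset.card_le_one]
  have hX' : labsOf S X = ∅ := Finset.card_eq_zero.1 hX
  -- both labels come from the pair of e with an element
  have key : ∀ l ∈ labsOf S (insert e X), lam S e e = some l ∨ ∃ f ∈ X, lam S e f = some l := by
    intro l hl
    rw [mem_labsOf_insert] at hl
    rcases hl with hl | hl
    · rw [hX'] at hl; exact absurd hl (by simp)
    · exact hl
  intro l hl m hm
  by_contra hlm
  by_cases heX : e ∈ X
  · rw [Finset.insert_eq_of_mem heX, hX'] at hl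
    exact absurd hl (by simp)
  by_cases he : 2 ≤ (e : ℕ)
  · have key' : ∀ l ∈ labsOf S (insert e X), ∃ f ∈ X, (e : ℕ) ≠ f ∧ lam S e f = some l := by
      intro l hl
      rcases key l hl with h | ⟨f, hf, h⟩
      · rw [lam_self_of_two_le S he] at h
        exact absurd h (by simp)
      · exact ⟨f, hf, fun hh => heX (by rwa [Fin.ext hh]), h⟩
    obtain ⟨f, hf, hef, h1⟩ := key' l hl
    obtain ⟨g, hg, heg, h2⟩ := key' m hm
    obtain ⟨a1, a2, a3, a4⟩ := lam_eq_some_off S hef h1
    obtain ⟨b1, b2, b3, b4⟩ := lam_eq_some_off S heg h2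
    by_cases hfg : (f : ℕ) = g
    · rw [hfg] at a4
      exact hlm (a4.symm.trans b4)
    · have h3 := lam_off S a2 b2 hfg (a3.symm.trans b3)
      have h4 : S.lab (blk f) (vtx f) (vtx g) ∈ labsOf S X :=
        (mem_labsOf S).2 ⟨f, hf, g, hg, h3⟩
      rw [hX'] at h4
      exact absurd h4 (by simp)
  · have key' : ∀ l ∈ labsOf S (insert e X), lam S e e = some l := by
      intro l hl
      rcases key l hl with h | ⟨f, hf, h⟩
      · exact h
      · have hef : (e : ℕ) ≠ f := fun hh => heX (by rwa [Fin.ext hh])
        exact absurd (lam_eq_some_off S hef h).1 he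
    have h1 := key' l hl
    rw [key' m hm] at h1
    exact hlm (by simpa using h1.symm)

theorem rk_unit (X : Finset (Fin N)) (e : Fin N) : rk S (insert e X) ≤ rk S X + 1 := by
  unfold rk
  by_cases h : 2 ≤ (e : ℕ) ∧ blk e ∉ touched X
  · rw [labsOf_insert_new S h.1 h.2, touched_insert, if_pos h.1, Finset.card_insert_of_notMem h.2]
    omega
  · have h1 : touched (insert e X) = touched X := by
      rw [touched_insert]
      split_ifs with h2
      · rw [Finset.insert_eq_of_mem]
        by_contra h3
        exact h ⟨h2, h3⟩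
      · rfl
    rw [h1]
    rcases Nat.eq_zero_or_pos (labsOf S X).card with h2 | h2
    · have := card_labsOf_insert S (e := e) h2
      omega
    · omega

theorem rk_sub (X : Finset (Fin N)) (e f : Fin N) (he : rk S (insert e X) = rk S X)
    (hf : rk S (insert f X) = rk S X) : rk S (insert e (insert f X)) = rk S X := by
  by_cases heX : e ∈ X
  · rw [Finset.insert_eq_of_mem (Finset.mem_insert_of_mem heX), hf]
  by_cases hfX : f ∈ X
  · rw [Finset.insert_eq_of_mem hfX, he]
  -- the quadrangles of e and f are met by X
  have key : ∀ g : Fin N, rk S (insert g X) = rk S X → touched (insert g X) = touched X ∧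
      ((labsOf S X).card ≤ 1 → labsOf S (insert g X) = labsOf S X) := by
    intro g hg
    unfold rk at hg
    have h1 := touched_mono (Finset.subset_insert g X)
    have h2 := labsOf_mono S (Finset.subset_insert g X)
    have h3 := Finset.card_le_card h1
    have h4 := Finset.card_le_card h2
    refine ⟨(Finset.eq_of_subset_of_card_le h1 (by omega)).symm, fun h5 => ?_⟩
    exact (Finset.eq_of_subset_of_card_le h2 (by omega)).symm
  obtain ⟨e1, e2⟩ := key e he
  obtain ⟨f1, f2⟩ := key f hf
  have hT : touched (insert e (insert f X)) = touched X := by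
    rw [touched_insert, f1, ← touched_insert, e1]
  have hP0 := Finset.card_le_card (labsOf_mono S
    ((Finset.subset_insert f X).trans (Finset.subset_insert e _)))
  by_cases hc : (labsOf S X).card ≤ 1
  · have hP : labsOf S (insert e (insert f X)) = labsOf S X := by
      refine Finset.Subset.antisymm ?_ (labsOf_mono S
        ((Finset.subset_insert f X).trans (Finset.subset_insert e _)))
      intro l hl
      rw [mem_labsOf_insert] at hl
      rcases hl with hl | hl | ⟨g, hg, hl⟩
      · rwa [f2 hc] at hl
      · rw [← e2 hc, mem_labsOf_insert]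
        exact Or.inr (Or.inl hl)
      · rcases Finset.mem_insert.1 hg with rfl | hg
        · -- the pair e, g
          by_cases heg : (e : ℕ) = g
          · rw [← e2 hc, mem_labsOf_insert]
            rw [← heg] at hl
            exact Or.inr (Or.inl hl)
          · exfalso
            obtain ⟨a1, a2, a3, a4⟩ := lam_eq_some_off S heg hl
            -- an element of X in the quadrangle
            have h5 : blk e ∈ touched X := by
              rw [← e1, touched_insert, if_pos a1]
              exact Finset.mem_insert_self _ _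
            obtain ⟨x, hx, hx2, hxb⟩ := mem_touched.1 h5
            have hxe : (x : ℕ) ≠ e := fun h => heX (by rwa [← Fin.ext h])
            have hxg : (x : ℕ) ≠ g := fun h => hfX (by rwa [← Fin.ext h])
            have h6 := lam_off S hx2 a1 hxe hxb
            have h7 := lam_off S hx2 a2 hxg (hxb.trans a3)
            have h8 := lam_adj S hxe hxg heg h6 h7
            have h9 : S.lab (blk x) (vtx x) (vtx e) ∈ labsOf S X := by
              rw [← e2 hc, mem_labsOf_insert]
              exact Or.inr (Or.inr ⟨x, hx, by rw [lam_symm]; exact h6⟩)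
            have h10 : S.lab (blk x) (vtx x) (vtx g) ∈ labsOf S X := by
              rw [← f2 hc, mem_labsOf_insert]
              exact Or.inr (Or.inr ⟨x, hx, by rw [lam_symm]; exact h7⟩)
            exact h8 (Finset.card_le_one.1 hc _ h9 _ h10)
        · rw [← e2 hc, mem_labsOf_insert]
          exact Or.inr (Or.inr ⟨g, hg, hl⟩)
    rw [rk, rk, hT, hP]
  · rw [rk, rk, hT]
    omega

/-- the rank function of a system of quadrangles -/
theorem rkAx (N : ℕ) : RkAx (rk S (N := N)) where
  empty := rk_empty S
  mono := rk_mono_insert S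
  unit := rk_unit S
  sub := rk_sub S

end quad

end Pool.Agent.Y336.BW
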