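import Pool.Agent.Y336.BW.Inst

/-!
# Bases, minor, width and computability of the matroid of a system of quadrangles
-/

set_option autoImplicit false

namespace Pool.Agent.Y336.BW

open scoped Matroid

section

variable {Λ : Type*} [DecidableEq Λ] (S : Sys Λ) {K : ℕ}

theorem touched_subset (X : Finset (Fin (2 + 4 * K))) : touched X ⊆ Finset.range K := by
  intro k hk
  obtain ⟨e, -, h2, rfl⟩ := mem_touched.1 hk
  exact Finset.mem_range.2 (blk_lt h2 e.2)

theorem rk_le (X : Finset (Fin (2 + 4 * K))) : rk S X ≤ K + 2 := by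
  have h1 := Finset.card_le_card (touched_subset X)
  rw [Finset.card_range] at h1
  unfold rk
  omega

theorem rk_eq_iff (X : Finset (Fin (2 + 4 * K))) : rk S X = K + 2 ↔
    (∀ k < K, k ∈ touched X) ∧ ∃ l ∈ labsOf S X, ∃ m ∈ labsOf S X, l ≠ m := by
  have h1 := touched_subset X
  have h1' := Finset.card_le_card h1
  rw [Finset.card_range] at h1'
  constructor
  · intro h
    unfold rk at h
    constructor
    · intro k hk
      have h2 : touched X = Finset.range K :=
        Finset.eq_of_subset_of_card_le h1 (by rw [Finset.card_range]; omega)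
      rw [h2]
      exact Finset.mem_range.2 hk
    · exact Finset.one_lt_card.1 (by omega)
  · rintro ⟨h2, h3⟩
    have h4 := Finset.one_lt_card.2 h3
    have h5 : touched X = Finset.range K :=
      Finset.Subset.antisymm h1 fun k hk => h2 k (Finset.mem_range.1 hk)
    unfold rk
    rw [h5, Finset.card_range]
    omega

theorem rk_univ : rk S (Finset.univ : Finset (Fin (2 + 4 * K))) = K + 2 := by
  rw [rk_eq_iff]
  refine ⟨fun k hk => mem_touched.2 ⟨el k 0 hk (by norm_num), by simp, two_le_el _ _, blk_el _ _⟩,
    S.p, (mem_labsOf S).2 ⟨e0, by simp, e0, by simp, by simp [lam, e0]⟩, S.q,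
    (mem_labsOf S).2 ⟨e1, by simp, e1, by simp, by simp [lam, e1]⟩, S.ne⟩

/-- the matroid of a system of quadrangles -/
def mat (K : ℕ) : Matroid (Fin (2 + 4 * K)) := (rkAx S (2 + 4 * K)).matroid

theorem mat_E : (mat S K).E = Set.univ := rfl

theorem mat_indep (I : Finset (Fin (2 + 4 * K))) : (mat S K).Indep I ↔ rk S I = I.card :=
  (rkAx S (2 + 4 * K)).matroid_indep I

theorem mat_eRk (X : Finset (Fin (2 + 4 * K))) : (mat S K).eRk X = rk S X :=
  (rkAx S (2 + 4 * K)).matroid_eRk X

theorem mat_eRank : (mat S K).eRank = ((K + 2 : ℕ) : ℕ∞) := by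
  rw [← Matroid.eRk_ground, mat_E, ← Finset.coe_univ, mat_eRk, rk_univ]

theorem mat_isBase (B : Finset (Fin (2 + 4 * K))) :
    (mat S K).IsBase B ↔ B.card = K + 2 ∧ rk S B = K + 2 := by
  have h := rkAx S (2 + 4 * K)
  rw [Matroid.isBase_iff_maximal_indep, maximal_iff]
  constructor
  · rintro ⟨h1, h2⟩
    rw [mat_indep] at h1
    by_contra hcon
    have h3 : rk S B < K + 2 := by
      have := rk_le S B
      omega
    -- an element outside the closure
    have h4 : ∃ e, rk S (insert e B) ≠ rk S B := by
      by_contra hcon2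
      push Not at hcon2
      have h5 := h.closure (X := B) Finset.univ (fun e _ => hcon2 e)
      rw [Finset.union_eq_left.2 (Finset.subset_univ _), rk_univ] at h5
      omega
    obtain ⟨e, he⟩ := h4
    have heB : e ∉ B := fun hh => he (by rw [Finset.insert_eq_of_mem hh])
    have h6 := h.mono B e
    have h7 := h.unit B e
    have h8 : (mat S K).Indep (insert e B : Finset (Fin (2 + 4 * K))) := by
      rw [mat_indep, Finset.card_insert_of_notMem heB]
      omega
    have h9 := h2 h8 (by simp)
    apply heB
    have h10 : e ∈ (B : Set (Fin (2 + 4 * K))) := by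
      rw [h9]
      simp
    exact_mod_cast h10
  · rintro ⟨h1, h2⟩
    refine ⟨(mat_indep S B).2 (by omega), fun J hJ hBJ => ?_⟩
    obtain ⟨J, rfl⟩ := (Set.toFinite J).exists_finset_coe
    rw [mat_indep] at hJ
    have h3 := rk_le S J
    have h4 : B ⊆ J := by exact_mod_cast hBJ
    have h5 := Finset.eq_of_subset_of_card_le h4 (by omega)
    rw [h5]

/-- after contraction of the two points of the line, a set is independent if it contains at most
one vertex of each quadrangle -/
theorem contract_indep (I : Set (Fin (2 + 4 * K))) :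
    ((mat S K) ／ ({e0, e1} : Set (Fin (2 + 4 * K)))).Indep I ↔
      (∀ x ∈ I, 2 ≤ (x : ℕ)) ∧ ∀ x ∈ I, ∀ y ∈ I, blk x = blk y → x = y := by
  classical
  have h := rkAx S (2 + 4 * K)
  have h01 : (mat S K).Indep ({e0, e1} : Set (Fin (2 + 4 * K))) := by
    have h1 : ({e0, e1} : Set (Fin (2 + 4 * K))) = (({e0, e1} : Finset (Fin (2 + 4 * K))) :
      Set (Fin (2 + 4 * K))) := by simp
    rw [h1, mat_indep]
    have h2 : touched ({e0, e1} : Finset (Fin (2 + 4 * K))) = ∅ := by
      rw [Finset.eq_empty_iff_forall_notMem]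
      intro k hk
      obtain ⟨e, he, h2, -⟩ := mem_touched.1 hk
      simp only [Finset.mem_insert, Finset.mem_singleton] at he
      rcases he with rfl | rfl <;> simp [e0, e1] at h2
    have h3 : 1 < (labsOf S ({e0, e1} : Finset (Fin (2 + 4 * K)))).card := by
      refine Finset.one_lt_card.2 ⟨S.p, (mem_labsOf S).2 ⟨e0, by simp, e0, by simp,
        by simp [lam, e0]⟩, S.q, (mem_labsOf S).2 ⟨e1, by simp, e1, by simp,
        by simp [lam, e1]⟩, S.ne⟩
    have h4 : ({e0, e1} : Finset (Fin (2 + 4 * K))).card = 2 := Finset.card_pair (by simp [e0, e1])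
    unfold rk
    rw [h2, h4, Finset.card_empty]
    omega
  rw [h01.contract_indep_iff]
  obtain ⟨I, rfl⟩ := (Set.toFinite I).exists_finset_coe
  -- rank of the union
  have hrk : rk S ({e0, e1} ∪ I) = (touched I).card + 2 := by
    have h2 : touched ({e0, e1} ∪ I : Finset (Fin (2 + 4 * K))) = touched I := by
      ext k
      simp only [mem_touched, Finset.mem_union, Finset.mem_insert, Finset.mem_singleton]
      constructor
      · rintro ⟨e, (rfl | rfl) | he, h2, h3⟩
        · simp [e0] at h2
        · simp [e1] at h2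
        · exact ⟨e, he, h2, h3⟩
      · rintro ⟨e, he, h2, h3⟩
        exact ⟨e, Or.inr he, h2, h3⟩
    have h3 : 1 < (labsOf S ({e0, e1} ∪ I : Finset (Fin (2 + 4 * K)))).card := by
      refine Finset.one_lt_card.2 ⟨S.p, (mem_labsOf S).2 ⟨e0, by simp, e0, by simp,
        by simp [lam, e0]⟩, S.q, (mem_labsOf S).2 ⟨e1, by simp, e1, by simp,
        by simp [lam, e1]⟩, S.ne⟩
    unfold rk
    rw [h2]
    omega
  constructor
  · rintro ⟨hd, hI⟩
    have hbig : ∀ x ∈ I, 2 ≤ (x : ℕ) := by
      intro x hx
      by_contra hlt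
      have hx01 : x = e0 ∨ x = e1 := by
        have : (x : ℕ) = 0 ∨ (x : ℕ) = 1 := by omega
        rcases this with h | h
        · exact Or.inl (Fin.ext h)
        · exact Or.inr (Fin.ext h)
      have hx' : x ∈ (I : Set (Fin (2 + 4 * K))) := by exact_mod_cast hx
      exact Set.disjoint_left.1 hd hx' hx01
    refine ⟨by exact_mod_cast hbig, ?_⟩
    have hI' : rk S (I ∪ {e0, e1}) = (I ∪ {e0, e1}).card := by
      rw [← mat_indep]
      have : ((I ∪ {e0, e1} : Finset (Fin (2 + 4 * K))) : Set (Fin (2 + 4 * K))) =
        (I : Set _) ∪ {e0, e1} := by simp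
      rw [this]
      exact hI
    rw [Finset.union_comm, hrk] at hI'
    have hdisj : Disjoint ({e0, e1} : Finset (Fin (2 + 4 * K))) I := by
      rw [Finset.disjoint_left]
      intro x hx hxI
      have := hbig x hxI
      simp only [Finset.mem_insert, Finset.mem_singleton] at hx
      rcases hx with rfl | rfl <;> simp [e0, e1] at this
    have hcc : (({e0, e1} ∪ I : Finset (Fin (2 + 4 * K)))).card = 2 + I.card := by
      rw [Finset.card_union_of_disjoint hdisj, Finset.card_pair (by simp [e0, e1])]
    have hfil : I.filter (fun e : Fin (2 + 4 * K) => 2 ≤ (e : ℕ)) = I :=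
      Finset.filter_true_of_mem hbig
    have hcard : (I.image (fun e : Fin (2 + 4 * K) => blk e)).card = I.card := by
      have : touched I = I.image (fun e : Fin (2 + 4 * K) => blk e) := by
        unfold touched
        rw [hfil]
      rw [← this]
      have h5 : (({e0, e1} ∪ I : Finset (Fin (2 + 4 * K)))).card = 2 + I.card := hcc
      omega
    have hinj := Finset.card_image_iff.1 hcard
    intro x hx y hy hxy
    exact hinj (by exact_mod_cast hx) (by exact_mod_cast hy) hxy
  · rintro ⟨hbig, hinj⟩
    have hbig' : ∀ x ∈ I, 2 ≤ (x : ℕ) := by exact_mod_cast hbig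
    have hdisj : Disjoint ({e0, e1} : Finset (Fin (2 + 4 * K))) I := by
      rw [Finset.disjoint_left]
      intro x hx hxI
      have := hbig' x hxI
      simp only [Finset.mem_insert, Finset.mem_singleton] at hx
      rcases hx with rfl | rfl <;> simp [e0, e1] at this
    have hfil : I.filter (fun e : Fin (2 + 4 * K) => 2 ≤ (e : ℕ)) = I :=
      Finset.filter_true_of_mem hbig'
    have hcard : (touched I).card = I.card := by
      unfold touched
      rw [hfil]
      exact Finset.card_image_of_injOn fun x hx y hy hxy => hinj x hx y hy hxy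
    have hfin : rk S (I ∪ {e0, e1}) = (I ∪ {e0, e1}).card := by
      rw [Finset.union_comm, hrk, Finset.card_union_of_disjoint hdisj,
        Finset.card_pair (by simp [e0, e1]), hcard]
      omega
    rw [← mat_indep] at hfin
    have hcast : ((I ∪ {e0, e1} : Finset (Fin (2 + 4 * K))) : Set (Fin (2 + 4 * K))) =
        (I : Set _) ∪ {e0, e1} := by simp
    rw [hcast] at hfin
    have hd' : Disjoint (I : Set (Fin (2 + 4 * K))) ({e0, e1} : Set (Fin (2 + 4 * K))) := by
      rw [Set.disjoint_left]
      intro x hxI hx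
      have := hbig' x (by exact_mod_cast hxI)
      simp only [Set.mem_insert_iff, Set.mem_singleton_iff] at hx
      rcases hx with rfl | rfl <;> simp [e0, e1] at this
    exact ⟨hd', hfin⟩

end

end Pool.Agent.Y336.BW
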